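import Pool.Agent.CYL.U.G
import Pool.Agent.PLY.Main

/-!
# CYL-U: the polynomial upper bound of the number of walks
-/

namespace Pool.Agent.CYL.U

open Pool.Agent.Hhelper14.SAW Pool.Agent.Hhelper63.HW Pool.Agent.HHP Pool.Agent.HEP

theorem anUp : AnUp := by
  obtain ⟨C, hC, h⟩ := Pool.Agent.HEP.poly
  refine ⟨C, hC, fun n hn => ?_⟩
  have h1 := (h n hn).1
  rwa [muL_eq hw_quant, a_eq] at h1

end Pool.Agent.CYL.U
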