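import Pool.Agent.QL.Lift
import Pool.Agent.HHP.Mass
import Pool.Agent.Hhelper14.SAW.Count

/-!
# CYL-U (note 3191): the mass of all self-avoiding paths of the cylinder with a given start

`gm_le`: if `a_n ≤ C n^C μ^n` (hypothesis `AnUp`, theorem `HEP.poly` of the library) then the mass of all self-avoiding
paths of the cylinder of circumference `L` with `M` rows which start at a given vertex is at most `(L M + 2) ^ D`. Proof:
lift to the plane, the lengths are at most `2 L M`.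
-/

namespace Pool.Agent.CYL.U

open Pool.Agent.Hhelper14.SAW Pool.Agent.HHP Pool.Agent.QL Pool.Agent.BEX
open scoped ENNReal

/-- Self-avoiding paths of the cylinder of `M` rows, started at `u`. -/
def SP {L : ℕ} (M : ℕ) (u : CV L) (l : List (CV L)) : Prop :=
  l.Nodup ∧ l.IsChain ad ∧ (∀ z ∈ l, 0 ≤ z.1 ∧ z.1 < M) ∧ l.head? = some u

/-- Their mass. -/
noncomputable def gm {L : ℕ} (M : ℕ) (u : CV L) : ℝ≥0∞ := ∑' l : {l : List (CV L) // SP M u l}, xE ^ l.1.length

/-- The number of walks of the plane is at most `C n^C μ^n`. -/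
def AnUp : Prop := ∃ C : ℝ, 0 < C ∧ ∀ n : ℕ, 1 ≤ n → (an n : ℝ) ≤ C * (n : ℝ) ^ C * mu ^ n

/-! ### Lift -/

lemma hon_iff {z : ℤ × ℤ} : hon z ↔ F0 z % 3 ≠ 2 := by
  simp only [hon, F0]; omega

lemma ad_lift {N : ℕ} (i : Fin N) {z : ℤ × ℤ} (hz : hon z) {w : CV N} (hw : ad (pr i z) w) :
    ∃ z', w = pr i z' ∧ Adj z z' := by
  obtain ⟨d, hd⟩ : ∃ d : ℤ × ℤ, Gd z d := by
    rw [hon_iff] at hz
    rcases (by omega : F0 z % 3 = 0 ∨ F0 z % 3 = 1) with h | h
    · exact ⟨(1, 0), Or.inl ⟨h, Or.inl rfl⟩⟩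
    · exact ⟨(-1, 0), Or.inr ⟨h, Or.inl rfl⟩⟩
  have hU : U d := by
    rcases hd with ⟨-, rfl | rfl | rfl⟩ | ⟨-, rfl | rfl | rfl⟩ <;> decide
  rcases ad_ex i hd hw with h | ⟨b, h⟩
  · refine ⟨z - d, h, hz, ?_, by rwa [sub_sub_cancel]⟩
    rw [hon_iff] at hz ⊢
    rw [F0_sub]
    rcases hd with ⟨h1, rfl | rfl | rfl⟩ | ⟨h1, rfl | rfl | rfl⟩ <;> simp only [F0] at h1 ⊢ <;> omega
  · refine ⟨z + tn b d, h, hz, ?_, ?_⟩
    · rw [hon_iff]
      have := (hd.step b).res
      omega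
    · have : z - (z + tn b d) = -tn b d := by ring
      rw [this]
      apply U.neg
      cases b
      · exact hU.R
      · exact hU.L

lemma lift_chain {N : ℕ} (i : Fin N) (l : List (CV N)) : ∀ z : ℤ × ℤ, hon z → (pr i z :: l).IsChain ad →
    ∃ P : List (ℤ × ℤ), (z :: P).IsChain Adj ∧ (z :: P).map (pr i) = pr i z :: l := by
  induction l with
  | nil => intro z _ _; exact ⟨[], by simp, rfl⟩
  | cons w l ih =>
    intro z hz hc
    rw [List.isChain_cons_cons] at hc
    obtain ⟨z', h1, h2⟩ := ad_lift i hz hc.1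
    subst h1
    obtain ⟨P, h3, h4⟩ := ih z' h2.2.1 hc.2
    exact ⟨z' :: P, List.isChain_cons_cons.2 ⟨h2, h3⟩, by rw [List.map_cons, h4]⟩

/-- The vertex of the plane above `u`. -/
def up {L : ℕ} (u : CV L) : ℤ × ℤ := (u.1, if u.2.2 then u.1 else u.1 + 1)

lemma pr_up {L : ℕ} (u : CV L) : pr u.2.1 (up u) = u := by
  obtain ⟨n, j, b⟩ := u
  cases b
  · have h1 : (2 * n + (n + 1)) / 3 = n := by omega
    have h2 : (2 * n + (n + 1)) % 3 ≠ 0 := by omega
    simp [pr, up, F0, h1, h2, md_zero]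
  · have h1 : (2 * n + n) / 3 = n := by omega
    have h2 : (2 * n + n) % 3 = 0 := by omega
    simp [pr, up, F0, h1, h2, md_zero]

lemma hon_up {L : ℕ} (u : CV L) : hon (up u) := by
  obtain ⟨n, j, b⟩ := u
  cases b <;> simp [hon, up]

lemma up_type {L : ℕ} (u : CV L) :
    ((up u).1 - (up u).2) % 3 = if (if u.2.2 then 0 else 1) % 2 = 0 then 0 else 2 := by
  obtain ⟨n, j, b⟩ := u
  cases b <;> simp [up]

/-- Every self-avoiding path of the cylinder is the projection of a self-avoiding walk of the plane. -/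
lemma sp_lift {L M : ℕ} {u : CV L} {l : List (CV L)} (h : SP M u l) :
    ∃ P : List (ℤ × ℤ), (up u :: P).Nodup ∧ (up u :: P).IsChain Adj ∧ (up u :: P).map (pr u.2.1) = l := by
  obtain ⟨h1, h2, h3, h4⟩ := h
  cases l with
  | nil => simp at h4
  | cons w l =>
    simp only [List.head?_cons, Option.some.injEq] at h4
    subst h4
    obtain ⟨P, h5, h6⟩ := lift_chain w.2.1 l (up w) (hon_up w) (by rw [pr_up]; exact h2)
    rw [pr_up] at h6
    exact ⟨P, List.Nodup.of_map _ (by rw [h6]; exact h1), h5, h6⟩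

/-- Normalisation to a walk from `o`. -/
lemma walk_of {L : ℕ} {u : CV L} {P : List (ℤ × ℤ)} (h1 : (up u :: P).Nodup) (h2 : (up u :: P).IsChain Adj) :
    IsWalk P.length (((up u :: P).map (rv (if u.2.2 then 0 else 1) (up u))).reverse) := by
  refine ⟨by simp, ?_, ?_, ?_⟩
  · rw [List.nodup_reverse]
    exact h1.map fun x y h => rv_inj h
  · unfold HChain
    rw [List.isChain_reverse, List.isChain_map]
    exact h2.imp fun x y h => (rv_adj (up_type u) h).symm
  · rw [List.getLast?_reverse, List.map_cons, List.head?_cons, rv_self]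

/-! ### Lengths -/

lemma sp_length {L M : ℕ} {u : CV L} {l : List (CV L)} (h : SP M u l) : l.length ≤ 2 * (L * M) := by
  classical
  obtain ⟨h1, h2, h3, h4⟩ := h
  rw [← List.toFinset_card_of_nodup h1]
  have hsub : l.toFinset ⊆ (Finset.Ico (0 : ℤ) M) ×ˢ (Finset.univ : Finset (Fin L × Bool)) := by
    intro z hz
    have := h3 z (List.mem_toFinset.1 hz)
    simp [this.1, this.2]
  refine (Finset.card_le_card hsub).trans (le_of_eq ?_)
  rw [Finset.card_product]
  simp
  ring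

/-! ### The bound -/

lemma gm_le_sum {L : ℕ} (M : ℕ) (u : CV L) :
    gm M u ≤ ∑ n ∈ Finset.range (2 * (L * M)), (an n : ℝ≥0∞) * xE ^ (n + 1) := by
  have h1 : gm M u ≤ ∑' q : (n : Fin (2 * (L * M))) × {P : List (ℤ × ℤ) // IsWalk n P}, xE ^ ((q.1 : ℕ) + 1) := by
    unfold gm
    refine tsum_rel _ _ (fun l q => ∃ P : List (ℤ × ℤ), (up u :: P).map (pr u.2.1) = l.1 ∧
      q.2.1 = ((up u :: P).map (rv (if u.2.2 then 0 else 1) (up u))).reverse) ?_ ?_
    · rintro ⟨l, hl⟩
      obtain ⟨P, h1, h2, h3⟩ := sp_lift hl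
      have h4 : P.length + 1 = l.length := by rw [← h3]; simp
      have h5 := sp_length hl
      refine ⟨⟨⟨P.length, by omega⟩, ⟨_, walk_of h1 h2⟩⟩, ⟨P, h3, rfl⟩, ?_⟩
      simp only
      rw [h4]
    · rintro ⟨l, hl⟩ ⟨l', hl'⟩ ⟨n, P, hP⟩ ⟨P1, h1, h2⟩ ⟨P2, h3, h4⟩
      simp only at h1 h2 h3 h4
      have h5 : (up u :: P1) = (up u :: P2) := by
        have h6 := List.reverse_injective (h2.symm.trans h4)
        exact List.map_injective_iff.2 (fun x y h => rv_inj h) h6
      refine Subtype.ext ?_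
      simp only
      rw [← h1, ← h3, h5]
  refine h1.trans (le_of_eq ?_)
  rw [ENNReal.tsum_sigma', tsum_fintype, Finset.sum_range]
  refine Finset.sum_congr rfl fun n _ => ?_
  have h0 : ∑' b : {P : List (ℤ × ℤ) // IsWalk n P}, xE ^ (((⟨n, b⟩ : (n : Fin (2 * (L * M))) ×
      {P : List (ℤ × ℤ) // IsWalk n P}).1 : ℕ) + 1) = ∑' _b : {P : List (ℤ × ℤ) // IsWalk n P}, xE ^ ((n : ℕ) + 1) := rfl
  rw [h0, ENNReal.tsum_const]
  congr 1
  have h2 : ENat.card {P : List (ℤ × ℤ) // IsWalk n P} = (an n : ℕ∞) := by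
    have h3 := (walk_fin (n : ℕ)).cast_ncard_eq
    unfold an
    rw [h3]
    rfl
  rw [h2]
  simp

/-- The mass of all self-avoiding paths from a given vertex of the cylinder is at most polynomial. -/
theorem gm_le (hA : AnUp) : ∃ D : ℕ, ∀ (L M : ℕ) (u : CV L), gm M u ≤ ((L * M + 2 : ℕ) : ℝ≥0∞) ^ D := by
  obtain ⟨C, hC, h⟩ := hA
  set k := ⌈C⌉₊ with hk
  have hk1 : C ≤ k := Nat.le_ceil C
  have hk0 : 1 ≤ k := Nat.ceil_pos.2 hC
  -- each term is at most `k (2 L M)^k + 1`
  refine ⟨3 * k + 3, fun L M u => (gm_le_sum M u).trans ?_⟩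
  set T : ℕ := L * M with hT
  have hterm : ∀ n ∈ Finset.range (2 * T), (an n : ℝ≥0∞) * xE ^ (n + 1) ≤ ((k * (2 * T) ^ k + 1 : ℕ) : ℝ≥0∞) := by
    intro n hn
    rw [Finset.mem_range] at hn
    have hreal : (an n : ℝ) * xc ^ (n + 1) ≤ k * (2 * T : ℝ) ^ k + 1 := by
      have hx1 : xc ≤ 1 := by
        unfold xc
        rw [div_le_one mu_pos]
        exact one_le_mu
      rcases Nat.eq_zero_or_pos n with rfl | hn0
      · have : an 0 = 1 := by
          unfold an
          have : {P : List (ℤ × ℤ) | IsWalk 0 P} = {[o]} := by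
            ext P
            simp only [Set.mem_ofPred_eq, Set.mem_singleton_iff]
            constructor
            · rintro ⟨h1, -, -, h4⟩
              rcases P with _ | ⟨a, _ | ⟨b, P⟩⟩
              · simp at h1
              · simpa using h4
              · simp at h1
            · rintro rfl
              exact ⟨rfl, by simp, by simp [HChain], rfl⟩
          rw [this, Set.ncard_singleton]
        rw [this]
        have : (0 : ℝ) ≤ k * (2 * T : ℝ) ^ k := by positivity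
        simp only [Nat.cast_one, one_mul, zero_add, pow_one]
        linarith
      · have h1 := h n hn0
        have hmun : xc ^ n * mu ^ n = 1 := by
          rw [← mul_pow, xc, one_div_mul_cancel mu_pos.ne', one_pow]
        have h2 : (n : ℝ) ^ C ≤ (2 * T : ℝ) ^ k := by
          have h3 : (1 : ℝ) ≤ n := by exact_mod_cast hn0
          calc (n : ℝ) ^ C ≤ (n : ℝ) ^ (k : ℝ) := Real.rpow_le_rpow_of_exponent_le h3 hk1
            _ = (n : ℝ) ^ k := Real.rpow_natCast _ _
            _ ≤ (2 * T : ℝ) ^ k := by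
                apply pow_le_pow_left₀ (by linarith)
                exact_mod_cast hn.le
        calc (an n : ℝ) * xc ^ (n + 1) ≤ (C * (n : ℝ) ^ C * mu ^ n) * xc ^ (n + 1) :=
              mul_le_mul_of_nonneg_right h1 (pow_nonneg xc_pos.le _)
          _ = C * (n : ℝ) ^ C * xc * (xc ^ n * mu ^ n) := by ring
          _ = C * (n : ℝ) ^ C * xc := by rw [hmun, mul_one]
          _ ≤ C * (n : ℝ) ^ C * 1 := by
              apply mul_le_mul_of_nonneg_left hx1
              positivity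
          _ ≤ k * (2 * T : ℝ) ^ k := by
              rw [mul_one]
              apply mul_le_mul hk1 h2 (by positivity) (by positivity)
          _ ≤ _ := by linarith
    have h2 : (an n : ℝ≥0∞) * xE ^ (n + 1) = ENNReal.ofReal ((an n : ℝ) * xc ^ (n + 1)) := by
      rw [ENNReal.ofReal_mul (by positivity), ENNReal.ofReal_natCast, ENNReal.ofReal_pow xc_pos.le]
      rfl
    rw [h2]
    refine (ENNReal.ofReal_le_ofReal hreal).trans (le_of_eq ?_)
    rw [← ENNReal.ofReal_natCast]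
    congr 1
    push_cast
    ring
  refine (Finset.sum_le_card_nsmul _ _ _ hterm).trans ?_
  rw [Finset.card_range, nsmul_eq_mul]
  norm_cast
  -- `2 T (k (2 T)^k + 1) ≤ (T + 2) ^ (2 k + 3)`
  have e1 : k ≤ (T + 2) ^ k := (Nat.lt_two_pow_self).le.trans (Nat.pow_le_pow_left (by omega) k)
  have e2 : 2 * T ≤ (T + 2) ^ 2 := by nlinarith
  have e3 : (2 * T) ^ k ≤ (T + 2) ^ (2 * k) := by
    rw [pow_mul]
    exact Nat.pow_le_pow_left e2 k
  have e4 : k * (2 * T) ^ k + 1 ≤ (T + 2) ^ (3 * k) * (T + 2) := by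
    have h1 : k * (2 * T) ^ k ≤ (T + 2) ^ k * (T + 2) ^ (2 * k) := Nat.mul_le_mul e1 e3
    have h2 : (T + 2) ^ k * (T + 2) ^ (2 * k) = (T + 2) ^ (3 * k) := by rw [← pow_add]; congr 1; ring
    have h3 : 1 ≤ (T + 2) ^ (3 * k) := Nat.one_le_pow _ _ (by omega)
    nlinarith
  calc 2 * T * (k * (2 * T) ^ k + 1) ≤ (T + 2) ^ 2 * ((T + 2) ^ (3 * k) * (T + 2)) := Nat.mul_le_mul e2 e4
    _ = (T + 2) ^ (3 * k + 3) := by ring

end Pool.Agent.CYL.U
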