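import Pool.Agent.CYL.D.Def
import Pool.Agent.CYL.U.G

/-!
# CYL-U: contracts for the lower bound of the arcs (c)
-/

namespace Pool.Agent.CYL.U

open Pool.Agent.Hhelper14.SAW Pool.Agent.HHP Pool.Agent.QL Pool.Agent.BEX
open scoped ENNReal

/-- (c) for the circumferences in `S`: for some depth `M ≤ L ^ D` the masses of the arcs are at least `L ^ (-D)`. -/
def ArcLowS (S : Set ℕ) : Prop := ∃ D : ℕ, ∀ L ∈ S, 3 ≤ L → ∃ M : ℕ, 1 ≤ M ∧ M ≤ L ^ D ∧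
  ∀ a b : Fin L, a ≠ b → ((L : ℝ≥0∞) ^ D)⁻¹ ≤ cm M (ut a) (ut b)

/-- Contract (A). -/
def ArcCore : Prop := ∀ L N : ℕ, 2 ≤ L → 1 ≤ N → ∀ a b : Fin L, a ≠ b → ∀ G : ℝ, 0 ≤ G →
  (∀ u : CV L, gm N u ≤ ENNReal.ofReal G) →
  (Zc L 1 N).toReal / L ≤ Real.sqrt (Zc L 2 N).toReal + G * Real.sqrt (2 * L * N * (cm N (ut a) (ut b)).toReal / xc)

/-- Contract (B). -/
def ArcRow : Prop := ∀ L M : ℕ, 2 ≤ L → 1 ≤ M → ∀ a b : Fin L, a ≠ b → xE ^ (2 * L + 1) ≤ cm M (ut a) (ut b)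

end Pool.Agent.CYL.U
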