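import Pool.Agent.CYL.U.ArcD
import Pool.Agent.CYL.U.AnUp
import Pool.Agent.CYL.U.Def

/-!
# CYL-U (note 3193), step U4 (c): ARCS BETWEEN TWO TOP LEGS HAVE POLYNOMIAL MASS

`arc_lower`: `(L ^ D)⁻¹ ≤ cm (C * L) (ut c1) (ut c2)` for all `L ≥ 3` and all `c1`, `c2`. `arcLowS S : ArcLowS S`.
-/

namespace Pool.Agent.CYL.U

open Pool.Agent.Hhelper14.SAW Pool.Agent.HHP Pool.Agent.HEP Pool.Agent.QL Pool.Agent.BEX Pool.Agent.PLY.G
open scoped ENNReal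

/-- Polynomial lower bound for the arcs over `g` hexagons of the cylinder. -/
lemma arc_g : ∃ (c : ℝ≥0∞) (D : ℕ), 0 < c ∧ ∀ (L g : ℕ), 3 ≤ L → 2 * g ≤ L → ∀ i : Fin L,
    c ≤ ((g + 2 : ℕ) : ℝ≥0∞) ^ D * cm (2 * L) (ut i) (ut (md i g)) := by
  obtain ⟨c, D, hc, h⟩ := ha_lower anUp
  refine ⟨c ^ 2, 2 * D + 6, ENNReal.pow_pos hc 2, fun L g hL hg i => ?_⟩
  set F : ℝ≥0∞ := ∑' P : {P : List (ℤ × ℤ) // HA g (2 * g + 2) (g / 8 + 1) P}, xE ^ P.1.length with hF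
  have h1 := h g
  have h2 := ha_le g (2 * g + 2) (g / 8 + 1)
  have h3 := ar_proj (g := g) (M := 2 * g + 2) (W := g / 8 + 1) (L := L) (by omega) i
  have h4 := cm_mono (M := 2 * g + 2) (M' := 2 * L) (by omega) (ut i) (ut (md i g))
  have h5 : ((g + 3 * (2 * g + 2) + 1 : ℕ) : ℝ≥0∞) ^ 2 ≤ ((g + 2 : ℕ) : ℝ≥0∞) ^ 6 := by
    have : (g + 3 * (2 * g + 2) + 1) ^ 2 ≤ (g + 2) ^ 6 := by
      have e : (g + 2) ^ 6 = ((g + 2) ^ 3) ^ 2 := by ring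
      rw [e]
      apply Nat.pow_le_pow_left
      nlinarith [sq_nonneg g, pow_nonneg (Nat.zero_le g) 3]
    exact_mod_cast this
  calc c ^ 2 ≤ (F * ((g + 2 : ℕ) : ℝ≥0∞) ^ D) ^ 2 := pow_le_pow_left' h1 2
    _ = ((g + 2 : ℕ) : ℝ≥0∞) ^ (2 * D) * F ^ 2 := by ring
    _ ≤ ((g + 2 : ℕ) : ℝ≥0∞) ^ (2 * D) * (((g + 2 : ℕ) : ℝ≥0∞) ^ 6 * cm (2 * L) (ut i) (ut (md i g))) :=
        mul_le_mul' le_rfl (h2.trans (mul_le_mul' h5 (h3.trans h4)))
    _ = _ := by rw [← mul_assoc, ← pow_add]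

/-- **Arcs between two top legs have polynomial mass.** -/
theorem arc_lower : ∃ C D : ℕ, ∀ L : ℕ, 3 ≤ L → ∀ c1 c2 : Fin L, ((L : ℝ≥0∞) ^ D)⁻¹ ≤ cm (C * L) (ut c1) (ut c2) := by
  obtain ⟨c, D, hc, h⟩ := arc_g
  -- `1 ≤ c * 3 ^ k`
  obtain ⟨k, hk⟩ : ∃ k : ℕ, 1 ≤ (3 : ℝ≥0∞) ^ k * c := by
    rcases eq_or_ne c ⊤ with rfl | hct
    · exact ⟨0, by simp⟩
    · obtain ⟨n, hn⟩ := ENNReal.exists_nat_mul_gt hc.ne' ENNReal.one_ne_top
      refine ⟨n, hn.le.trans (mul_le_mul' ?_ le_rfl)⟩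
      have : n ≤ 3 ^ n := (Nat.lt_pow_self (by norm_num)).le
      exact_mod_cast this
  refine ⟨2, k + D, fun L hL c1 c2 => ?_⟩
  have hL0 : (L : ℝ≥0∞) ≠ 0 := by
    have : L ≠ 0 := by omega
    exact_mod_cast this
  have key : ∀ (g : ℕ) (i : Fin L), 2 * g ≤ L → ((L : ℝ≥0∞) ^ (k + D))⁻¹ ≤ cm (2 * L) (ut i) (ut (md i g)) := by
    intro g i hg
    rw [ENNReal.inv_le_iff_le_mul (fun _ => pow_ne_zero _ hL0) (fun h' => absurd h' (by
      exact ENNReal.pow_ne_top (ENNReal.natCast_ne_top L)))]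
    have h1 := h L g hL hg i
    have h2 : (g + 2 : ℕ) ≤ L := by omega
    have h3 : ((g + 2 : ℕ) : ℝ≥0∞) ^ D ≤ (L : ℝ≥0∞) ^ D := pow_le_pow_left' (by exact_mod_cast h2) D
    have h4 : (3 : ℝ≥0∞) ^ k ≤ (L : ℝ≥0∞) ^ k := pow_le_pow_left' (by exact_mod_cast hL) k
    calc (1 : ℝ≥0∞) ≤ 3 ^ k * c := hk
      _ ≤ (L : ℝ≥0∞) ^ k * ((L : ℝ≥0∞) ^ D * cm (2 * L) (ut i) (ut (md i g))) :=
          mul_le_mul' h4 (h1.trans (mul_le_mul' h3 le_rfl))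
      _ = _ := by rw [← mul_assoc, ← pow_add]; try rw [mul_comm]
  -- the distance along the circle
  have hmd : ∀ (a b : Fin L), b = md a ((b : ℤ) - (a : ℤ)) := by
    intro a b
    have h1 := md_val a ((b : ℤ) - (a : ℤ))
    have h2 : ((a : ℤ) + ((b : ℤ) - (a : ℤ))) % (L : ℤ) = (b : ℤ) := by
      rw [add_sub_cancel]
      exact Int.emod_eq_of_lt (by omega) (by exact_mod_cast b.2)
    rw [h2] at h1
    exact Fin.ext (by exact_mod_cast h1.symm)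
  have hwrap : ∀ (a : Fin L) (x : ℤ), md a x = md a (x + L) := by
    intro a x
    rw [md_eq_same]
    exact ⟨-1, by ring⟩
  -- forward distance
  have fwd : ∀ a b : Fin L, ∃ g : ℕ, g < L ∧ b = md a g ∧ a = md b ((L - g : ℕ) : ℤ) := by
    intro a b
    rcases le_or_gt (a : ℕ) (b : ℕ) with hab | hab
    · refine ⟨(b : ℕ) - a, by omega, ?_, ?_⟩
      · have e : (((b : ℕ) - (a : ℕ) : ℕ) : ℤ) = (b : ℤ) - a := by omega
        rw [e]; exact hmd a b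
      · have e : ((L - ((b : ℕ) - (a : ℕ)) : ℕ) : ℤ) = ((a : ℤ) - b) + L := by
          have := b.2
          omega
        rw [e, ← hwrap]; exact hmd b a
    · refine ⟨(b : ℕ) + L - a, by omega, ?_, ?_⟩
      · have e : (((b : ℕ) + L - (a : ℕ) : ℕ) : ℤ) = ((b : ℤ) - a) + L := by
          have := a.2
          omega
        rw [e, ← hwrap]; exact hmd a b
      · have e : ((L - ((b : ℕ) + L - (a : ℕ)) : ℕ) : ℤ) = (a : ℤ) - b := by
          have := a.2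
          omega
        rw [e]; exact hmd b a
  obtain ⟨g, hg, e1, e2⟩ := fwd c1 c2
  rcases le_or_gt (2 * g) L with h1 | h1
  · have := key g c1 h1
    rwa [← e1] at this
  · have := key (L - g) c2 (by omega)
    rw [← e2] at this
    exact this.trans (cm_rev _ _ _)

/-- The arc bound (c) in the form used by `final_U`. -/
theorem arcLowS (S : Set ℕ) : ArcLowS S := by
  obtain ⟨C, D, h⟩ := arc_lower
  refine ⟨max D (C + 3), fun L _ hL => ⟨(C + 1) * L, by nlinarith, ?_, fun a b _ => ?_⟩⟩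
  · have h1 : C + 1 ≤ L ^ (C + 2) := by
      calc C + 1 ≤ 2 ^ (C + 1) := (Nat.lt_two_pow_self).le
        _ ≤ 2 ^ (C + 2) := Nat.pow_le_pow_right (by norm_num) (by omega)
        _ ≤ L ^ (C + 2) := Nat.pow_le_pow_left (by omega) _
    calc (C + 1) * L ≤ L ^ (C + 2) * L := Nat.mul_le_mul h1 le_rfl
      _ = L ^ (C + 3) := (pow_succ _ _).symm
      _ ≤ L ^ max D (C + 3) := Nat.pow_le_pow_right (by omega) (le_max_right _ _)
  · have h1 : ((L : ℝ≥0∞) ^ max D (C + 3))⁻¹ ≤ ((L : ℝ≥0∞) ^ D)⁻¹ := by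
      rw [ENNReal.inv_le_inv]
      exact pow_le_pow_right₀ (by exact_mod_cast (by omega : 1 ≤ L)) (le_max_left _ _)
    exact h1.trans ((h L hL a b).trans (cm_mono (Nat.mul_le_mul (by omega) le_rfl) _ _))

end Pool.Agent.CYL.U
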