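import Pool.Agent.QL.Lift
import Pool.Agent.CYL.D.Def
import Pool.Agent.HHP.Tsum

/-!
# CYL-U (note 3193), step U4 (c): arcs between two top legs of the cylinder. Definitions, projection

`HA g M W`: half arcs of the plane (earliest vertex first): self-avoiding paths from `(0,0)` in the columns `0, ..., M-1`, lateral
coordinate `≥ -W`, which end at their only vertex on the line `z.2 = g`. `AR g M W`: arcs from `(0,0)` to `(-g, 2g)` in the columns
`0, ..., M-1`, lateral coordinate in `[-W, 2g+W]`. `ar_proj`: they project to arcs of the cylinder if `g + W < L`.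
-/

namespace Pool.Agent.CYL.U

open Pool.Agent.Hhelper14.SAW Pool.Agent.HHP Pool.Agent.QL Pool.Agent.BEX
open scoped ENNReal

/-- Half arcs. -/
def HA (g M W : ℕ) (P : List (ℤ × ℤ)) : Prop :=
  (∃ (P0 : List (ℤ × ℤ)) (z : ℤ × ℤ), P = P0 ++ [z] ∧ z.2 = g ∧ ∀ v ∈ P0, v.2 < g) ∧ P.Nodup ∧ P.IsChain Adj ∧ P.head? = some (0, 0) ∧
    ∀ v ∈ P, 0 ≤ F0 v ∧ F0 v < 3 * M ∧ -(W : ℤ) ≤ v.2

/-- Arcs. -/
def AR (g M W : ℕ) (P : List (ℤ × ℤ)) : Prop :=
  P.Nodup ∧ P.IsChain Adj ∧ P.head? = some (0, 0) ∧ P.getLast? = some (-(g : ℤ), 2 * (g : ℤ)) ∧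
    ∀ v ∈ P, hon v ∧ 0 ≤ F0 v ∧ F0 v < 3 * M ∧ -(W : ℤ) ≤ v.2 ∧ v.2 ≤ 2 * g + W

/-- Adjacent vertices project to adjacent vertices. -/
lemma ad_adj {N : ℕ} (i : Fin N) {x y : ℤ × ℤ} (h : Adj x y) : ad (pr i x) (pr i y) := by
  obtain ⟨h1, h2, h3⟩ := h
  have h4 : F0 x % 3 ≠ 2 := by simp only [hon, F0] at *; omega
  have h5 : F0 y % 3 ≠ 2 := by simp only [hon, F0] at *; omega
  obtain ⟨x1, x2⟩ := x
  obtain ⟨y1, y2⟩ := y
  by_cases h6 : F0 (x1, x2) % 3 = 0
  · left
    have := ad1_pr i h6 (e := (y1 - x1, y2 - x2)) (by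
      simp only [U, F0, Prod.mk.injEq, Prod.mk_sub_mk] at *
      omega)
    simpa using this
  · right
    have h7 : F0 (y1, y2) % 3 = 0 := by
      simp only [U, F0, Prod.mk_sub_mk] at *
      omega
    have := ad1_pr i h7 (e := (x1 - y1, x2 - y2)) (by
      simp only [U, F0, Prod.mk.injEq, Prod.mk_sub_mk] at *
      omega)
    simpa using this

/-- The projection is injective on windows. -/
lemma pr_win {N : ℕ} (i : Fin N) {x y : ℤ × ℤ} (hx : hon x) (hy : hon y) (h1 : x.2 - y.2 < 2 * N) (h2 : y.2 - x.2 < 2 * N)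
    (h : pr i x = pr i y) : x = y := by
  have h4 : F0 x % 3 ≠ 2 := by simp only [hon, F0] at *; omega
  have h5 : F0 y % 3 ≠ 2 := by simp only [hon, F0] at *; omega
  simp only [pr, Prod.mk.injEq] at h
  obtain ⟨e1, e2, e3⟩ := h
  have e4 : F0 x = F0 y := by
    by_cases h6 : F0 x % 3 = 0
    · have : F0 y % 3 = 0 := by simpa [h6] using e3.symm
      omega
    · have : ¬ F0 y % 3 = 0 := by simpa [h6] using e3.symm
      omega
  rw [e1, md_eq_same] at e2
  obtain ⟨k, hk⟩ := e2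
  have hN : (0 : ℤ) < N := by exact_mod_cast i.pos
  have h7 : x.2 - y.2 = 2 * (N * k) := by
    simp only [F0] at e4
    linarith
  have hk0 : k = 0 := by
    by_contra hne
    rcases lt_or_gt_of_ne hne with h8 | h8
    · nlinarith
    · nlinarith
  subst hk0
  ext
  · simp only [F0] at e4; linarith
  · linarith

lemma ar_cp {g M W L : ℕ} (hW : g + W < L) (c : Fin L) {P : List (ℤ × ℤ)} (h : AR g M W P) :
    CP M (ut c) (ut (md c g)) (P.map (pr c)) := by
  obtain ⟨h1, h2, h3, h4, h5⟩ := h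
  refine ⟨?_, ?_, ?_, ?_, ?_⟩
  · refine (List.nodup_map_iff_inj_on h1).2 ?_
    intro x hx y hy hxy
    have a1 := h5 x hx
    have a2 := h5 y hy
    exact pr_win c a1.1 a2.1 (by omega) (by omega) hxy
  · rw [List.isChain_map]
    exact h2.imp fun x y h => ad_adj c h
  · intro z hz
    obtain ⟨w, hw, rfl⟩ := List.mem_map.1 hz
    have := h5 w hw
    simp only [pr]
    constructor <;> omega
  · rw [List.head?_map, h3, Option.map_some, pr_o]; rfl
  · rw [List.getLast?_map, h4, Option.map_some]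
    have h6 : F0 (-(g : ℤ), 2 * (g : ℤ)) = 0 := by simp only [F0]; ring
    simp only [pr, h6, ut]
    simp

/-- Arcs of the plane project to arcs of the cylinder. -/
theorem ar_proj {g M W L : ℕ} (hW : g + W < L) (c : Fin L) :
    ∑' P : {P : List (ℤ × ℤ) // AR g M W P}, xE ^ P.1.length ≤ cm M (ut c) (ut (md c g)) := by
  unfold cm
  refine tsum_rel _ _ (fun P l => l.1 = P.1.map (pr c)) ?_ ?_
  · rintro ⟨P, hP⟩
    exact ⟨⟨P.map (pr c), ar_cp hW c hP⟩, rfl, by simp⟩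
  · rintro ⟨P, hP⟩ ⟨P', hP'⟩ ⟨l, hl⟩ h1 h2
    simp only at h1 h2
    refine Subtype.ext ?_
    have h3 : P.map (pr c) = P'.map (pr c) := h1.symm.trans h2
    have hlen : P.length = P'.length := by simpa using congrArg List.length h3
    refine List.ext_getElem hlen fun n a b => ?_
    have h4 := congrArg (fun q => q[n]?) h3
    simp only [List.getElem?_map, List.getElem?_eq_getElem a, List.getElem?_eq_getElem b, Option.map_some,
      Option.some.injEq] at h4
    have a1 := hP.2.2.2.2 _ (List.getElem_mem a)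
    have a2 := hP'.2.2.2.2 _ (List.getElem_mem b)
    exact pr_win c a1.1 a2.1 (by omega) (by omega) h4

/-- Reversal. -/
lemma ad_symm {L : ℕ} {u v : CV L} (h : ad u v) : ad v u := h.symm

theorem cm_rev {L : ℕ} (M : ℕ) (u v : CV L) : cm M u v ≤ cm M v u := by
  unfold cm
  refine tsum_rel _ _ (fun P l => l.1 = P.1.reverse) ?_ ?_
  · rintro ⟨l, h1, h2, h3, h4, h5⟩
    refine ⟨⟨l.reverse, List.nodup_reverse.2 h1, ?_, fun z hz => h3 z (List.mem_reverse.1 hz), ?_, ?_⟩, rfl, by simp⟩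
    · rw [List.isChain_reverse]
      exact h2.imp fun x y h => ad_symm h
    · rw [List.head?_reverse, h5]
    · rw [List.getLast?_reverse, h4]
  · rintro ⟨P, hP⟩ ⟨P', hP'⟩ ⟨l, hl⟩ h1 h2
    exact Subtype.ext (List.reverse_injective (h1.symm.trans h2))

theorem cm_mono {L M M' : ℕ} (h : M ≤ M') (u v : CV L) : cm M u v ≤ cm M' u v := by
  unfold cm
  refine tsum_rel _ _ (fun P l => l.1 = P.1) ?_ ?_
  · rintro ⟨l, h1, h2, h3, h4⟩
    exact ⟨⟨l, h1, h2, fun z hz => ⟨(h3 z hz).1, (h3 z hz).2.trans_le (by exact_mod_cast h)⟩, h4⟩, rfl, le_rfl⟩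
  · rintro ⟨P, hP⟩ ⟨P', hP'⟩ ⟨l, hl⟩ h1 h2
    exact Subtype.ext (h1.symm.trans h2)

end Pool.Agent.CYL.U
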