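import Pool.Agent.CYL.U.ArcA
import Pool.Agent.BEX.Quart

/-!
# CYL-U (note 3193), step U4 (c): two half arcs with the same end give an arc (reflection)
-/

namespace Pool.Agent.CYL.U

open Pool.Agent.Hhelper14.SAW Pool.Agent.HHP Pool.Agent.QL Pool.Agent.BEX
open scoped ENNReal

/-- Mass of the half arcs which end at `z`. -/
noncomputable def hm (g M W : ℕ) (z : ℤ × ℤ) : ℝ≥0∞ :=
  ∑' P : {P : List (ℤ × ℤ) // HA g M W P ∧ P.getLast? = some z}, xE ^ P.1.length

/-- The reflection in the line `z.2 = g`. -/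
def rfg (g : ℕ) (v : ℤ × ℤ) : ℤ × ℤ := (v.1 + v.2 - g, 2 * g - v.2)

lemma rfg_inj {g : ℕ} {x y : ℤ × ℤ} (h : rfg g x = rfg g y) : x = y := by
  simp only [rfg, Prod.mk.injEq] at h
  ext <;> omega

lemma rfg_adj {g : ℕ} {x y : ℤ × ℤ} (h : Adj x y) : Adj (rfg g x) (rfg g y) := by
  obtain ⟨h1, h2, h3⟩ := h
  simp only [Adj, hon, U, rfg, Prod.fst_sub, Prod.snd_sub] at *
  omega

lemma rfg_line {g : ℕ} {z : ℤ × ℤ} (h : z.2 = (g : ℤ)) : rfg g z = z := by
  simp only [rfg]
  ext <;> simp <;> omega

lemma xE_le_one : xE ≤ 1 := by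
  unfold xE
  rw [← ENNReal.ofReal_one]
  refine ENNReal.ofReal_le_ofReal ?_
  unfold xc
  rw [div_le_one mu_pos]
  exact one_le_mu

/-- All the vertices of a path of at least two vertices are vertices of the lattice. -/
lemma hon_of_chain {P : List (ℤ × ℤ)} (hc : P.IsChain Adj) (hh : P.head? = some (0, 0)) : ∀ v ∈ P, hon v := by
  have key : ∀ P : List (ℤ × ℤ), ∀ x, hon x → (x :: P).IsChain Adj → ∀ v ∈ x :: P, hon v := by
    intro P
    induction P with
    | nil =>
      intro x hx _ v hv
      rw [List.mem_singleton] at hv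
      rw [hv]; exact hx
    | cons y P ih =>
      intro x hx hc v hv
      rw [List.isChain_cons_cons] at hc
      rcases List.mem_cons.1 hv with rfl | hv
      · exact hx
      · exact ih y hc.1.2.1 hc.2 v hv
  cases P with
  | nil => simp
  | cons x P =>
    simp only [List.head?_cons, Option.some.injEq] at hh
    subst hh
    exact key P _ (by decide) hc

/-- Gluing. -/
lemma glue {g M W : ℕ} {A B : List (ℤ × ℤ)} {z : ℤ × ℤ} (hz : z.2 = (g : ℤ))
    (hA : ∀ v ∈ A, v.2 < (g : ℤ)) (hB : ∀ v ∈ B, v.2 < (g : ℤ))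
    (h1 : HA g M W (A ++ [z])) (h2 : HA g M W (B ++ [z])) :
    AR g M W (A ++ z :: (B.map (rfg g)).reverse) := by
  obtain ⟨-, n1, c1, s1, w1⟩ := h1
  obtain ⟨-, n2, c2, s2, w2⟩ := h2
  have hchain : (A ++ z :: (B.map (rfg g)).reverse).IsChain Adj := by
    have e : (A ++ z :: (B.map (rfg g)).reverse) = A ++ ((B ++ [z]).map (rfg g)).reverse := by
      simp [rfg_line hz]
    have h3 : (((B ++ [z]).map (rfg g)).reverse).IsChain Adj := by
      rw [List.isChain_reverse, List.isChain_map]
      exact c2.imp fun x y h => (rfg_adj h).symm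
    have h4 : ((B ++ [z]).map (rfg g)).reverse = z :: (B.map (rfg g)).reverse := by
      simp [rfg_line hz]
    rw [h4] at h3
    rw [List.isChain_append] at c1 ⊢
    refine ⟨c1.1, h3, ?_⟩
    intro x hx y hy
    simp only [List.head?_cons, Option.mem_def, Option.some.injEq] at hy
    subst hy
    exact c1.2.2 x hx z (by simp)
  have hhead : (A ++ z :: (B.map (rfg g)).reverse).head? = some (0, 0) := by
    cases A with
    | nil => simpa using s1
    | cons a A => simpa using s1
  refine ⟨?_, hchain, hhead, ?_, ?_⟩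
  · rw [List.nodup_append] at n1 n2 ⊢
    refine ⟨n1.1, ?_, ?_⟩
    · rw [List.nodup_cons]
      refine ⟨?_, ?_⟩
      · intro hm
        rw [List.mem_reverse, List.mem_map] at hm
        obtain ⟨v, hv, hvz⟩ := hm
        have h5 : v = z := rfg_inj (hvz.trans (rfg_line hz).symm)
        have := hB v hv
        rw [h5] at this
        omega
      · rw [List.nodup_reverse]
        exact n2.1.map fun x y h => rfg_inj h
    · intro x hx y hy hxy
      subst hxy
      have h5 := hA x hx
      rcases List.mem_cons.1 hy with rfl | hy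
      · omega
      · rw [List.mem_reverse, List.mem_map] at hy
        obtain ⟨v, hv, rfl⟩ := hy
        have := hB v hv
        simp only [rfg] at h5
        omega
  · cases B with
    | nil =>
      simp only [List.nil_append, List.head?_cons, Option.some.injEq] at s2
      subst s2
      have : g = 0 := by
        have h5 : (0 : ℤ) = g := hz
        exact_mod_cast h5.symm
      subst this
      simp
    | cons b B =>
      simp only [List.cons_append, List.head?_cons, Option.some.injEq] at s2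
      subst s2
      rw [List.map_cons, List.reverse_cons, ← List.cons_append, ← List.append_assoc, List.getLast?_concat]
      simp [rfg]
  · intro v hv
    have hh := hon_of_chain hchain hhead v hv
    rcases List.mem_append.1 hv with hv | hv
    · have := w1 v (List.mem_append_left _ hv)
      have := hA v hv
      exact ⟨hh, by omega, by omega, by omega, by omega⟩
    · rcases List.mem_cons.1 hv with rfl | hv
      · have := w1 v (by simp)
        exact ⟨hh, by omega, by omega, by omega, by omega⟩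
      · rw [List.mem_reverse, List.mem_map] at hv
        obtain ⟨u, hu, rfl⟩ := hv
        have := w2 u (List.mem_append_left _ hu)
        have := hB u hu
        simp only [F0, rfg] at *
        exact ⟨hh, by omega, by omega, by omega, by omega⟩

/-- Uniqueness of the middle vertex. -/
lemma split_uniq {g : ℕ} {A A' B B' : List (ℤ × ℤ)} {z z' : ℤ × ℤ} (hz : z.2 = (g : ℤ)) (hz' : z'.2 = (g : ℤ))
    (hA : ∀ v ∈ A, v.2 < (g : ℤ)) (hA' : ∀ v ∈ A', v.2 < (g : ℤ)) (h : A ++ z :: B = A' ++ z' :: B') :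
    A = A' ∧ z = z' ∧ B = B' := by
  induction A generalizing A' with
  | nil =>
    cases A' with
    | nil => simpa using h
    | cons a A' =>
      simp only [List.nil_append, List.cons_append, List.cons.injEq] at h
      have := hA' a (by simp)
      rw [← h.1] at this
      omega
  | cons b A ih =>
    cases A' with
    | nil =>
      simp only [List.nil_append, List.cons_append, List.cons.injEq] at h
      have := hA b (by simp)
      rw [h.1] at this
      omega
    | cons a A' =>
      simp only [List.cons_append, List.cons.injEq] at h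
      obtain ⟨h1, h2⟩ := h
      obtain ⟨e1, e2, e3⟩ := ih (fun v hv => hA v (by simp [hv])) (fun v hv => hA' v (by simp [hv])) h2
      exact ⟨by rw [h1, e1], e2, e3⟩

/-- Two half arcs with the same end give an arc. -/
theorem hm_sq_le (g M W : ℕ) (z : ℤ × ℤ) :
    hm g M W z ^ 2 ≤ ∑' P : {P : List (ℤ × ℤ) // AR g M W P}, xE ^ P.1.length := by
  have h0 : hm g M W z ^ 2 = ∑' q : {P : List (ℤ × ℤ) // HA g M W P ∧ P.getLast? = some z} ×
      {P : List (ℤ × ℤ) // HA g M W P ∧ P.getLast? = some z}, xE ^ q.1.1.length * xE ^ q.2.1.length := by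
    have h1 := ENNReal.tsum_prod (f := fun (p q : {P : List (ℤ × ℤ) // HA g M W P ∧ P.getLast? = some z}) =>
      xE ^ p.1.length * xE ^ q.1.length)
    rw [sq]
    unfold hm
    rw [h1, ← ENNReal.tsum_mul_right]
    exact tsum_congr fun P => (ENNReal.tsum_mul_left).symm
  rw [h0]
  refine tsum_rel _ _ (fun q Q => ∃ A B : List (ℤ × ℤ), q.1.1 = A ++ [z] ∧ q.2.1 = B ++ [z] ∧
    z.2 = (g : ℤ) ∧ (∀ v ∈ A, v.2 < (g : ℤ)) ∧ (∀ v ∈ B, v.2 < (g : ℤ)) ∧
    Q.1 = A ++ z :: (B.map (rfg g)).reverse) ?_ ?_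
  · rintro ⟨⟨P, hP, hPl⟩, ⟨P', hP', hPl'⟩⟩
    have hP2 := hP
    have hP2' := hP'
    obtain ⟨⟨A, x, rfl, hx, hA⟩, -⟩ := hP
    obtain ⟨⟨B, y, rfl, hy, hB⟩, -⟩ := hP'
    rw [List.getLast?_concat, Option.some.injEq] at hPl hPl'
    subst hPl
    subst hPl'
    refine ⟨⟨_, glue hx hA hB hP2 hP2'⟩, ⟨A, B, rfl, rfl, hx, hA, hB, rfl⟩, ?_⟩
    simp only [List.length_append, List.length_cons, List.length_nil, List.length_reverse, List.length_map]
    rw [← pow_add]
    exact pow_le_pow_right_of_le_one' xE_le_one (by omega)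
  · rintro ⟨⟨P, hP⟩, ⟨P', hP'⟩⟩ ⟨⟨P1, hP1⟩, ⟨P1', hP1'⟩⟩ ⟨Q, hQ⟩ ⟨A, B, e1, e2, e3, e4, e5, e6⟩ ⟨A1, B1, f1, f2, f3, f4, f5, f6⟩
    simp only at e1 e2 e6 f1 f2 f6
    obtain ⟨g1, -, g3⟩ := split_uniq e3 f3 e4 f4 (e6.symm.trans f6)
    have g4 : B = B1 := List.map_injective_iff.2 (fun x y h => rfg_inj h) (List.reverse_injective g3)
    subst g1
    subst g4
    simp only [Prod.mk.injEq, Subtype.mk.injEq]
    exact ⟨e1.trans f1.symm, e2.trans f2.symm⟩

end Pool.Agent.CYL.U
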