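import Pool.Agent.CYL.U.ArcB
import Pool.Agent.CYL.U.G
import Pool.Agent.HHP.Geo
import Pool.Agent.BEX.F.Tr

/-!
# CYL-U (note 3193), step U4 (c): cutting a word at its first vertex on the line `z.2 = g`

`cut_mass`: words in the columns `0, ..., M-1` with at most `T` turns, lateral coordinate `≥ -W`, which end at lateral coordinate `≥ g`
have mass at most (mass of the half arcs) times `(T + 3) ^ D`. `ha_le`: mass of the half arcs against the mass of the arcs.
-/

namespace Pool.Agent.CYL.U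

open Pool.Agent.Hhelper14.SAW Pool.Agent.HHP Pool.Agent.QL Pool.Agent.BEX
open scoped ENNReal

/-- The vertices of a word form a path. -/
lemma vs_adj (W : List Bool) : ∀ z d : ℤ × ℤ, Gd z d → (vs z d W).IsChain Adj := by
  induction W with
  | nil => intro z d _; simp [vs]
  | cons b W ih =>
    intro z d h
    have h1 := ih _ _ (h.step b)
    rw [vs]
    have h2 : ∃ r, vs (z + tn b d) (tn b d) W = (z + tn b d) :: r := by cases W <;> exact ⟨_, rfl⟩
    obtain ⟨r, hr⟩ := h2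
    rw [hr] at h1 ⊢
    rw [List.isChain_cons_cons]
    refine ⟨?_, h1⟩
    have hU : U d := by
      rcases h with ⟨-, rfl | rfl | rfl⟩ | ⟨-, rfl | rfl | rfl⟩ <;> decide
    refine ⟨?_, ?_, ?_⟩
    · rw [hon_iff]
      rcases h with ⟨h, -⟩ | ⟨h, -⟩ <;> omega
    · rw [hon_iff]
      have := (h.step b).res
      omega
    · have e : z - (z + tn b d) = -tn b d := by ring
      rw [e]
      apply U.neg
      cases b
      · exact hU.R
      · exact hU.L

lemma V_adj (W : List Bool) : (V W).IsChain Adj := vs_adj W _ _ gd_o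

/-- Steps change the lateral coordinate by at most one. -/
lemma adj_snd {x y : ℤ × ℤ} (h : Adj x y) : x.2 - y.2 ≤ 1 ∧ y.2 - x.2 ≤ 1 := by
  obtain ⟨-, -, h⟩ := h
  simp only [U, Prod.fst_sub, Prod.snd_sub] at h
  omega

/-- First vertex on the line `z.2 = g`. -/
lemma first_line (g : ℤ) (P : List (ℤ × ℤ)) : ∀ x : ℤ × ℤ, x.2 ≤ g → (x :: P).IsChain Adj →
    (∃ v ∈ x :: P, g ≤ v.2) → ∃ (A : List (ℤ × ℤ)) (z : ℤ × ℤ) (B : List (ℤ × ℤ)), x :: P = A ++ z :: B ∧ z.2 = g ∧ ∀ v ∈ A, v.2 < g := by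
  induction P with
  | nil =>
    intro x hx _ hv
    obtain ⟨v, hv, hv2⟩ := hv
    rw [List.mem_singleton] at hv
    subst hv
    exact ⟨[], v, [], rfl, by omega, by simp⟩
  | cons y P ih =>
    intro x hx hc hv
    by_cases h : x.2 = g
    · exact ⟨[], x, y :: P, rfl, h, by simp⟩
    · have hc' := List.isChain_cons_cons.1 hc
      have h1 := adj_snd hc'.1
      obtain ⟨v, hv, hv2⟩ := hv
      have hv' : v ∈ y :: P := by
        rcases List.mem_cons.1 hv with rfl | hv
        · omega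
        · exact hv
      obtain ⟨A, z, B, e1, e2, e3⟩ := ih y (by omega) hc'.2 ⟨v, hv', hv2⟩
      refine ⟨x :: A, z, B, by rw [e1]; rfl, e2, ?_⟩
      intro u hu
      rcases List.mem_cons.1 hu with rfl | hu
      · omega
      · exact e3 u hu

/-- Normalisation of a path from an arbitrary vertex to a walk from `o`. -/
lemma walk_of' {z : ℤ × ℤ} {B : List (ℤ × ℤ)} (hz : hon z) (h1 : (z :: B).Nodup) (h2 : (z :: B).IsChain Adj) :
    IsWalk B.length (((z :: B).map (rv (if F0 z % 3 = 0 then 0 else 1) z)).reverse) := by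
  refine ⟨by simp, ?_, ?_, ?_⟩
  · rw [List.nodup_reverse]
    exact h1.map fun x y h => rv_inj h
  · unfold HChain
    rw [List.isChain_reverse, List.isChain_map]
    refine h2.imp fun x y h => (rv_adj ?_ h).symm
    rw [hon_iff] at hz
    by_cases h3 : F0 z % 3 = 0
    · rw [if_pos h3]
      simp only [F0] at *
      norm_num
      omega
    · rw [if_neg h3]
      simp only [F0] at *
      norm_num
      omega
  · rw [List.getLast?_reverse, List.map_cons, List.head?_cons, rv_self]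

/-- Sum of the masses of the walks with less than `T` steps. -/
noncomputable def aT (T : ℕ) : ℝ≥0∞ := ∑ n ∈ Finset.range T, (an n : ℝ≥0∞) * xE ^ n

/-- Cutting at the line. -/
theorem cut_mass {g M W T : ℕ} (S : Set (List Bool))
    (hS : ∀ w ∈ S, (V w).Nodup ∧ (∀ z ∈ V w, 0 ≤ F0 z ∧ F0 z < 3 * M ∧ -(W : ℤ) ≤ z.2) ∧ (∃ v ∈ V w, (g : ℤ) ≤ v.2) ∧ w.length < T) :
    ∑' w : S, xE ^ (w.1.length + 1) ≤ (∑' P : {P : List (ℤ × ℤ) // HA g M W P}, xE ^ P.1.length) * aT T := by
  have h0 : (∑' P : {P : List (ℤ × ℤ) // HA g M W P}, xE ^ P.1.length) * aT T =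
      ∑' q : {P : List (ℤ × ℤ) // HA g M W P} × ((n : Fin T) × {P : List (ℤ × ℤ) // IsWalk n P}),
        xE ^ q.1.1.length * xE ^ (q.2.1 : ℕ) := by
    have h1 := ENNReal.tsum_prod (f := fun (p : {P : List (ℤ × ℤ) // HA g M W P})
      (q : (n : Fin T) × {P : List (ℤ × ℤ) // IsWalk n P}) => xE ^ p.1.length * xE ^ (q.1 : ℕ))
    rw [h1, ← ENNReal.tsum_mul_right]
    refine tsum_congr fun P => ?_
    rw [ENNReal.tsum_mul_left]
    congr 1
    unfold aT
    rw [ENNReal.tsum_sigma', tsum_fintype, Finset.sum_range]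
    refine Finset.sum_congr rfl fun n _ => ?_
    have h0 : ∑' b : {P : List (ℤ × ℤ) // IsWalk n P}, xE ^ ((⟨n, b⟩ : (n : Fin T) ×
        {P : List (ℤ × ℤ) // IsWalk n P}).1 : ℕ) = ∑' _b : {P : List (ℤ × ℤ) // IsWalk n P}, xE ^ (n : ℕ) := rfl
    rw [h0, ENNReal.tsum_const]
    congr 1
    have h2 : ENat.card {P : List (ℤ × ℤ) // IsWalk n P} = (an n : ℕ∞) := by
      have h3 := (walk_fin (n : ℕ)).cast_ncard_eq
      unfold an
      rw [h3]
      rfl
    rw [h2]
    simp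
  rw [h0]
  refine tsum_rel _ _ (fun w q => ∃ (A : List (ℤ × ℤ)) (z : ℤ × ℤ) (B : List (ℤ × ℤ)), V w.1 = A ++ z :: B ∧ q.1.1 = A ++ [z] ∧
    q.2.2.1 = ((z :: B).map (rv (if F0 z % 3 = 0 then 0 else 1) z)).reverse) ?_ ?_
  · rintro ⟨w, hw⟩
    obtain ⟨h1, h2, h3, h4⟩ := hS w hw
    have hc := V_adj w
    have hh : (V w).head? = some (0, 0) := vs_head? _ _ _
    have hlen : (V w).length = w.length + 1 := vs_length _ _ _
    obtain ⟨P, hP⟩ : ∃ P, V w = (0, 0) :: P := by
      cases hV : V w with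
      | nil => rw [hV] at hh; simp at hh
      | cons x P =>
        rw [hV] at hh
        simp only [List.head?_cons, Option.some.injEq] at hh
        exact ⟨P, by rw [hh]⟩
    obtain ⟨A, z, B, e1, e2, e3⟩ := first_line (g : ℤ) P (0, 0) (by simp) (by rw [← hP]; exact hc) (by rw [← hP]; exact h3)
    rw [← hP] at e1
    have hon := hon_of_chain hc hh
    rw [e1] at h1 hc hlen
    have hz : Pool.Agent.Hhelper14.SAW.hon z := hon z (by rw [e1]; simp)
    have n2 : (z :: B).Nodup := (List.nodup_append.1 h1).2.1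
    have c2 : (z :: B).IsChain Adj := (List.isChain_append.1 hc).2.1
    have hlen' : A.length + (B.length + 1) = w.length + 1 := by simpa using hlen
    have hsub : A ++ z :: B = (A ++ [z]) ++ B := by simp
    refine ⟨⟨⟨A ++ [z], ⟨A, z, rfl, e2, e3⟩, ?_, ?_, ?_, ?_⟩, ⟨⟨B.length, by omega⟩, ⟨_, walk_of' hz n2 c2⟩⟩⟩,
      ⟨A, z, B, e1, rfl, rfl⟩, ?_⟩
    · rw [hsub] at h1
      exact (List.nodup_append.1 h1).1
    · rw [hsub] at hc
      exact (List.isChain_append.1 hc).1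
    · rw [e1] at hh
      cases A with
      | nil => simpa using hh
      | cons a A => simpa using hh
    · intro v hv
      exact h2 v (by rw [e1, hsub]; exact List.mem_append_left _ hv)
    · simp only [List.length_append, List.length_cons, List.length_nil]
      rw [← pow_add]
      exact le_of_eq (by congr 1; omega)
  · rintro ⟨w, hw⟩ ⟨w', hw'⟩ ⟨⟨P, hP⟩, ⟨n, ⟨Q, hQ⟩⟩⟩ ⟨A, z, B, e1, e2, e3⟩ ⟨A', z', B', f1, f2, f3⟩
    simp only at e1 e2 e3 f1 f2 f3
    have h5 : A ++ [z] = A' ++ [z'] := e2.symm.trans f2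
    obtain ⟨h6, h7⟩ := List.append_inj' h5 rfl
    simp only [List.cons.injEq, and_true] at h7
    subst h6
    subst h7
    have h8 : z :: B = z :: B' :=
      List.map_injective_iff.2 (fun x y h => rv_inj h) (List.reverse_injective (e3.symm.trans f3))
    refine Subtype.ext ?_
    simp only
    have h9 : V w = V w' := by rw [e1, f1, h8]
    refine toL_inj ?_
    unfold toL
    rw [h9]

/-- Mass of the half arcs against the mass of the arcs. -/
theorem ha_le (g M W : ℕ) :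
    (∑' P : {P : List (ℤ × ℤ) // HA g M W P}, xE ^ P.1.length) ^ 2 ≤
      ((g + 3 * M + 1 : ℕ) : ℝ≥0∞) ^ 2 * ∑' P : {P : List (ℤ × ℤ) // AR g M W P}, xE ^ P.1.length := by
  classical
  set S : Finset ℤ := Finset.Icc (-(g : ℤ)) (3 * M) with hS
  have hcard : S.card = g + 3 * M + 1 := by
    rw [hS, Int.card_Icc]
    omega
  have h1 : ∑' P : {P : List (ℤ × ℤ) // HA g M W P}, xE ^ P.1.length ≤ ∑ x ∈ S, hm g M W (x, (g : ℤ)) := by
    have h2 : ∑ x ∈ S, hm g M W (x, (g : ℤ)) =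
        ∑' q : (x : S) × {P : List (ℤ × ℤ) // HA g M W P ∧ P.getLast? = some (x.1, (g : ℤ))}, xE ^ q.2.1.length := by
      rw [ENNReal.tsum_sigma', tsum_fintype, ← Finset.sum_coe_sort]
      rfl
    rw [h2]
    refine tsum_rel _ _ (fun P q => q.2.1 = P.1) ?_ ?_
    · rintro ⟨P, hP⟩
      have hP' := hP
      obtain ⟨⟨A, z, rfl, hz, hA⟩, -, -, -, hw⟩ := hP
      have h3 := hw z (by simp)
      have h4 : z.1 ∈ S := by
        rw [hS, Finset.mem_Icc]
        simp only [F0] at h3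
        omega
      have h5 : z = (z.1, (g : ℤ)) := by ext <;> simp [hz]
      exact ⟨⟨⟨z.1, h4⟩, ⟨A ++ [z], hP', by rw [List.getLast?_concat]; exact congrArg some h5⟩⟩, rfl, le_rfl⟩
    · rintro ⟨P, hP⟩ ⟨P', hP'⟩ q h3 h4
      exact Subtype.ext (h3.symm.trans h4)
  have hne : S.Nonempty := ⟨0, by rw [hS, Finset.mem_Icc]; omega⟩
  obtain ⟨x0, hx0, hmax⟩ := Finset.exists_max_image S (fun x => hm g M W (x, (g : ℤ))) hne
  have h2 : ∑ x ∈ S, hm g M W (x, (g : ℤ)) ≤ ((g + 3 * M + 1 : ℕ) : ℝ≥0∞) * hm g M W (x0, (g : ℤ)) := by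
    have := Finset.sum_le_card_nsmul S _ _ hmax
    rwa [hcard, nsmul_eq_mul] at this
  calc _ ≤ (((g + 3 * M + 1 : ℕ) : ℝ≥0∞) * hm g M W (x0, (g : ℤ))) ^ 2 := pow_le_pow_left' (h1.trans h2) 2
    _ = ((g + 3 * M + 1 : ℕ) : ℝ≥0∞) ^ 2 * hm g M W (x0, (g : ℤ)) ^ 2 := mul_pow _ _ _
    _ ≤ _ := mul_le_mul' le_rfl (hm_sq_le g M W _)

end Pool.Agent.CYL.U
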