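import Pool.Agent.CYL.U.ArcC
import Pool.Agent.PLY.G.Flat
import Pool.Agent.PLY.Main

/-!
# CYL-U (note 3193), step U4 (c): lower bound for the mass of the half arcs

Words in the tube of slope `1` (30 degrees off the axis) of height `N ≥ 5 g / 4` end beyond the line `z.2 = g`; cut them at the line
(`cut_mass`); for small `g` the zigzag in the column `0`.
-/

namespace Pool.Agent.CYL.U

open Pool.Agent.Hhelper14.SAW Pool.Agent.HHP Pool.Agent.HEP Pool.Agent.QL Pool.Agent.BEX Pool.Agent.PLY.G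
open scoped ENNReal

/-- The masses of the walks grow at most polynomially. -/
theorem aT_le (hA : AnUp) : ∃ D : ℕ, ∀ T : ℕ, aT T ≤ ((T + 2 : ℕ) : ℝ≥0∞) ^ D := by
  obtain ⟨C, hC, h⟩ := hA
  set k := ⌈C⌉₊ with hk
  have hk1 : C ≤ k := Nat.le_ceil C
  have hk0 : 1 ≤ k := Nat.ceil_pos.2 hC
  refine ⟨2 * k + 2, fun T => ?_⟩
  have hterm : ∀ n ∈ Finset.range T, (an n : ℝ≥0∞) * xE ^ n ≤ ((k * T ^ k + 1 : ℕ) : ℝ≥0∞) := by
    intro n hn
    rw [Finset.mem_range] at hn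
    have hreal : (an n : ℝ) * xc ^ n ≤ k * (T : ℝ) ^ k + 1 := by
      rcases Nat.eq_zero_or_pos n with rfl | hn0
      · have : an 0 = 1 := by
          unfold an
          have : {P : List (ℤ × ℤ) | IsWalk 0 P} = {[o]} := by
            ext P
            simp only [Set.mem_ofPred_eq, Set.mem_singleton_iff]
            constructor
            · rintro ⟨h1, -, -, h4⟩
              rcases P with _ | ⟨a, _ | ⟨b, P⟩⟩
              · simp at h1
              · simpa using h4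
              · simp at h1
            · rintro rfl
              exact ⟨rfl, by simp, by simp [HChain], rfl⟩
          rw [this, Set.ncard_singleton]
        rw [this]
        have : (0 : ℝ) ≤ k * (T : ℝ) ^ k := by positivity
        simp only [Nat.cast_one, one_mul, pow_zero]
        linarith
      · have h1 := h n hn0
        have hmun : xc ^ n * mu ^ n = 1 := by
          rw [← mul_pow, xc, one_div_mul_cancel mu_pos.ne', one_pow]
        have h2 : (n : ℝ) ^ C ≤ (T : ℝ) ^ k := by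
          have h3 : (1 : ℝ) ≤ n := by exact_mod_cast hn0
          calc (n : ℝ) ^ C ≤ (n : ℝ) ^ (k : ℝ) := Real.rpow_le_rpow_of_exponent_le h3 hk1
            _ = (n : ℝ) ^ k := Real.rpow_natCast _ _
            _ ≤ (T : ℝ) ^ k := by
                apply pow_le_pow_left₀ (by linarith)
                exact_mod_cast hn.le
        calc (an n : ℝ) * xc ^ n ≤ (C * (n : ℝ) ^ C * mu ^ n) * xc ^ n :=
              mul_le_mul_of_nonneg_right h1 (pow_nonneg xc_pos.le _)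
          _ = C * (n : ℝ) ^ C * (xc ^ n * mu ^ n) := by ring
          _ = C * (n : ℝ) ^ C := by rw [hmun, mul_one]
          _ ≤ k * (T : ℝ) ^ k := by
              apply mul_le_mul hk1 h2 (by positivity) (by positivity)
          _ ≤ _ := by linarith
    have h2 : (an n : ℝ≥0∞) * xE ^ n = ENNReal.ofReal ((an n : ℝ) * xc ^ n) := by
      rw [ENNReal.ofReal_mul (by positivity), ENNReal.ofReal_natCast, ENNReal.ofReal_pow xc_pos.le]
      rfl
    rw [h2]
    refine (ENNReal.ofReal_le_ofReal hreal).trans (le_of_eq ?_)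
    rw [← ENNReal.ofReal_natCast]
    congr 1
    push_cast
    ring
  refine (Finset.sum_le_card_nsmul _ _ _ hterm).trans ?_
  rw [Finset.card_range, nsmul_eq_mul]
  norm_cast
  have e1 : k ≤ (T + 2) ^ k := (Nat.lt_two_pow_self).le.trans (Nat.pow_le_pow_left (by omega) k)
  have e3 : T ^ k ≤ (T + 2) ^ k := Nat.pow_le_pow_left (by omega) k
  have e4 : k * T ^ k + 1 ≤ (T + 2) ^ (2 * k) * (T + 2) := by
    have h1 : k * T ^ k ≤ (T + 2) ^ k * (T + 2) ^ k := Nat.mul_le_mul e1 e3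
    have h2 : (T + 2) ^ k * (T + 2) ^ k = (T + 2) ^ (2 * k) := by rw [← pow_add]; congr 1; ring
    have h3 : 1 ≤ (T + 2) ^ (2 * k) := Nat.one_le_pow _ _ (by omega)
    nlinarith
  calc T * (k * T ^ k + 1) ≤ (T + 2) * ((T + 2) ^ (2 * k) * (T + 2)) := Nat.mul_le_mul (by omega) e4
    _ = (T + 2) ^ (2 * k + 2) := by ring

/-- The zigzag. -/
def zz (n : ℕ) : ℤ × ℤ := (-((n / 2 : ℕ) : ℤ), (n : ℤ))

lemma zz_HA (g M W : ℕ) (hM : 1 ≤ M) : HA g M W ((List.range (g + 1)).map zz) := by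
  have hF : ∀ n, 0 ≤ F0 (zz n) ∧ F0 (zz n) ≤ 1 := by
    intro n
    simp only [F0, zz]
    omega
  refine ⟨⟨(List.range g).map zz, zz g, by rw [List.range_succ, List.map_append]; rfl, rfl, ?_⟩, ?_, ?_, ?_, ?_⟩
  · intro v hv
    obtain ⟨n, hn, rfl⟩ := List.mem_map.1 hv
    rw [List.mem_range] at hn
    simp only [zz]
    exact_mod_cast hn
  · refine List.nodup_range.map ?_
    intro a b hab
    have := congrArg Prod.snd hab
    simpa [zz] using this
  · rw [List.isChain_map, List.isChain_range_succ]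
    intro m _
    simp only [Adj, hon, U, zz, Prod.fst_sub, Prod.snd_sub]
    omega
  · rw [List.range_succ_eq_map]; simp [zz]
  · intro v hv
    obtain ⟨n, hn, rfl⟩ := List.mem_map.1 hv
    have := hF n
    refine ⟨by omega, by omega, ?_⟩
    simp only [zz]
    omega

/-- The tube of slope `1`. -/
lemma tube_blk : ∃ (c : ℝ≥0∞) (n0 : ℕ), 0 < c ∧ ∀ N : ℕ, n0 ≤ N → ∃ X : Set (List Blk),
    (∀ l ∈ X, N ≤ hj l ∧ (hj l : ℝ) ≤ (1 + 1 / 10) * N ∧ hsI.toAlph.tub wdb 1 (1 / 10 * N) l) ∧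
      c ≤ ∑' l : List Blk, ind (l ∈ X) * wj l := by
  obtain ⟨c, n0, hc, h⟩ := tube_all hsI_quarter 1 (1 / 10) (by norm_num)
  refine ⟨c, n0, hc, fun N hN => ?_⟩
  obtain ⟨X, -, h2, h3⟩ := h N hN
  exact ⟨X, h2, h3⟩

/-- The tube words as turn words. -/
theorem tube_cut : ∃ (c : ℝ≥0∞) (n0 : ℕ), 0 < c ∧ ∀ g : ℕ, n0 ≤ g → 1 ≤ g →
    c ≤ (∑' P : {P : List (ℤ × ℤ) // HA g (2 * g + 2) (g / 8 + 1) P}, xE ^ P.1.length) * aT ((6 * ((5 * g + 3) / 4) + 1) ^ 2 + 1) := by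
  classical
  obtain ⟨c, n0, hc, h⟩ := tube_blk
  refine ⟨c, n0, hc, fun g hg hg1 => ?_⟩
  set N : ℕ := (5 * g + 3) / 4 with hN
  have hN1 : 5 * g ≤ 4 * N := by omega
  have hN2 : 4 * N ≤ 5 * g + 3 := by omega
  obtain ⟨X, hX2, hX3⟩ := h N (by omega)
  have hX2' : ∀ l ∈ X, l ≠ [] ∧ (N ≤ hj l ∧ 10 * hj l ≤ 11 * N) ∧ hsI.toAlph.tub wdb 1 (1 / 10 * N) l := by
    intro l hl
    obtain ⟨a1', a2', a3⟩ := hX2 l hl
    refine ⟨?_, ⟨a1', ?_⟩, a3⟩
    · rintro rfl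
      rw [hj_nil] at a1'
      omega
    · have : (10 * hj l : ℝ) ≤ 11 * N := by linarith
      exact_mod_cast this
  set S : Set (List Bool) := jn '' X with hS
  have h1 : ∑' l : List Blk, ind (l ∈ X) * wj l ≤ ∑' w : S, xE ^ (w.1.length + 1) := by
    have e : ∑' l : List Blk, ind (l ∈ X) * wj l = ∑' l : X, wj l.1 := by
      rw [tsum_subtype X (fun l => wj l)]
      refine tsum_congr fun l => ?_
      by_cases hl : l ∈ X
      · rw [ind_true hl, one_mul, Set.indicator_of_mem hl]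
      · rw [ind_false hl, zero_mul, Set.indicator_of_notMem hl]
    rw [e]
    refine tsum_rel _ _ (fun l w => w.1 = jn l.1) ?_ ?_
    · rintro ⟨l, hl⟩
      exact ⟨⟨jn l, l, hl, rfl⟩, rfl, (jn_length (hX2' l hl).1).le⟩
    · rintro ⟨l, hl⟩ ⟨l', hl'⟩ w h3 h4
      exact Subtype.ext (jn_inj (hX2' l hl).1 (hX2' l' hl').1 (h3.symm.trans h4))
  refine le_trans (le_trans hX3 h1) ?_
  refine cut_mass S ?_
  rintro w ⟨l, hl, rfl⟩
  obtain ⟨a1, ⟨a2, a3⟩, a4⟩ := hX2' l hl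
  have hIn := jn_In a1
  have hv : ∀ z ∈ V (jn l), (0 ≤ F0 z ∧ 10 * F0 z < 33 * N) ∧ (30 * z.2 ≤ 10 * F0 z + 3 * N ∧ 10 * F0 z ≤ 30 * z.2 + 3 * N) := by
    intro z hz
    have b1 := hIn.2 z hz
    have b2 := tube_V a1 a4 hz
    have b3 := hj_pos a1
    rw [abs_le] at b2
    have b4 : (F0 z : ℝ) * 10 ≤ 30 * z.2 + 3 * N := by linarith [b2.1]
    have b5 : (30 : ℝ) * z.2 ≤ 10 * F0 z + 3 * N := by linarith [b2.2]
    have b6 : F0 z * 10 ≤ 30 * z.2 + 3 * (N : ℤ) := by exact_mod_cast b4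
    have b7 : 30 * z.2 ≤ 10 * F0 z + 3 * (N : ℤ) := by exact_mod_cast b5
    refine ⟨⟨b1.1, ?_⟩, b7, by linarith⟩
    have : ((hj l - 1 : ℕ) : ℤ) = (hj l : ℤ) - 1 := by omega
    have b8 := b1.2
    rw [this] at b8
    omega
  refine ⟨hIn.1, ?_, ⟨E (jn l), E_mem _, ?_⟩, ?_⟩
  · intro z hz
    have := hv z hz
    refine ⟨this.1.1, ?_, ?_⟩
    · push_cast
      omega
    · push_cast
      omega
  · have b2 := tube_E (by positivity) a4
    rw [jn_E a1]
    rw [abs_le] at b2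
    have b3 : (10 : ℝ) * hj l ≤ 10 * xj l + N := by linarith [b2.1]
    have b4 : 10 * (hj l : ℤ) ≤ 10 * xj l + (N : ℤ) := by exact_mod_cast b3
    omega
  · have hlen : (V (jn l)).length = (jn l).length + 1 := vs_length _ _ _
    have hcard : (V (jn l)).length ≤ (6 * N + 1) ^ 2 := by
      rw [← List.toFinset_card_of_nodup hIn.1]
      have hsub : (V (jn l)).toFinset ⊆ (Finset.Icc (-(3 * N : ℤ)) (3 * N)) ×ˢ (Finset.Icc (-(3 * N : ℤ)) (3 * N)) := by
        intro z hz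
        have := hv z (List.mem_toFinset.1 hz)
        rw [Finset.mem_product, Finset.mem_Icc, Finset.mem_Icc]
        simp only [F0] at this
        refine ⟨⟨?_, ?_⟩, ?_, ?_⟩ <;> omega
      refine (Finset.card_le_card hsub).trans (le_of_eq ?_)
      rw [Finset.card_product, Int.card_Icc]
      have : ((3 * (N : ℤ) + 1 - -(3 * N : ℤ))).toNat = 6 * N + 1 := by omega
      rw [this, sq]
    omega

/-- Lower bound for the half arcs. -/
theorem ha_lower (hA : AnUp) : ∃ (c : ℝ≥0∞) (D : ℕ), 0 < c ∧ ∀ g : ℕ,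
    c ≤ (∑' P : {P : List (ℤ × ℤ) // HA g (2 * g + 2) (g / 8 + 1) P}, xE ^ P.1.length) * ((g + 2 : ℕ) : ℝ≥0∞) ^ D := by
  obtain ⟨D, hD⟩ := aT_le hA
  obtain ⟨c, n0, hc, h⟩ := tube_cut
  have hx : 0 < xE := by
    unfold xE
    exact ENNReal.ofReal_pos.2 xc_pos
  refine ⟨min c (xE ^ (n0 + 2)), 9 * D, lt_min hc (ENNReal.pow_pos hx _), fun g => ?_⟩
  by_cases hg : n0 ≤ g ∧ 1 ≤ g
  · refine (min_le_left _ _).trans ((h g hg.1 hg.2).trans (mul_le_mul' le_rfl ((hD _).trans ?_)))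
    rw [pow_mul]
    refine pow_le_pow_left' ?_ D
    have h1 : (6 * ((5 * g + 3) / 4) + 1) ^ 2 + 1 + 2 ≤ (g + 2) ^ 9 := by
      have h2 : 6 * ((5 * g + 3) / 4) + 1 ≤ 8 * (g + 2) := by omega
      have h3 : (6 * ((5 * g + 3) / 4) + 1) ^ 2 ≤ (8 * (g + 2)) ^ 2 := Nat.pow_le_pow_left h2 2
      have h4 : 2 ^ 7 ≤ (g + 2) ^ 7 := Nat.pow_le_pow_left (by omega) 7
      have h5 : 1 ≤ (g + 2) ^ 2 := Nat.one_le_pow _ _ (by omega)
      calc (6 * ((5 * g + 3) / 4) + 1) ^ 2 + 1 + 2 ≤ 2 ^ 7 * (g + 2) ^ 2 := by nlinarith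
        _ ≤ (g + 2) ^ 7 * (g + 2) ^ 2 := Nat.mul_le_mul h4 le_rfl
        _ = (g + 2) ^ 9 := by ring
    exact_mod_cast h1
  · have hg2 : g ≤ n0 := by omega
    have h1 : xE ^ (g + 1) ≤ ∑' P : {P : List (ℤ × ℤ) // HA g (2 * g + 2) (g / 8 + 1) P}, xE ^ P.1.length := by
      refine le_trans ?_ (ENNReal.le_tsum ⟨_, zz_HA g (2 * g + 2) (g / 8 + 1) (by omega)⟩)
      simp
    have h2 : (1 : ℝ≥0∞) ≤ ((g + 2 : ℕ) : ℝ≥0∞) ^ (9 * D) := by
      have : 1 ≤ (g + 2) ^ (9 * D) := Nat.one_le_pow _ _ (by omega)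
      exact_mod_cast this
    calc min c (xE ^ (n0 + 2)) ≤ xE ^ (n0 + 2) := min_le_right _ _
      _ ≤ xE ^ (g + 1) := pow_le_pow_right_of_le_one' xE_le_one (by omega)
      _ = xE ^ (g + 1) * 1 := (mul_one _).symm
      _ ≤ _ := mul_le_mul' h1 h2

end Pool.Agent.CYL.U
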