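import Pool.Agent.CYL.U.Sup

/-!
# CYL-U (c), part 1: heights and reflections of the cylinder

`hu t z`: height of the vertex `z` above the line `t`, mod `2 L`. `rx t`: the reflection in the line `t`.
-/

namespace Pool.Agent.CYL.U

open Pool.Agent.Hhelper14.SAW Pool.Agent.HHP Pool.Agent.QL Pool.Agent.BEX
open scoped ENNReal

variable {L : ℕ}

/-- `0` for `P1`, `1` for `P2`. -/
def ty (b : Bool) : ℤ := if b then 0 else 1

/-- Height above the line `t`, mod `2 L`. -/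
def hu (t : ℤ) (z : CV L) : ℤ := (2 * (z.2.1 : ℤ) + z.1 + ty z.2.2 - t) % (2 * L)

/-- The reflection in the line `t`. -/
def rx (t : ℤ) (z : CV L) : CV L := (z.1, md z.2.1 (t - z.1 - ty z.2.2 - 2 * z.2.1), z.2.2)

/-- The side `A`. -/
def sA (t : ℤ) (z : CV L) : Prop := 0 < hu t z ∧ hu t z < L

/-- The lines. -/
def ln (t : ℤ) (z : CV L) : Prop := hu t z = 0 ∨ hu t z = L

instance (t : ℤ) : DecidablePred (sA (L := L) t) := fun z => by unfold sA; infer_instance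

lemma two_md (j : Fin L) (x : ℤ) : 2 * ((md j x : ℕ) : ℤ) ≡ 2 * ((j : ℤ) + x) [ZMOD (2 * L)] := by
  rw [md_val, ← Int.mul_emod_mul_of_pos _ _ (by norm_num : (0 : ℤ) < 2)]
  exact Int.mod_modEq _ _

lemma hu_cong {t : ℤ} {z w : CV L} {d : ℤ}
    (h : 2 * (w.2.1 : ℤ) + w.1 + ty w.2.2 ≡ 2 * (z.2.1 : ℤ) + z.1 + ty z.2.2 + d [ZMOD (2 * L)]) :
    hu t w = (hu t z + d) % (2 * L) := by
  unfold hu
  rw [Int.emod_add_emod]
  have h1 : 2 * (w.2.1 : ℤ) + w.1 + ty w.2.2 - t ≡ 2 * (z.2.1 : ℤ) + z.1 + ty z.2.2 - t + d [ZMOD (2 * L)] := by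
    have h2 := h.sub_right t
    have e : 2 * (z.2.1 : ℤ) + z.1 + ty z.2.2 + d - t = 2 * (z.2.1 : ℤ) + z.1 + ty z.2.2 - t + d := by ring
    rwa [e] at h2
  exact h1

lemma hu_ad1 {u v : CV L} (h : ad1 u v) : ∃ d : ℤ, -1 ≤ d ∧ d ≤ 1 ∧
    2 * (v.2.1 : ℤ) + v.1 + ty v.2.2 ≡ 2 * (u.2.1 : ℤ) + u.1 + ty u.2.2 + d [ZMOD (2 * L)] := by
  obtain ⟨n, k, b⟩ := u
  obtain ⟨n', k', b'⟩ := v
  obtain ⟨h1, h2, h3⟩ := h
  simp only at h1 h2 h3
  subst h1 h2
  rcases h3 with ⟨rfl, rfl⟩ | ⟨rfl, rfl⟩ | ⟨rfl, rfl⟩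
  · exact ⟨1, by norm_num, by norm_num, by simp only [ty]; norm_num⟩
  · refine ⟨-1, by norm_num, by norm_num, ?_⟩
    simp only [ty, if_true, Bool.false_eq_true, if_false]
    have h4 := ((two_md k' 1).add_right (n' + 0 + -1)).symm
    have e1 : 2 * ((k' : ℤ) + 1) + (n' + 0 + -1) = 2 * (k' : ℤ) + n' + 1 := by ring
    have e2 : 2 * ((md k' 1 : ℕ) : ℤ) + (n' + 0 + -1) = 2 * ((md k' 1 : ℕ) : ℤ) + n' + 0 + -1 := by ring
    rwa [e1, e2] at h4
  · refine ⟨0, by norm_num, by norm_num, ?_⟩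
    simp only [ty, if_true, Bool.false_eq_true, if_false]
    have e : 2 * (k' : ℤ) + (n - 1) + 1 = 2 * (k' : ℤ) + n + 0 + 0 := by ring
    rw [e]

lemma hu_ad {t : ℤ} {u v : CV L} (h : ad u v) : ∃ d : ℤ, -1 ≤ d ∧ d ≤ 1 ∧ hu t v = (hu t u + d) % (2 * L) := by
  rcases h with h | h
  · obtain ⟨d, h1, h2, h3⟩ := hu_ad1 h
    exact ⟨d, h1, h2, hu_cong h3⟩
  · obtain ⟨d, h1, h2, h3⟩ := hu_ad1 h
    refine ⟨-d, by omega, by omega, hu_cong ?_⟩
    have h4 := (h3.add_right (-d)).symm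
    have e : 2 * (v.2.1 : ℤ) + v.1 + ty v.2.2 + d + -d = 2 * (v.2.1 : ℤ) + v.1 + ty v.2.2 := by ring
    rwa [e] at h4

/-- A step which leaves `A` ends on the lines. -/
lemma leave {t : ℤ} {u v : CV L} (h : ad u v) (hu1 : sA t u) (hv : ¬ sA t v) : ln t v := by
  obtain ⟨d, h1, h2, h3⟩ := hu_ad (t := t) h
  obtain ⟨h4, h5⟩ := hu1
  have h6 : (hu t u + d) % (2 * L) = hu t u + d := Int.emod_eq_of_lt (by omega) (by omega)
  rw [h6] at h3
  unfold sA at hv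
  unfold ln
  omega

/-! ### The reflection -/

lemma rx_row (t : ℤ) (z : CV L) : (rx t z).1 = z.1 := rfl

lemma md_congr {j k : Fin L} {x y : ℤ} (h : (j : ℤ) + x = k + y) : md j x = md k y := by
  rw [md_eq, h]

lemma md_mul (j : Fin L) (x q : ℤ) : md j (x + L * q) = md j x := by
  rw [md_eq_same]
  exact ⟨q, by ring⟩

/-- `md (md j x) (y - 2 * md j x)`: the reflected index. -/
lemma md_refl (j : Fin L) (x y : ℤ) : md (md j x) (y - 2 * ((md j x : ℕ) : ℤ)) = md j (y - 2 * j - x) := by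
  rw [md_md, md_val]
  have h1 := Int.mul_ediv_add_emod ((j : ℤ) + x) L
  have e : x + (y - 2 * (((j : ℤ) + x) % L)) = (y - 2 * j - x) + L * (2 * (((j : ℤ) + x) / L)) := by
    linarith
  rw [e, md_mul]

lemma rx_rx (t : ℤ) (z : CV L) : rx t (rx t z) = z := by
  obtain ⟨n, j, b⟩ := z
  simp only [rx]
  refine Prod.ext rfl (Prod.ext ?_ rfl)
  simp only
  rw [md_refl]
  have e : t - n - ty b - 2 * (j : ℤ) - (t - n - ty b - 2 * j) = 0 := by ring
  rw [e, md_zero]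

lemma rx_inj (t : ℤ) : Function.Injective (rx (L := L) t) := by
  intro u v h
  rw [← rx_rx t u, h, rx_rx]

lemma ad1_rx {t : ℤ} {u v : CV L} (h : ad1 u v) : ad1 (rx t u) (rx t v) := by
  obtain ⟨n, k, b⟩ := u
  obtain ⟨n', k', b'⟩ := v
  obtain ⟨h1, h2, h3⟩ := h
  simp only at h1 h2 h3
  subst h1 h2
  refine ⟨rfl, rfl, ?_⟩
  simp only [rx, ty, if_true, Bool.false_eq_true, if_false]
  rcases h3 with ⟨rfl, rfl⟩ | ⟨rfl, rfl⟩ | ⟨rfl, rfl⟩
  · right; left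
    refine ⟨rfl, ?_⟩
    rw [md_md]
    congr 1
    ring
  · left
    refine ⟨rfl, ?_⟩
    rw [md_refl]
    congr 1
    ring
  · right; right
    refine ⟨rfl, ?_⟩
    congr 1
    ring

lemma ad_rx {t : ℤ} {u v : CV L} (h : ad u v) : ad (rx t u) (rx t v) := h.imp ad1_rx ad1_rx

/-- The height of the reflected vertex. -/
lemma hu_rx (t : ℤ) (z : CV L) : hu t (rx t z) = (-(hu t z)) % (2 * L) := by
  obtain ⟨n, j, b⟩ := z
  simp only [hu, rx]
  have h1 := two_md j (t - n - ty b - 2 * (j : ℤ))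
  have h2 := h1.add_right (n + ty b - t)
  have h3 : 2 * ((j : ℤ) + (t - n - ty b - 2 * j)) + (n + ty b - t) = -(2 * (j : ℤ) + n + ty b - t) := by ring
  rw [h3] at h2
  have h4 : -((2 * (j : ℤ) + n + ty b - t) % (2 * L)) ≡ -(2 * (j : ℤ) + n + ty b - t) [ZMOD (2 * L)] :=
    (Int.mod_modEq _ _).neg
  have h5 := h2.trans h4.symm
  have e : 2 * ((md j (t - n - ty b - 2 * (j : ℤ)) : ℕ) : ℤ) + (n + ty b - t) =
      2 * ((md j (t - n - ty b - 2 * (j : ℤ)) : ℕ) : ℤ) + n + ty b - t := by ring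
  rw [e] at h5
  exact h5

/-- The reflection of `A` is disjoint from `A` and from the lines. -/
lemma rx_side {t : ℤ} {z : CV L} (h : sA t z) : (L : ℤ) < hu t (rx t z) := by
  obtain ⟨h1, h2⟩ := h
  rw [hu_rx]
  have : (-(hu t z)) % (2 * L) = 2 * L - hu t z := by
    rw [← Int.add_emod_right]
    have e : -(hu t z) + 2 * (L : ℤ) = 2 * L - hu t z := by ring
    rw [e]
    exact Int.emod_eq_of_lt (by omega) (by omega)
  omega

/-- The lines are fixed. -/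
lemma rx_ln {t : ℤ} {z : CV L} (h : ln t z) : rx t z = z := by
  obtain ⟨n, j, b⟩ := z
  have hd : (L : ℤ) ∣ 2 * (j : ℤ) + n + ty b - t := by
    have h1 : (2 * (j : ℤ) + n + ty b - t) % (2 * L) = 0 ∨ (2 * (j : ℤ) + n + ty b - t) % (2 * L) = L := h
    have h2 := Int.mul_ediv_add_emod (2 * (j : ℤ) + n + ty b - t) (2 * L)
    rcases h1 with h1 | h1
    · rw [h1] at h2
      exact ⟨2 * ((2 * (j : ℤ) + n + ty b - t) / (2 * L)), by linarith⟩
    · rw [h1] at h2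
      exact ⟨2 * ((2 * (j : ℤ) + n + ty b - t) / (2 * L)) + 1, by linarith⟩
  simp only [rx]
  refine Prod.ext rfl (Prod.ext ?_ rfl)
  simp only
  obtain ⟨q, hq⟩ := hd
  have e : t - n - ty b - 2 * (j : ℤ) = 0 + L * (-q) := by linarith
  rw [e, md_mul, md_zero]

lemma rx_ut (a b : Fin L) : rx ((a : ℤ) + b) (ut a) = ut b := by
  simp only [rx, ut, ty, if_true]
  refine Prod.ext rfl (Prod.ext ?_ rfl)
  simp only
  have e : md a ((a : ℤ) + b - 0 - 0 - 2 * a) = md b 0 := md_congr (by ring)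
  rw [e, md_zero]

lemma hu_ut {a b : Fin L} (h : b < a) : sA ((a : ℤ) + b) (ut a) := by
  unfold sA
  have h1 : hu ((a : ℤ) + b) (ut a) = (a : ℤ) - b := by
    simp only [hu, ut, ty, if_true]
    have e : 2 * (a : ℤ) + 0 + 0 - (a + b) = a - b := by ring
    rw [e]
    have h2 : (b : ℕ) < a := h
    have h3 := a.2
    exact Int.emod_eq_of_lt (by omega) (by omega)
  rw [h1]
  have h2 : (b : ℕ) < a := h
  have h3 := a.2
  omega

lemma rx_ub (t : ℤ) (N : ℕ) (c : Fin L) : ∃ c', rx t (ub N c) = ub N c' := ⟨_, rfl⟩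

theorem CP_rx {N : ℕ} (t : ℤ) {u v : CV L} {g : List (CV L)} (h : CP N u v g) :
    CP N (rx t u) (rx t v) (g.map (rx t)) := by
  obtain ⟨a1, a2, a3, a4, a5⟩ := h
  refine ⟨a1.map (rx_inj _), ?_, ?_, ?_, ?_⟩
  · rw [List.isChain_map]
    exact a2.imp fun _ _ h => ad_rx h
  · intro z hz
    obtain ⟨w, hw, rfl⟩ := List.mem_map.1 hz
    exact a3 w hw
  · rw [List.head?_map, a4, Option.map_some]
  · rw [List.getLast?_map, a5, Option.map_some]

end Pool.Agent.CYL.U
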