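import Pool.Agent.CYL.D.B.Bd

set_option autoImplicit false

/-!
# CYL-U (c) (B): the path along the row `0` between two top vertices
-/

namespace Pool.Agent.CYL.U

open Pool.Agent.Hhelper14.SAW Pool.Agent.HHP Pool.Agent.QL Pool.Agent.BEX
open scoped ENNReal

namespace ArcT

variable {L : ℕ}

/-- The path `P1(0,a), P2(0,a), P1(0,a+1), .., P1(0,a+n)`. -/
def rp : ℕ → Fin L → List (CV L)
  | 0, a => [((0 : ℤ), a, true)]
  | n + 1, a => ((0 : ℤ), a, true) :: ((0 : ℤ), a, false) :: rp n (md a 1)

theorem rp_length (n : ℕ) (a : Fin L) : (rp n a).length = 2 * n + 1 := by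
  induction n generalizing a with
  | zero => rfl
  | succ n ih =>
    simp only [rp, List.length_cons, ih]
    ring

theorem rp_mem {n : ℕ} {a : Fin L} {z : CV L} (h : z ∈ rp n a) : z.1 = 0 ∧ ∃ k : ℕ, k ≤ n ∧ z.2.1 = md a k := by
  induction n generalizing a with
  | zero =>
    simp only [rp, List.mem_singleton] at h
    subst h
    exact ⟨rfl, 0, le_rfl, by simp [md_zero]⟩
  | succ n ih =>
    simp only [rp, List.mem_cons] at h
    rcases h with rfl | rfl | h
    · exact ⟨rfl, 0, Nat.zero_le _, by simp [md_zero]⟩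
    · exact ⟨rfl, 0, Nat.zero_le _, by simp [md_zero]⟩
    · obtain ⟨h1, k, hk, h2⟩ := ih h
      refine ⟨h1, k + 1, by omega, ?_⟩
      rw [h2, md_md]
      congr 1
      push_cast
      ring

theorem rp_nodup {n : ℕ} (hn : n < L) (a : Fin L) : (rp n a).Nodup := by
  induction n generalizing a with
  | zero => simp [rp]
  | succ n ih =>
    have key : ∀ b : Bool, ((0 : ℤ), a, b) ∉ rp n (md a 1) := by
      intro b hb
      obtain ⟨-, k, hk, h2⟩ := rp_mem hb
      rw [md_md] at h2
      have h3 : md a 0 = md a (1 + (k : ℤ)) := by rw [md_zero]; exact h2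
      rw [md_eq_same] at h3
      obtain ⟨c, hc⟩ := h3
      have h4 : (0 : ℤ) < 1 + k := by positivity
      have h5 : (1 : ℤ) + k < L := by
        have : (k : ℤ) ≤ n := by exact_mod_cast hk
        have : ((n + 1 : ℕ) : ℤ) < L := by exact_mod_cast hn
        push_cast at this
        linarith
      have h6 : (L : ℤ) * c < 0 := by linarith
      have h7 : c < 0 := by
        by_contra hc'
        have : 0 ≤ (L : ℤ) * c := mul_nonneg (by positivity) (not_lt.1 hc')
        linarith
      have h8 : (L : ℤ) * c ≤ (L : ℤ) * (-1) := mul_le_mul_of_nonneg_left (by omega) (by positivity)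
      linarith
    simp only [rp, List.nodup_cons, List.mem_cons, not_or]
    exact ⟨⟨by simp, key true⟩, key false, ih (by omega) _⟩

theorem rp_head (n : ℕ) (a : Fin L) : (rp n a).head? = some ((0 : ℤ), a, true) := by
  cases n <;> rfl

theorem rp_ne (n : ℕ) (a : Fin L) : rp n a ≠ [] := by
  cases n <;> simp [rp]

theorem rp_last (n : ℕ) (a : Fin L) : (rp n a).getLast? = some ((0 : ℤ), md a n, true) := by
  induction n generalizing a with
  | zero => simp [rp, md_zero]
  | succ n ih =>
    simp only [rp]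
    rw [List.getLast?_cons_cons, List.getLast?_cons_of_ne_nil (rp_ne n _), ih, md_md]
    congr 3
    push_cast
    ring_nf

theorem rp_chain (n : ℕ) (a : Fin L) : (rp n a).IsChain QL.ad := by
  induction n generalizing a with
  | zero => simp [rp]
  | succ n ih =>
    simp only [rp]
    rw [List.isChain_cons_cons]
    refine ⟨Or.inl ⟨rfl, rfl, Or.inl ⟨rfl, rfl⟩⟩, ?_⟩
    rw [List.isChain_cons]
    refine ⟨fun y hy => ?_, ih _⟩
    rw [rp_head, Option.mem_some_iff] at hy
    subst hy
    exact Or.inr ⟨rfl, rfl, Or.inr (Or.inl ⟨rfl, rfl⟩)⟩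

end ArcT

open ArcT

/-- The mass between two different top vertices is at least `x ^ (2 L + 1)`. -/
theorem arc_row {L : ℕ} (hL : 2 ≤ L) {M : ℕ} (hM : 1 ≤ M) {a b : Fin L} (_hab : a ≠ b) :
    xE ^ (2 * L + 1) ≤ cm M (ut a) (ut b) := by
  have hLp : (0 : ℤ) < L := by positivity
  obtain ⟨d, hd⟩ : ∃ d : ℕ, (d : ℤ) = ((b : ℤ) - a) % L :=
    ⟨(((b : ℤ) - a) % L).toNat, Int.toNat_of_nonneg (Int.emod_nonneg _ hLp.ne')⟩
  have hdL : d < L := by
    have := Int.emod_lt_of_pos ((b : ℤ) - a) hLp
    rw [← hd] at this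
    exact_mod_cast this
  have hb : md a d = b := by
    apply md_ext
    rw [md_val, hd, Int.add_emod_emod]
    have h1 : (a : ℤ) + ((b : ℤ) - a) = b := by ring
    rw [h1]
    exact Int.emod_eq_of_lt (by positivity) (by exact_mod_cast b.isLt)
  have hcp : CP M (ut a) (ut b) (rp d a) := by
    refine ⟨rp_nodup hdL a, rp_chain d a, fun z hz => ?_, rp_head d a, ?_⟩
    · rw [(rp_mem hz).1]
      exact ⟨le_rfl, by exact_mod_cast hM⟩
    · rw [rp_last, hb]
      rfl
  have h1 := ENNReal.le_tsum (f := fun l : {l : List (CV L) // CP M (ut a) (ut b) l} => xE ^ l.1.length) ⟨_, hcp⟩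
  refine le_trans ?_ h1
  simp only [rp_length]
  exact pow_le_pow_right_of_le_one' xE_le (by omega)

end Pool.Agent.CYL.U
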