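import Pool.Agent.CYL.U.Sub

/-!
# CYL-U: lower bound of `Zc` by its growth rate, free and fixed starts
-/

namespace Pool.Agent.CYL.U

open Pool.Agent.Hhelper14.SAW Pool.Agent.HHP Pool.Agent.QL Pool.Agent.BEX
open scoped ENNReal Topology
open Filter

variable {L l : ℕ}

/-! ### Lower bounds by the growth rates -/

/-- **(U2)**, real form. -/
theorem Zc_ge_rate {D : ℕ} (hD : ∀ (L M : ℕ) (u : CV L), gm M u ≤ ((L * M + 2 : ℕ) : ℝ≥0∞) ^ D)
    (hl : l = 1 ∨ l = 2) (hlL : l ≤ L) {lg : ℝ}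
    (hZ : Tendsto (fun N : ℕ => Real.log (Zc L l N).toReal / N) atTop (𝓝 lg)) {N : ℕ} (hN : 1 ≤ N) :
    lg * N ≤ Real.log (Zc L l N).toReal + (l * (D + 1) : ℕ) * (Real.log (L * N + 2) + 2 * Real.log 2) := by
  refine fek (f := fun n => Real.log (Zc L l n).toReal) (by positivity) L (fun n hn => ?_) hZ hN
  set Y : ℝ := L * (2 * n) + 2 with hY
  have hY2 : 2 ≤ Y := by
    have : (0 : ℝ) ≤ L * (2 * n) := by positivity
    linarith
  have h1 := Zc_sub (L := L) (l := l) hn hn (G := ((L * (n + n) + 2 : ℕ) : ℝ≥0∞) ^ D) (hD L (n + n))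
  have h2 : (1 + ((L * (n + n) + 2 : ℕ) : ℝ≥0∞) ^ D) ≤ ((L * (n + n) + 2 : ℕ) : ℝ≥0∞) ^ (D + 1) := by
    have h3 : 1 + (L * (n + n) + 2) ^ D ≤ (L * (n + n) + 2) ^ (D + 1) := by
      have h4 : 1 ≤ (L * (n + n) + 2) ^ D := Nat.one_le_pow _ _ (by omega)
      calc 1 + (L * (n + n) + 2) ^ D ≤ (L * (n + n) + 2) ^ D * 2 := by omega
        _ ≤ (L * (n + n) + 2) ^ D * (L * (n + n) + 2) := Nat.mul_le_mul_left _ (by omega)
        _ = _ := (pow_succ _ _).symm
    exact_mod_cast h3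
  have h3 : Zc L l (n + n) ≤ Zc L l n * (((L * (n + n) + 2 : ℕ) : ℝ≥0∞) ^ (D + 1)) ^ l * Zc L l n := by
    refine h1.trans ?_
    gcongr
  have hfin := Zc_ne_top (L := L) hl n
  have h4 := ENNReal.toReal_mono (ENNReal.mul_ne_top (ENNReal.mul_ne_top hfin
    (ENNReal.pow_ne_top (ENNReal.pow_ne_top (ENNReal.natCast_ne_top _)))) hfin) h3
  rw [ENNReal.toReal_mul, ENNReal.toReal_mul, ENNReal.toReal_pow, ENNReal.toReal_pow, ENNReal.toReal_natCast] at h4
  have hpos := Zc_real_pos hl hlL hn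
  have hpos2 := Zc_real_pos hl hlL (by omega : 1 ≤ n + n)
  have hYe : ((L * (n + n) + 2 : ℕ) : ℝ) = Y := by
    rw [hY]; push_cast; ring
  rw [hYe] at h4
  have h5 := Real.log_le_log hpos2 h4
  rw [Real.log_mul (by positivity) hpos.ne', Real.log_mul hpos.ne' (by positivity), Real.log_pow, Real.log_pow] at h5
  have h6 : (2 * n : ℕ) = n + n := by ring
  simp only [h6]
  push_cast at h5 ⊢
  nlinarith

/-! ### One path: free start and fixed start -/

/-- The rotation of the starts. -/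
def rcE (t : ℤ) : (Fin l → Fin L) ≃ (Fin l → Fin L) where
  toFun := rc t
  invFun := rc (-t)
  left_inv c := by rw [rc_rc, add_neg_cancel, rc_zero]
  right_inv c := by rw [rc_rc, neg_add_cancel, rc_zero]

lemma sum_fm_rot (N : ℕ) (t : ℤ) (c : Fin l → Fin L) :
    ∑ e : Fin l → Fin L, fm N (rc t c) e = ∑ e : Fin l → Fin L, fm N c e := by
  rw [← (rcE (L := L) (l := l) t).sum_comp]
  exact Finset.sum_congr rfl fun e _ => fm_rot N t c e

lemma Zc_one_eq (N : ℕ) (c : Fin L) : Zc L 1 N = L * ∑ e : Fin L, cm N (ub N c) (ut e) := by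
  have e1 : ∀ c : Fin L, ∑ e : Fin 1 → Fin L, fm N (fun _ : Fin 1 => c) e = ∑ e : Fin L, cm N (ub N c) (ut e) := by
    intro c
    rw [← (Equiv.funUnique (Fin 1) (Fin L)).symm.sum_comp]
    refine Finset.sum_congr rfl fun e _ => ?_
    rw [fm_one]
    rfl
  rw [Zc_one]
  have h1 : ∀ a : Fin L, ∑ b : Fin L, cm N (ub N a) (ut b) = ∑ e : Fin L, cm N (ub N c) (ut e) := by
    intro a
    rw [← e1, ← e1, ← sum_fm_rot N ((a : ℤ) - c) (fun _ : Fin 1 => c)]
    congr 1
    funext e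
    congr 1
    funext k
    simp only [rc]
    symm
    apply md_ext
    rw [md_val]
    have : (c : ℤ) + (a - c) = a := by ring
    rw [this]
    exact Int.emod_eq_of_lt (by positivity) (by exact_mod_cast a.2)
  rw [Finset.sum_congr rfl fun a _ => h1 a, Finset.sum_const, Finset.card_univ, Fintype.card_fin, nsmul_eq_mul]

end Pool.Agent.CYL.U
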