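import Pool.Agent.CYL.U.Sup
import Pool.Agent.CYL.D.Same

/-!
# CYL-U (a): rerooting

An arc of the half cylinder below the bottom circle of a pair of disjoint crossing paths of `N` rows joins them to one
path; cut at its first vertex in its lowest row it is a pair of crossing paths from the same vertex:
`xE * ∑_(c injective) cm M (ut (c 0)) (ut (c 1)) * ∑_e fm N c e ≤ ∑_(m < M) ∑_j vm (N + m + 1) j`.
-/

namespace Pool.Agent.CYL.U

open Pool.Agent.Hhelper14.SAW Pool.Agent.HHP Pool.Agent.QL Pool.Agent.BEX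
open scoped ENNReal

variable {L : ℕ}

/-- Neighbours of a vertex `P1`. -/
lemma nbr_true {n : ℤ} {j : Fin L} {z : CV L} (h : ad ((n, j, true) : CV L) z) :
    z.2.2 = false ∧ (z.1 = n ∨ z = (n - 1, j, false)) := by
  obtain ⟨n', j', b'⟩ := z
  rcases h with h | h
  · obtain ⟨-, h2, h3⟩ := h
    simp only at h2 h3
    subst h2
    refine ⟨rfl, ?_⟩
    rcases h3 with ⟨h3, -⟩ | ⟨h3, -⟩ | ⟨h3, h4⟩
    · exact Or.inl h3
    · exact Or.inl h3
    · right; rw [h3, h4]
  · exact absurd h.2.1 (by simp)

/-- The lowest row of an arc contains a vertex `P2`. -/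
lemma low_false {M : ℕ} {a b : Fin L} (hab : a ≠ b) {l : List (CV L)} (h : CP M (ut a) (ut b) l) :
    ∃ (m : ℕ) (j : Fin L), m < M ∧ ((m : ℤ), j, false) ∈ l ∧ ∀ z ∈ l, z.1 ≤ m := by
  classical
  obtain ⟨h1, h2, h3, h4, h5⟩ := h
  have hne : l ≠ [] := by rintro rfl; simp at h4
  obtain ⟨z, hz, hmax⟩ := l.toFinset.exists_max_image (fun z => z.1) ⟨ut a, List.mem_toFinset.2 (List.mem_of_mem_head? h4)⟩
  rw [List.mem_toFinset] at hz
  have hmax' : ∀ w ∈ l, w.1 ≤ z.1 := fun w hw => hmax w (List.mem_toFinset.2 hw)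
  obtain ⟨m, hm⟩ : ∃ m : ℕ, z.1 = m := ⟨z.1.toNat, (Int.toNat_of_nonneg (h3 z hz).1).symm⟩
  have hmM : m < M := by
    have := (h3 z hz).2
    rw [hm] at this
    exact_mod_cast this
  suffices hk : ∃ w ∈ l, w.1 = m ∧ w.2.2 = false by
    obtain ⟨⟨n, j, b'⟩, hw, h6, h7⟩ := hk
    simp only at h6 h7
    subst h6 h7
    exact ⟨m, j, hmM, hw, fun w hw' => hm ▸ hmax' w hw'⟩
  obtain ⟨n, j, b'⟩ := z
  simp only at hm
  subst hm
  cases b' with
  | false => exact ⟨_, hz, rfl, rfl⟩
  | true =>
    by_cases e1 : l.head? = some ((m : ℤ), j, true)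
    · -- the first vertex
      rcases l with _ | ⟨x, _ | ⟨y, r⟩⟩
      · exact absurd rfl hne
      · simp only [List.head?_cons, List.getLast?_singleton, Option.some.injEq] at h4 h5
        rw [h4] at h5
        exfalso
        apply hab
        simpa [ut] using h5
      · have hx : x = ((m : ℤ), j, true) := by simpa using e1
        subst hx
        have h6 := nbr_true (List.isChain_cons_cons.1 h2).1
        refine ⟨y, by simp, ?_, h6.1⟩
        rcases h6.2 with h7 | h7
        · exact h7
        · exfalso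
          have h8 : ((m : ℤ), j, true) = (ut a : CV L) := by simpa using h4
          have h9 : (m : ℤ) = 0 := congrArg (fun w : CV L => w.1) h8
          have h10 := (h3 y (by simp)).1
          rw [h7] at h10
          simp only at h10
          omega
    · by_cases e2 : l.getLast? = some ((m : ℤ), j, true)
      · -- the last vertex
        obtain ⟨r, rfl⟩ : ∃ r, l = r ++ [((m : ℤ), j, true)] := by
          rcases List.eq_nil_or_concat l with rfl | ⟨r, x, rfl⟩
          · exact absurd rfl hne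
          · refine ⟨r, ?_⟩
            simp only [List.concat_eq_append, List.getLast?_append, List.getLast?_singleton, Option.some_or,
              Option.some.injEq] at e2
            rw [List.concat_eq_append, e2]
        rcases List.eq_nil_or_concat r with rfl | ⟨r', y, rfl⟩
        · simp at e1
        · have h6 : ad y ((m : ℤ), j, true) := by
            have : ((r' ++ [y]) ++ [((m : ℤ), j, true)]).IsChain ad := by simpa using h2
            rw [List.isChain_append] at this
            exact this.2.2 y (by simp) _ (by simp)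
          have h7 := nbr_true h6.symm
          refine ⟨y, by simp, ?_, h7.1⟩
          rcases h7.2 with h8 | h8
          · exact h8
          · exfalso
            have h9 : ((m : ℤ), j, true) = (ut b : CV L) := by
              rw [e2] at h5
              simpa using h5
            have h10 : (m : ℤ) = 0 := congrArg (fun w : CV L => w.1) h9
            have h11 := (h3 y (by simp)).1
            rw [h8] at h11
            simp only at h11
            omega
      · obtain ⟨l1, s, t, l2, rfl, hs, ht⟩ := Same.inner h2 hz e1 e2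
        have h6 := nbr_true hs.symm
        have h7 := nbr_true ht
        have hst : s ≠ t := by
          simp only [List.nodup_append, List.nodup_cons, List.mem_cons, not_or] at h1
          exact h1.2.1.1.2.1
        rcases h6.2 with h8 | h8
        · exact ⟨s, by simp, h8, h6.1⟩
        · rcases h7.2 with h9 | h9
          · exact ⟨t, by simp, h9, h7.1⟩
          · exact absurd (h8.trans h9.symm) hst

/-- The joined path. -/
def jn (N : ℕ) (g0 a g1 : List (CV L)) : List (CV L) := g0.reverse ++ (a.map (sh N) ++ g1)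

/-- The parts are determined by the joined path. -/
lemma jn_inj {N : ℕ} {g0 a g1 g0' a' g1' : List (CV L)} (h0 : ∀ z ∈ g0, z.1 < N) (h0' : ∀ z ∈ g0', z.1 < N)
    (ha : ∀ z ∈ a, 0 ≤ z.1) (ha' : ∀ z ∈ a', 0 ≤ z.1) (hne : a ≠ []) (hne' : a' ≠ [])
    (h1 : ∀ z ∈ g1, z.1 < N) (h1' : ∀ z ∈ g1', z.1 < N) (h : jn N g0 a g1 = jn N g0' a' g1') :
    g0 = g0' ∧ a = a' ∧ g1 = g1' := by
  have key : ∀ (g0 a g1 : List (CV L)), (∀ z ∈ g0, z.1 < N) → (∀ z ∈ a, 0 ≤ z.1) → a ≠ [] →
      (jn N g0 a g1).takeWhile (fun z => decide (z.1 < (N : ℤ))) = g0.reverse := by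
    intro g0 a g1 h0 ha hne
    unfold jn
    rw [List.takeWhile_append_of_pos (by
      intro z hz
      have := h0 z (List.mem_reverse.1 hz)
      simpa using this)]
    obtain ⟨x, r, rfl⟩ := List.exists_cons_of_ne_nil hne
    have hx := ha x (by simp)
    rw [List.map_cons, List.cons_append, List.takeWhile_cons_of_neg, List.append_nil]
    simp only [sh, decide_eq_true_eq]
    omega
  have k1 := key g0 a g1 h0 ha hne
  have k2 := key g0' a' g1' h0' ha' hne'
  rw [h, k2] at k1
  have e0 : g0 = g0' := (List.reverse_injective k1).symm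
  subst e0
  unfold jn at h
  have h2 := List.append_cancel_left h
  have h3 := cat_inj (M := N) ha ha' h1 h1' h2
  exact ⟨rfl, h3.1, h3.2⟩

lemma jn_CP {N m : ℕ} {c0 c1 e0 e1 : Fin L} {g0 a g1 : List (CV L)} (h0 : CP N (ub N c0) (ut e0) g0)
    (h1 : CP N (ub N c1) (ut e1) g1) (hd : List.Disjoint g0 g1) {M : ℕ} (ha : CP M (ut c0) (ut c1) a)
    (hm : ∀ z ∈ a, z.1 ≤ m) : CP (N + m + 1) (ut e0) (ut e1) (jn N g0 a g1) := by
  obtain ⟨a1, a2, a3, a4, a5⟩ := h0
  obtain ⟨b1, b2, b3, b4, b5⟩ := h1
  obtain ⟨d1, d2, d3, d4, d5⟩ := ha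
  unfold jn
  refine ⟨?_, ?_, ?_, ?_, ?_⟩
  · rw [List.nodup_append]
    refine ⟨List.nodup_reverse.2 a1, ?_, ?_⟩
    · rw [List.nodup_append]
      refine ⟨d1.map (sh_inj _), b1, ?_⟩
      rintro z hz w hw rfl
      obtain ⟨y, hy, rfl⟩ := List.mem_map.1 hz
      have h3 := (d3 y hy).1
      have h4 := (b3 _ hw).2
      simp only [sh] at h4
      omega
    · rintro z hz w hw rfl
      rcases List.mem_append.1 hw with hw | hw
      · obtain ⟨y, hy, rfl⟩ := List.mem_map.1 hw
        have h3 := (d3 y hy).1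
        have h4 := (a3 _ (List.mem_reverse.1 hz)).2
        simp only [sh] at h4
        omega
      · exact hd (List.mem_reverse.1 hz) hw
  · rw [List.isChain_append]
    refine ⟨?_, ?_, ?_⟩
    · rw [List.isChain_reverse]
      exact a2.imp fun _ _ h => h.symm
    · rw [List.isChain_append]
      refine ⟨?_, b2, ?_⟩
      · rw [List.isChain_map]
        exact d2.imp fun _ _ h => ad_sh h
      · intro x hx y hy
        rw [List.getLast?_map, d5] at hx
        rw [b4] at hy
        simp only [Option.map_some, Option.mem_some_iff] at hx hy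
        subst hx hy
        exact ad_join N c1
    · intro x hx y hy
      rw [List.getLast?_reverse, a4] at hx
      rw [List.head?_append, List.head?_map, d4] at hy
      simp only [Option.map_some, Option.some_or, Option.mem_some_iff] at hx hy
      subst hx hy
      exact (ad_join N c0).symm
  · intro z hz
    push_cast
    rcases List.mem_append.1 hz with hz | hz
    · have := a3 z (List.mem_reverse.1 hz)
      constructor <;> omega
    · rcases List.mem_append.1 hz with hz | hz
      · obtain ⟨y, hy, rfl⟩ := List.mem_map.1 hz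
        have h3 := (d3 y hy).1
        have h4 := hm y hy
        simp only [sh]
        constructor <;> omega
      · have := b3 z hz
        constructor <;> omega
  · rw [List.head?_append, List.head?_reverse, a5]
    rfl
  · rw [List.getLast?_append, List.getLast?_append, b5]
    rfl

/-- Splitting at a vertex. -/
lemma CP_split {K : ℕ} {u v x : CV L} {T1 T2 : List (CV L)} (h : CP K u v (T1 ++ x :: T2)) :
    CP K x u (x :: T1.reverse) ∧ CP K x v (x :: T2) ∧ ∀ z ∈ T1.reverse, z ∉ x :: T2 := by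
  obtain ⟨h1, h2, h3, h4, h5⟩ := h
  rw [List.nodup_append] at h1
  rw [List.isChain_append] at h2
  obtain ⟨n1, n2, n3⟩ := h1
  obtain ⟨k1, k2, k3⟩ := h2
  refine ⟨⟨?_, ?_, ?_, rfl, ?_⟩, ⟨n2, k2, fun z hz => h3 z (by simp only [List.mem_append]; exact Or.inr hz), rfl, ?_⟩, ?_⟩
  · rw [List.nodup_cons]
    refine ⟨fun h => ?_, List.nodup_reverse.2 n1⟩
    exact n3 x (List.mem_reverse.1 h) x (by simp) rfl
  · have : (x :: T1.reverse) = (T1 ++ [x]).reverse := by simp
    rw [this, List.isChain_reverse]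
    refine List.IsChain.imp (R := ad) (fun _ _ h => h.symm) ?_
    rw [List.isChain_append]
    refine ⟨k1, by simp, ?_⟩
    intro y hy w hw
    exact k3 y hy w (by simpa using hw)
  · intro z hz
    apply h3
    rcases List.mem_cons.1 hz with rfl | hz
    · simp
    · simp [List.mem_reverse.1 hz]
  · have : (x :: T1.reverse) = (T1 ++ [x]).reverse := by simp
    rw [this, List.getLast?_reverse]
    rw [List.head?_append] at h4 ⊢
    exact h4
  · rw [List.getLast?_append] at h5
    have : (x :: T2).getLast?.isSome := by simp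
    obtain ⟨y, hy⟩ := Option.isSome_iff_exists.1 this
    rw [hy] at h5 ⊢
    exact h5
  · intro z hz hz'
    exact n3 z (List.mem_reverse.1 hz) z hz' rfl

/-- **(a)** Rerooting. -/
theorem reroot (N M : ℕ) : xE * ∑ c ∈ (Finset.univ : Finset (Fin 2 → Fin L)).filter (fun c => c 0 ≠ c 1),
      (cm M (ut (c 0)) (ut (c 1)) * ∑ e, fm N c e) ≤ ∑ m ∈ Finset.range M, ∑ j : Fin L, vm (N + m + 1) j := by
  classical
  set T := Σ c : {c : Fin 2 → Fin L // c 0 ≠ c 1}, {a : List (CV L) // CP M (ut (c.1 0)) (ut (c.1 1)) a} ×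
    Σ e : Fin 2 → Fin L, {g : Fin 2 → List (CV L) // Fam N c.1 e g} with hT
  set T' := Σ m : Fin M, Σ j : Fin L, VP (L := L) (N + m + 1) j with hT'
  have h1 : xE * ∑ c ∈ (Finset.univ : Finset (Fin 2 → Fin L)).filter (fun c => c 0 ≠ c 1),
      (cm M (ut (c 0)) (ut (c 1)) * ∑ e, fm N c e) =
      ∑' s : T, xE ^ (1 + s.2.1.1.length + ∑ k, (s.2.2.2.1 k).length) := by
    rw [ENNReal.tsum_sigma' (fun s : T => xE ^ (1 + s.2.1.1.length + ∑ k, (s.2.2.2.1 k).length)), tsum_fintype,
      Finset.mul_sum, Finset.sum_subtype (p := fun c : Fin 2 → Fin L => c 0 ≠ c 1) _ (fun c => by simp)]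
    refine Finset.sum_congr rfl fun c _ => ?_
    rw [ENNReal.tsum_prod (f := fun (a : {a : List (CV L) // CP M (ut (c.1 0)) (ut (c.1 1)) a})
      (q : Σ e : Fin 2 → Fin L, {g : Fin 2 → List (CV L) // Fam N c.1 e g}) =>
        xE ^ (1 + a.1.length + ∑ k, (q.2.1 k).length))]
    simp_rw [pow_add, ENNReal.tsum_mul_left]
    rw [ENNReal.tsum_mul_right, ENNReal.tsum_mul_left, pow_one, mul_assoc]
    congr 2
    rw [ENNReal.tsum_sigma' (fun q : Σ e : Fin 2 → Fin L, {g : Fin 2 → List (CV L) // Fam N c.1 e g} =>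
      xE ^ (∑ k, (q.2.1 k).length)), tsum_fintype]
    rfl
  have h2 : ∑ m ∈ Finset.range M, ∑ j : Fin L, vm (N + m + 1) j =
      ∑' s : T', xE ^ (s.2.2.1.1.length + s.2.2.1.2.length) := by
    rw [ENNReal.tsum_sigma' (fun s : T' => xE ^ (s.2.2.1.1.length + s.2.2.1.2.length)), tsum_fintype,
      Finset.sum_range]
    refine Finset.sum_congr rfl fun m _ => ?_
    rw [ENNReal.tsum_sigma' (fun s : Σ j : Fin L, VP (L := L) (N + m + 1) j =>
      xE ^ (s.2.1.1.length + s.2.1.2.length)), tsum_fintype]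
    rfl
  rw [h1, h2]
  refine tsum_rel _ _ (fun s s' => jn N (s.2.2.2.1 0) s.2.1.1 (s.2.2.2.1 1) =
    s'.2.2.1.1.reverse ++ s'.2.2.1.2.tail) ?_ ?_
  · rintro ⟨⟨c, hc⟩, ⟨a, ha⟩, e, ⟨g, hg⟩⟩
    simp only
    obtain ⟨m, j, hm, hmem, hle⟩ := low_false hc ha
    have hJ := jn_CP (hg.1 0) (hg.1 1) (hg.2 0 1 (by decide)) ha hle
    have hmem' : ub (N + m + 1) j ∈ jn N (g 0) a (g 1) := by
      unfold jn
      refine List.mem_append.2 (Or.inr (List.mem_append.2 (Or.inl (List.mem_map.2 ⟨_, hmem, ?_⟩))))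
      simp only [sh, ub]
      refine Prod.ext ?_ rfl
      push_cast
      ring
    obtain ⟨T1, T2, hT12⟩ := List.append_of_mem hmem'
    rw [hT12] at hJ
    obtain ⟨p1, p2, p3⟩ := CP_split hJ
    refine ⟨⟨⟨m, hm⟩, j, ⟨(ub (N + m + 1) j :: T1.reverse, ub (N + m + 1) j :: T2), ⟨_, p1⟩, ⟨_, p2⟩, p3⟩⟩, ?_, ?_⟩
    · rw [hT12]
      simp
    · simp only
      have h3 := congrArg List.length hT12
      unfold jn at h3
      simp only [List.length_append, List.length_reverse, List.length_map, List.length_cons] at h3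
      rw [Fin.sum_univ_two]
      simp only [List.length_cons, List.length_reverse]
      apply le_of_eq
      congr 1
      omega
  · rintro ⟨⟨c, hc⟩, ⟨a, ha⟩, e, ⟨g, hg⟩⟩ ⟨⟨c', hc'⟩, ⟨a', ha'⟩, e', ⟨g', hg'⟩⟩ ⟨m, j, ⟨w, hw⟩⟩ h3 h4
    simp only at h3 h4
    have hne : ∀ {c : Fin 2 → Fin L} {a : List (CV L)}, CP M (ut (c 0)) (ut (c 1)) a → a ≠ [] := by
      rintro c a h rfl
      have := h.2.2.2.1
      simp at this
    obtain ⟨q1, q2, q3⟩ := jn_inj (fun z hz => ((hg.1 0).2.2.1 z hz).2) (fun z hz => ((hg'.1 0).2.2.1 z hz).2)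
      (fun z hz => (ha.2.2.1 z hz).1) (fun z hz => (ha'.2.2.1 z hz).1) (hne ha) (hne ha')
      (fun z hz => ((hg.1 1).2.2.1 z hz).2) (fun z hz => ((hg'.1 1).2.2.1 z hz).2) (h3.trans h4.symm)
    have hgg : g = g' := by
      funext k
      fin_cases k
      · exact q1
      · exact q3
    subst hgg q2
    have hcc : c = c' := by
      funext k
      have r1 := (hg.1 k).2.2.2.1
      rw [(hg'.1 k).2.2.2.1, Option.some.injEq] at r1
      simpa [ub] using r1.symm
    subst hcc
    have hee : e = e' := by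
      funext k
      have r1 := (hg.1 k).2.2.2.2
      rw [(hg'.1 k).2.2.2.2, Option.some.injEq] at r1
      simpa [ut] using r1.symm
    subst hee
    rfl

end Pool.Agent.CYL.U
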