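import Pool.Agent.CYL.U.ArcR
import Pool.Agent.CYL.U.Rer
import Pool.Agent.CYL.U.Low
import Pool.Agent.CYL.U.Def

/-!
# CYL-U (c), part 2: the arcs and the crossing paths

Contract (A), `arc_core`: `Zc L 1 N / L ≤ √(Zc L 2 N) + G √(2 L N A / x_c)`, `A` the mass of the arcs of depth at most `N`
from `ut a` to `ut b`.
-/

namespace Pool.Agent.CYL.U

open Pool.Agent.Hhelper14.SAW Pool.Agent.HHP Pool.Agent.QL Pool.Agent.BEX
open scoped ENNReal

variable {L : ℕ}

/-- Crossing paths from the top vertex `a`. -/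
def XP (N : ℕ) (a : Fin L) (g : List (CV L)) : Prop := ∃ c, CP N (ut a) (ub N c) g

/-- The mass of those which stay in `A`. -/
noncomputable def cf (N : ℕ) (t : ℤ) (a : Fin L) : ℝ≥0∞ :=
  ∑' g : {g : List (CV L) // XP N a g ∧ ∀ z ∈ g, sA t z}, xE ^ g.1.length

/-- The vertices. -/
def vt {N : ℕ} (x : Fin N × Fin L × Bool) : CV L := ((x.1 : ℤ), x.2)

lemma vt_inj {N : ℕ} : Function.Injective (vt (L := L) (N := N)) := by
  rintro ⟨i, j⟩ ⟨i', j'⟩ h
  simp only [vt, Prod.mk.injEq] at h
  refine Prod.ext (Fin.ext ?_) h.2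
  exact_mod_cast h.1

/-- Paths in `A` from `ut a` which end next to the vertex `x` of the lines. -/
def EP (N : ℕ) (t : ℤ) (a : Fin L) (x : CV L) (p : List (CV L)) : Prop :=
  SP N (ut a) p ∧ (∀ z ∈ p, sA t z) ∧ (∀ y ∈ p.getLast?, ad y x) ∧ ln t x

/-- Their mass. -/
noncomputable def fE (N : ℕ) (t : ℤ) (a : Fin L) (x : Fin N × Fin L × Bool) : ℝ≥0∞ :=
  ∑' p : {p : List (CV L) // EP N t a (vt x) p}, xE ^ p.1.length

lemma ln_not {t : ℤ} {z : CV L} (h : ln t z) : ¬ sA t z := by
  rintro ⟨h1, h2⟩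
  rcases h with h | h <;> omega

/-- **T1** Exit from `A`. -/
theorem exit_le {N : ℕ} {t : ℤ} {a : Fin L} (ha : sA t (ut a)) {G : ℝ≥0∞} (hG : ∀ u : CV L, gm N u ≤ G) :
    ∑' g : {g : List (CV L) // XP N a g}, xE ^ g.1.length ≤
      cf N t a + (∑ x : Fin N × Fin L × Bool, fE N t a x) * G := by
  have h1 : ∑' g : {g : List (CV L) // XP N a g}, xE ^ g.1.length ≤
      ∑' s : {g : List (CV L) // XP N a g ∧ ∀ z ∈ g, sA t z} ⊕
        (Σ x : Fin N × Fin L × Bool, {p : List (CV L) // EP N t a (vt x) p} × {r : List (CV L) // SP N (vt x) r}),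
      Sum.elim (fun g => xE ^ g.1.length) (fun q => xE ^ q.2.1.1.length * xE ^ q.2.2.1.length) s := by
    refine tsum_rel _ _ (fun g s => Sum.elim (fun g' => g.1 = g'.1) (fun q => g.1 = q.2.1.1 ++ q.2.2.1) s) ?_ ?_
    · rintro ⟨g, hg⟩
      by_cases hA : ∀ z ∈ g, sA t z
      · exact ⟨Sum.inl ⟨g, hg, hA⟩, rfl, le_refl _⟩
      · obtain ⟨c, h1, h2, h3, h4, h5⟩ := hg
        set P := g.takeWhile (fun z => decide (sA t z)) with hP
        set R := g.dropWhile (fun z => decide (sA t z)) with hR
        have hgPR : g = P ++ R := (List.takeWhile_append_dropWhile).symm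
        have hPA : ∀ z ∈ P, sA t z := by
          intro z hz
          have := List.mem_takeWhile_imp hz
          simpa using this
        have hRne : R ≠ [] := by
          intro hn
          apply hA
          rw [hgPR, hn, List.append_nil]
          exact hPA
        obtain ⟨x, r, hx⟩ := List.exists_cons_of_ne_nil hRne
        have hxn : ¬ sA t x := by
          have := List.head_dropWhile_not (fun z : CV L => decide (sA t z)) (l := g) (by rw [← hR]; exact hRne)
          have h2 : (List.dropWhile (fun z : CV L => decide (sA t z)) g).head (by rw [← hR]; exact hRne) = x := by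
            simp only [← hR, hx, List.head_cons]
          rw [h2] at this
          simpa using this
        have hPne : P ≠ [] := by
          intro hn
          rw [hgPR, hn, List.nil_append, hx] at h4
          simp only [List.head?_cons, Option.some.injEq] at h4
          rw [h4] at hxn
          exact hxn ha
        obtain ⟨y, hy⟩ : ∃ y, P.getLast? = some y := by
          have : P.getLast?.isSome := by simpa using hPne
          exact Option.isSome_iff_exists.1 this
        have hch := h2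
        rw [hgPR, List.isChain_append] at hch
        have hnd := h1
        rw [hgPR, List.nodup_append] at hnd
        have hyx : ad y x := hch.2.2 y (by rw [hy]; rfl) x (by rw [hx]; rfl)
        have hxl : ln t x := leave hyx (hPA y (List.mem_of_getLast? hy)) hxn
        have hxg := h3 x (by rw [hgPR, hx]; simp)
        obtain ⟨x', hx'⟩ : ∃ x' : Fin N × Fin L × Bool, vt x' = x := by
          refine ⟨(⟨x.1.toNat, by omega⟩, x.2), ?_⟩
          simp only [vt]
          refine Prod.ext ?_ rfl
          simp only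
          exact Int.toNat_of_nonneg hxg.1
        subst hx'
        refine ⟨Sum.inr ⟨x', ⟨P, ⟨hnd.1, hch.1, fun z hz => h3 z (by rw [hgPR]; exact List.mem_append_left _ hz), ?_⟩,
          hPA, ?_, hxl⟩, ⟨R, hnd.2.1, hch.2.1, fun z hz => h3 z (by rw [hgPR]; exact List.mem_append_right _ hz), ?_⟩⟩,
          hgPR, ?_⟩
        · obtain ⟨p, P', hp⟩ := List.exists_cons_of_ne_nil hPne
          rw [hgPR, hp] at h4
          rw [hp]
          simpa using h4
        · intro w hw
          rw [hy, Option.mem_some_iff] at hw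
          rw [← hw]
          exact hyx
        · rw [hx]
          rfl
        · simp only [Sum.elim_inr]
          rw [← pow_add, ← List.length_append, ← hgPR]
    · rintro ⟨g, hg⟩ ⟨g', hg'⟩ (s | s) h3 h4
      · exact Subtype.ext (h3.trans h4.symm)
      · exact Subtype.ext (h3.trans h4.symm)
  refine h1.trans ?_
  rw [Summable.tsum_sum ENNReal.summable ENNReal.summable]
  simp only [Sum.elim_inl, Sum.elim_inr]
  refine add_le_add (le_refl _) ?_
  rw [ENNReal.tsum_sigma' (fun q : (Σ x : Fin N × Fin L × Bool, {p : List (CV L) // EP N t a (vt x) p} ×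
    {r : List (CV L) // SP N (vt x) r}) => xE ^ q.2.1.1.length * xE ^ q.2.2.1.length), tsum_fintype, Finset.sum_mul]
  refine Finset.sum_le_sum fun x _ => ?_
  rw [ENNReal.tsum_prod (f := fun (p : {p : List (CV L) // EP N t a (vt x) p}) (r : {r : List (CV L) // SP N (vt x) r}) =>
    xE ^ p.1.length * xE ^ r.1.length)]
  simp_rw [ENNReal.tsum_mul_left]
  rw [ENNReal.tsum_mul_right]
  unfold fE
  gcongr
  exact hG (vt x)

/-- **T2** The arcs. -/
theorem arcs_ge {N : ℕ} {a b : Fin L} (hab : b < a) :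
    ∑ x : Fin N × Fin L × Bool, fE N ((a : ℤ) + b) a x * fE N ((a : ℤ) + b) a x * xE ≤ cm N (ut a) (ut b) := by
  set t : ℤ := (a : ℤ) + b with ht
  have ha : sA t (ut a) := hu_ut hab
  have h1 : ∑ x : Fin N × Fin L × Bool, fE N t a x * fE N t a x * xE =
      ∑' s : (Σ x : Fin N × Fin L × Bool, {p : List (CV L) // EP N t a (vt x) p} × {p : List (CV L) // EP N t a (vt x) p}),
        xE ^ s.2.1.1.length * xE ^ s.2.2.1.length * xE := by
    rw [ENNReal.tsum_sigma' (fun s : (Σ x : Fin N × Fin L × Bool, {p : List (CV L) // EP N t a (vt x) p} ×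
      {p : List (CV L) // EP N t a (vt x) p}) => xE ^ s.2.1.1.length * xE ^ s.2.2.1.length * xE), tsum_fintype]
    refine Finset.sum_congr rfl fun x _ => ?_
    rw [ENNReal.tsum_prod (f := fun (p : {p : List (CV L) // EP N t a (vt x) p})
      (r : {p : List (CV L) // EP N t a (vt x) p}) => xE ^ p.1.length * xE ^ r.1.length * xE)]
    simp_rw [ENNReal.tsum_mul_right, ENNReal.tsum_mul_left]
    rw [ENNReal.tsum_mul_right]
    rfl
  rw [h1]
  unfold cm
  refine tsum_rel _ _ (fun s g => g.1 = s.2.1.1 ++ vt s.1 :: (s.2.2.1.map (rx t)).reverse) ?_ ?_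
  · rintro ⟨x, ⟨p, ⟨p1, p2, p3, p4⟩, p5, p6, p7⟩, ⟨q, ⟨q1, q2, q3, q4⟩, q5, q6, q7⟩⟩
    have hpne : p ≠ [] := by rintro rfl; simp at p4
    have hqne : q ≠ [] := by rintro rfl; simp at q4
    obtain ⟨y, hy⟩ : ∃ y, p.getLast? = some y := by
      have : p.getLast?.isSome := by simpa using hpne
      exact Option.isSome_iff_exists.1 this
    obtain ⟨y', hy'⟩ : ∃ y, q.getLast? = some y := by
      have : q.getLast?.isSome := by simpa using hqne
      exact Option.isSome_iff_exists.1 this
    have hfix := rx_ln p7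
    have hxA : ¬ sA t (vt x) := ln_not p7
    have hqB : ∀ z ∈ (q.map (rx t)).reverse, (L : ℤ) < hu t z := by
      intro z hz
      obtain ⟨w, hw, rfl⟩ := List.mem_map.1 (List.mem_reverse.1 hz)
      exact rx_side (q5 w hw)
    refine ⟨⟨p ++ vt x :: (q.map (rx t)).reverse, ?_, ?_, ?_, ?_, ?_⟩, rfl, ?_⟩
    · rw [List.nodup_append]
      refine ⟨p1, List.nodup_cons.2 ⟨?_, List.nodup_reverse.2 (q1.map (rx_inj _))⟩, ?_⟩
      · intro hm
        have h3 := hqB _ hm
        rcases p7 with h4 | h4 <;> omega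
      · rintro z hz w hw rfl
        rcases List.mem_cons.1 hw with rfl | hw
        · exact hxA (p5 _ hz)
        · have h3 := hqB _ hw
          have h4 := (p5 _ hz).2
          omega
    · rw [List.isChain_append]
      refine ⟨p2, ?_, ?_⟩
      · have e : vt x :: (q.map (rx t)).reverse = ((q.map (rx t)) ++ [vt x]).reverse := by simp
        rw [e, List.isChain_reverse]
        refine List.IsChain.imp (R := ad) (fun _ _ h => h.symm) ?_
        rw [List.isChain_append]
        refine ⟨?_, by simp, ?_⟩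
        · rw [List.isChain_map]
          exact q2.imp fun _ _ h => ad_rx h
        · intro w hw w' hw'
          rw [List.getLast?_map, hy'] at hw
          simp only [Option.map_some, Option.mem_some_iff, List.head?_cons] at hw hw'
          subst hw hw'
          have h5 := ad_rx (t := t) (q6 y' (by rw [hy']; rfl))
          rwa [hfix] at h5
      · intro w hw w' hw'
        rw [hy, Option.mem_some_iff] at hw
        simp only [List.head?_cons, Option.mem_some_iff] at hw'
        subst hw hw'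
        exact p6 y (by rw [hy]; rfl)
    · intro z hz
      rcases List.mem_append.1 hz with hz | hz
      · exact p3 z hz
      · rcases List.mem_cons.1 hz with rfl | hz
        · simp only [vt]
          have := x.1.2
          constructor <;> omega
        · obtain ⟨w, hw, rfl⟩ := List.mem_map.1 (List.mem_reverse.1 hz)
          exact q3 w hw
    · rw [List.head?_append, p4]
      rfl
    · rw [List.getLast?_append]
      have e : (vt x :: (q.map (rx t)).reverse).getLast? = some (ut b) := by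
        have e : vt x :: (q.map (rx t)).reverse = ((q.map (rx t)) ++ [vt x]).reverse := by simp
        rw [e, List.getLast?_reverse, List.head?_append, List.head?_map, q4]
        simp only [Option.map_some, Option.some_or]
        rw [rx_ut]
      rw [e]
      rfl
    · simp only [List.length_append, List.length_cons, List.length_reverse, List.length_map]
      apply le_of_eq
      ring
  · rintro ⟨x, ⟨p, hp⟩, ⟨q, hq⟩⟩ ⟨x', ⟨p', hp'⟩, ⟨q', hq'⟩⟩ ⟨g, hg⟩ h3 h4
    simp only at h3 h4
    have key : ∀ (x : Fin N × Fin L × Bool) (p q : List (CV L)), EP N t a (vt x) p →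
        (p ++ vt x :: (q.map (rx t)).reverse).takeWhile (fun z => decide (sA t z)) = p := by
      intro x p q hp
      rw [List.takeWhile_append_of_pos (by
        intro z hz
        simpa using hp.2.1 z hz)]
      rw [List.takeWhile_cons_of_neg, List.append_nil]
      have := ln_not hp.2.2.2
      simpa using this
    have k1 := key x p q hp
    have k2 := key x' p' q' hp'
    rw [← h3] at k1
    rw [← h4] at k2
    have hpp : p = p' := k1.symm.trans k2
    subst hpp
    have h5 := List.append_cancel_left (h3.symm.trans h4)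
    simp only [List.cons.injEq] at h5
    have hxx : x = x' := vt_inj h5.1
    subst hxx
    have hqq : q = q' := List.map_injective_iff.2 (rx_inj t) (List.reverse_injective h5.2)
    subst hqq
    rfl

/-- **T3** Two confined paths. -/
theorem conf_sq {N : ℕ} (a b : Fin L) : cf N ((a : ℤ) + b) a * cf N ((a : ℤ) + b) a ≤ Zc L 2 N := by
  set t : ℤ := (a : ℤ) + b with ht
  have h1 : cf N t a * cf N t a = ∑' p : {g : List (CV L) // XP N a g ∧ ∀ z ∈ g, sA t z} ×
      {g : List (CV L) // XP N a g ∧ ∀ z ∈ g, sA t z}, xE ^ p.1.1.length * xE ^ p.2.1.length := by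
    unfold cf
    rw [ENNReal.tsum_prod (f := fun (p q : {g : List (CV L) // XP N a g ∧ ∀ z ∈ g, sA t z}) =>
      xE ^ p.1.length * xE ^ q.1.length)]
    simp_rw [ENNReal.tsum_mul_left]
    rw [ENNReal.tsum_mul_right]
  rw [h1, Zc_AF]
  refine tsum_rel _ _ (fun p s => s.2.2.1 0 = p.1.1.reverse ∧ s.2.2.1 1 = (p.2.1.map (rx t)).reverse) ?_ ?_
  · rintro ⟨⟨g, ⟨c, hg⟩, hgA⟩, ⟨g', ⟨c', hg'⟩, hgA'⟩⟩
    obtain ⟨c2, hc2⟩ := rx_ub (L := L) t N c'
    have hR := CP_rx t hg'
    rw [rx_ut, hc2] at hR
    refine ⟨⟨![c, c2], ![a, b], ![g.reverse, (g'.map (rx t)).reverse], ?_, ?_⟩, ⟨rfl, rfl⟩, ?_⟩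
    · intro k
      fin_cases k
      · exact CP_rev hg
      · exact CP_rev hR
    · have hd : List.Disjoint g.reverse (g'.map (rx t)).reverse := by
        intro z hz hz'
        obtain ⟨w, hw, rfl⟩ := List.mem_map.1 (List.mem_reverse.1 hz')
        have h3 := rx_side (hgA' w hw)
        have h4 := (hgA _ (List.mem_reverse.1 hz)).2
        omega
      intro k k' hk
      fin_cases k <;> fin_cases k'
      · exact absurd rfl hk
      · exact hd
      · exact hd.symm
      · exact absurd rfl hk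
    · simp only [Fin.sum_univ_two]
      simp [pow_add]
  · rintro ⟨⟨g1, hg1⟩, ⟨g2, hg2⟩⟩ ⟨⟨g1', hg1'⟩, ⟨g2', hg2'⟩⟩ s h3 h4
    simp only at h3 h4
    have k1 : g1 = g1' := List.reverse_injective (h3.1.symm.trans h4.1)
    have k2 : g2 = g2' := List.map_injective_iff.2 (rx_inj t) (List.reverse_injective (h3.2.symm.trans h4.2))
    subst k1 k2
    rfl

/-- The crossing paths from `ut a`. -/
theorem XP_ge (N : ℕ) (a : Fin L) : Zc L 1 N ≤ L * ∑' g : {g : List (CV L) // XP N a g}, xE ^ g.1.length := by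
  have h1 : ∑ c : Fin L, cm N (ub N c) (ut a) ≤ ∑' g : {g : List (CV L) // XP N a g}, xE ^ g.1.length := by
    have h2 : ∑ c : Fin L, cm N (ub N c) (ut a) =
        ∑' s : (Σ c : Fin L, {g : List (CV L) // CP N (ub N c) (ut a) g}), xE ^ s.2.1.length := by
      rw [ENNReal.tsum_sigma' (fun s : (Σ c : Fin L, {g : List (CV L) // CP N (ub N c) (ut a) g}) =>
        xE ^ s.2.1.length), tsum_fintype]
      rfl
    rw [h2]
    refine tsum_rel _ _ (fun s g => g.1 = s.2.1.reverse) ?_ ?_
    · rintro ⟨c, g, hg⟩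
      exact ⟨⟨g.reverse, c, CP_rev hg⟩, rfl, by simp⟩
    · rintro ⟨c, g, hg⟩ ⟨c', g', hg'⟩ ⟨q, hq⟩ h3 h4
      simp only at h3 h4
      have k1 : g = g' := List.reverse_injective (h3.symm.trans h4)
      subst k1
      have hcc : c = c' := by
        have r1 := hg.2.2.2.1
        rw [hg'.2.2.2.1, Option.some.injEq] at r1
        simpa [ub] using r1.symm
      subst hcc
      rfl
  have h3 : ∑ e : Fin L, cm N (ub N (md a (-(N : ℤ)))) (ut e) ≤ ∑ c : Fin L, cm N (ub N c) (ut a) := by
    refine Finset.sum_le_sum fun e _ => ?_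
    have h4 := fm_refl_le N (fun _ : Fin 1 => md a (-(N : ℤ))) (fun _ : Fin 1 => e)
    rw [fm_one, fm_one] at h4
    have e1 : rc (N : ℤ) (fun _ : Fin 1 => md a (-(N : ℤ))) 0 = a := by
      simp only [rc, md_md]
      rw [neg_add_cancel, md_zero]
    rwa [e1] at h4
  rw [Zc_one_eq N (md a (-(N : ℤ)))]
  gcongr
  exact h3.trans h1

lemma cm_le_gm (M : ℕ) (u v : CV L) : cm M u v ≤ gm M u := by
  unfold cm gm
  refine tsum_rel _ _ (fun g g' => g'.1 = g.1) ?_ ?_
  · rintro ⟨g, hg⟩
    exact ⟨⟨g, hg.1, hg.2.1, hg.2.2.1, hg.2.2.2.1⟩, rfl, le_refl _⟩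
  · rintro ⟨g, hg⟩ ⟨g', hg'⟩ ⟨q, hq⟩ h3 h4
    exact Subtype.ext (h3.symm.trans h4)

/-- Contract (A). -/
theorem arc_core : ArcCore := by
  intro L N hL hN
  -- it is enough to treat `b < a`
  suffices H : ∀ a b : Fin L, b < a → ∀ G : ℝ, 0 ≤ G → (∀ u : CV L, gm N u ≤ ENNReal.ofReal G) →
      (Zc L 1 N).toReal / L ≤ Real.sqrt (Zc L 2 N).toReal +
        G * Real.sqrt (2 * L * N * (cm N (ut a) (ut b)).toReal / xc) by
    intro a b hab G hG0 hG
    rcases lt_or_gt_of_ne hab with h | h
    · have e : cm N (ut a) (ut b) = cm N (ut b) (ut a) := by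
        have key : ∀ a b : Fin L, cm N (ut a) (ut b) ≤ cm N (ut b) (ut a) := by
          intro a b
          unfold cm
          refine tsum_rel _ _ (fun g g' => g'.1 = g.1.reverse) ?_ ?_
          · rintro ⟨g, hg⟩
            exact ⟨⟨g.reverse, CP_rev hg⟩, rfl, by simp⟩
          · rintro ⟨g, hg⟩ ⟨g', hg'⟩ ⟨q, hq⟩ h3 h4
            exact Subtype.ext (List.reverse_injective (h3.symm.trans h4))
        exact le_antisymm (key a b) (key b a)
      rw [e]
      exact H b a h G hG0 hG
    · exact H a b h G hG0 hG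
  intro a b hab G hG0 hG
  set t : ℤ := (a : ℤ) + b with ht
  have hL0 : (0 : ℝ) < L := by
    have : (2 : ℝ) ≤ L := by exact_mod_cast hL
    linarith
  have h1 := exit_le (N := N) (hu_ut hab) hG
  have h2 := XP_ge N a
  have h3 := conf_sq (N := N) a b
  have h4 := arcs_ge (N := N) hab
  rw [← ht] at h1 h3 h4
  have hx : xE.toReal = xc := by
    unfold xE
    exact ENNReal.toReal_ofReal xc_pos.le
  -- finiteness
  have hcm : cm N (ut a) (ut b) ≠ ⊤ :=
    ne_top_of_le_ne_top ENNReal.ofReal_ne_top ((cm_le_gm N (ut a) (ut b)).trans (hG (ut a)))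
  have hf : ∀ x : Fin N × Fin L × Bool, fE N t a x ≠ ⊤ := by
    intro x hx'
    have h5 := (Finset.single_le_sum (f := fun x : Fin N × Fin L × Bool => fE N t a x * fE N t a x * xE)
      (fun _ _ => zero_le) (Finset.mem_univ x)).trans h4
    simp only [hx'] at h5
    rw [ENNReal.top_mul_top, ENNReal.top_mul xE_ne.1] at h5
    exact hcm (top_le_iff.1 h5)
  have hZ2 := Zc_two_ne_top L N
  have hcf : cf N t a ≠ ⊤ := by
    intro h
    rw [h, ENNReal.top_mul_top] at h3
    exact hZ2 (top_le_iff.1 h3)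
  have hF : ∑ x : Fin N × Fin L × Bool, fE N t a x ≠ ⊤ := ENNReal.sum_ne_top.2 fun x _ => hf x
  set f : Fin N × Fin L × Bool → ℝ := fun x => (fE N t a x).toReal with hfd
  set A : ℝ := (cm N (ut a) (ut b)).toReal with hA
  have hF' : (∑ x : Fin N × Fin L × Bool, fE N t a x).toReal = ∑ x, f x := ENNReal.toReal_sum fun x _ => hf x
  -- T2
  have g4 : (∑ x, f x ^ 2) * xc ≤ A := by
    have h5 := ENNReal.toReal_mono hcm h4
    rw [ENNReal.toReal_sum fun x _ => ENNReal.mul_ne_top (ENNReal.mul_ne_top (hf x) (hf x)) xE_ne.2] at h5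
    simp only [ENNReal.toReal_mul, hx] at h5
    rw [← Finset.sum_mul] at h5
    simpa only [sq] using h5
  have g5 : (∑ x, f x) ^ 2 ≤ 2 * L * N * A / xc := by
    have h6 := sq_sum_le_card_mul_sum_sq (s := (Finset.univ : Finset (Fin N × Fin L × Bool))) (f := f)
    have h7 : ((Finset.univ : Finset (Fin N × Fin L × Bool)).card : ℝ) = 2 * L * N := by
      rw [Finset.card_univ]
      simp only [Fintype.card_prod, Fintype.card_fin, Fintype.card_bool]
      push_cast
      ring
    rw [h7] at h6
    rw [le_div_iff₀ xc_pos]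
    calc (∑ x, f x) ^ 2 * xc ≤ (2 * L * N * ∑ x, f x ^ 2) * xc := mul_le_mul_of_nonneg_right h6 xc_pos.le
      _ = 2 * L * N * ((∑ x, f x ^ 2) * xc) := by ring
      _ ≤ 2 * L * N * A := by
          apply mul_le_mul_of_nonneg_left g4
          positivity
  have g5' : ∑ x, f x ≤ Real.sqrt (2 * L * N * A / xc) := Real.le_sqrt_of_sq_le g5
  -- T3
  have g3 : (cf N t a).toReal ≤ Real.sqrt (Zc L 2 N).toReal := by
    apply Real.le_sqrt_of_sq_le
    have h5 := ENNReal.toReal_mono hZ2 h3
    rwa [ENNReal.toReal_mul, ← sq] at h5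
  -- T1
  have hfin : cf N t a + (∑ x : Fin N × Fin L × Bool, fE N t a x) * ENNReal.ofReal G ≠ ⊤ :=
    ENNReal.add_ne_top.2 ⟨hcf, ENNReal.mul_ne_top hF ENNReal.ofReal_ne_top⟩
  have g1 := ENNReal.toReal_mono hfin h1
  rw [ENNReal.toReal_add hcf (ENNReal.mul_ne_top hF ENNReal.ofReal_ne_top), ENNReal.toReal_mul, hF',
    ENNReal.toReal_ofReal hG0] at g1
  have hs : ∑' g : {g : List (CV L) // XP N a g}, xE ^ g.1.length ≠ ⊤ := ne_top_of_le_ne_top hfin h1
  have g2 := ENNReal.toReal_mono (ENNReal.mul_ne_top (ENNReal.natCast_ne_top L) hs) h2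
  rw [ENNReal.toReal_mul, ENNReal.toReal_natCast] at g2
  have g6 : (Zc L 1 N).toReal / L ≤ (∑' g : {g : List (CV L) // XP N a g}, xE ^ g.1.length).toReal := by
    rw [div_le_iff₀ hL0]
    linarith
  have g7 : (∑ x, f x) * G ≤ G * Real.sqrt (2 * L * N * A / xc) := by
    rw [mul_comm]
    exact mul_le_mul_of_nonneg_left g5' hG0
  linarith

end Pool.Agent.CYL.U
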