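import Mathlib

/-!
# CYL-U (U3): subadditivity with logarithmic errors (real analysis)
-/

namespace Pool.Agent.CYL.U

open scoped Topology
open Filter

/-- If `f (2 n) ≤ 2 f(n) + D log (2 L n + 2)` and `f(n) / n → a`, then `a N ≤ f(N) + D (log (L N + 2) + 2 log 2)`. -/
theorem fek {f : ℕ → ℝ} {D a : ℝ} (hD : 0 ≤ D) (L : ℕ)
    (hf : ∀ n : ℕ, 1 ≤ n → f (2 * n) ≤ 2 * f n + D * Real.log (L * (2 * n) + 2))
    (ha : Tendsto (fun n : ℕ => f n / n) atTop (𝓝 a)) {N : ℕ} (hN : 1 ≤ N) :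
    a * N ≤ f N + D * (Real.log (L * N + 2) + 2 * Real.log 2) := by
  set E : ℝ := Real.log (L * N + 2) with hE
  have hl2 : 0 < Real.log 2 := Real.log_pos (by norm_num)
  have hE0 : 0 ≤ E := Real.log_nonneg (by
    have : (0 : ℝ) ≤ L * N := by positivity
    linarith)
  have hstep : ∀ k : ℕ, Real.log (L * (2 * ((2 ^ k * N : ℕ) : ℝ)) + 2) ≤ (k + 1) * Real.log 2 + E := by
    intro k
    have h1 : (L : ℝ) * (2 * ((2 ^ k * N : ℕ) : ℝ)) + 2 ≤ 2 ^ (k + 1) * (L * N + 2) := by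
      have h2 : (1 : ℝ) ≤ 2 ^ (k + 1) := one_le_pow₀ (by norm_num)
      push_cast
      have e : (L : ℝ) * (2 * (2 ^ k * (N : ℝ))) = 2 ^ (k + 1) * (L * N) := by ring
      rw [e]
      nlinarith
    have h3 : (0 : ℝ) < L * (2 * ((2 ^ k * N : ℕ) : ℝ)) + 2 := by positivity
    calc Real.log (L * (2 * ((2 ^ k * N : ℕ) : ℝ)) + 2) ≤ Real.log (2 ^ (k + 1) * (L * N + 2)) :=
          Real.log_le_log h3 h1
      _ = (k + 1) * Real.log 2 + E := by
          rw [Real.log_mul (by positivity) (by positivity), Real.log_pow]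
          push_cast
          ring
  have key : ∀ k : ℕ, f (2 ^ k * N) + D * (E + (k + 2) * Real.log 2) ≤ 2 ^ k * (f N + D * (E + 2 * Real.log 2)) := by
    intro k
    induction k with
    | zero => simp
    | succ k ih =>
      have h1 : 1 ≤ 2 ^ k * N := Nat.mul_pos (by positivity) hN
      have h2 := hf _ h1
      have h3 := mul_le_mul_of_nonneg_left (hstep k) hD
      have e : 2 ^ (k + 1) * N = 2 * (2 ^ k * N) := by ring
      rw [e]
      push_cast at h2 h3 ih ⊢
      have e2 : (2 : ℝ) ^ (k + 1) * (f N + D * (E + 2 * Real.log 2)) = 2 * (2 ^ k * (f N + D * (E + 2 * Real.log 2))) := by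
        ring
      rw [e2]
      nlinarith
  have hN' : (0 : ℝ) < N := by exact_mod_cast hN
  have h1 : ∀ k : ℕ, f (2 ^ k * N) / ((2 ^ k * N : ℕ) : ℝ) ≤ (f N + D * (E + 2 * Real.log 2)) / N := by
    intro k
    have h2 : (0 : ℝ) < ((2 ^ k * N : ℕ) : ℝ) := by
      push_cast
      positivity
    rw [div_le_div_iff₀ h2 hN']
    have h3 : f (2 ^ k * N) ≤ 2 ^ k * (f N + D * (E + 2 * Real.log 2)) := by
      have h4 : 0 ≤ D * (E + (k + 2) * Real.log 2) := by positivity
      linarith [key k]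
    have h5 := mul_le_mul_of_nonneg_right h3 hN'.le
    push_cast
    nlinarith
  have h2 : Tendsto (fun k : ℕ => 2 ^ k * N) atTop atTop := by
    refine tendsto_atTop_mono (fun k => ?_) tendsto_id
    simp only [id]
    calc k ≤ 2 ^ k := Nat.lt_two_pow_self.le
      _ ≤ 2 ^ k * N := Nat.le_mul_of_pos_right _ hN
  have h3 := le_of_tendsto' (ha.comp h2) h1
  rw [le_div_iff₀ hN'] at h3
  exact h3

end Pool.Agent.CYL.U
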