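import Pool.Agent.CYL.U.Low
import Pool.Agent.CYL.U.Def
import Pool.Agent.CYL.D.Final

/-!
# CYL-U (U3), (U4): the uniform estimate

`final_U`: with the arc bound (c) `ArcLowS S` and the growth rates `lg l L`,
`|log P(L, N) + (2 lg 1 L - lg 2 L) N| ≤ C log (L N)` for all `L ∈ S`, `L ≥ 3`, `N ≥ 1`, with one constant `C`.
-/

namespace Pool.Agent.CYL.U

open Pool.Agent.Hhelper14.SAW Pool.Agent.HHP Pool.Agent.QL Pool.Agent.BEX
open scoped ENNReal Topology
open Filter

variable {L l : ℕ}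

/-! ### The literal pairs -/

/-- Lower bound for the pairs from the same vertex. -/
theorem vm_ge {D D2 M : ℕ} (hD : ∀ (L M : ℕ) (u : CV L), gm M u ≤ ((L * M + 2 : ℕ) : ℝ≥0∞) ^ D)
    (hL : 3 ≤ L) (hM : M ≤ L ^ D2) (hArc : ∀ a b : Fin L, a ≠ b → ((L : ℝ≥0∞) ^ D2)⁻¹ ≤ cm M (ut a) (ut b))
    {N : ℕ} (hN : 1 ≤ N) (c : Fin L) :
    0 < (vm N c).toReal ∧
    Real.log xc + Real.log (Zc L 2 N).toReal ≤ Real.log (vm N c).toReal + (2 * D2 + 1) * Real.log L +
      2 * D * (Real.log 3 + (D2 + 1) * Real.log (L * N)) := by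
  have hL0 : (0 : ℝ) < L := by
    have : (3 : ℝ) ≤ L := by exact_mod_cast hL
    linarith
  have hN0 : (0 : ℝ) < N := by exact_mod_cast hN
  set G : ℝ≥0∞ := ((3 * (L * N) ^ (D2 + 1) : ℕ) : ℝ≥0∞) ^ D with hG
  have hGb : ∀ m ≤ M, ∀ u : CV L, gm (N + m) u ≤ G := by
    intro m hm u
    refine (hD L (N + m) u).trans ?_
    rw [hG]
    gcongr
    have h1 : 3 ≤ L * N := le_trans hL (Nat.le_mul_of_pos_right _ hN)
    have h2 : L ≤ L * N := Nat.le_mul_of_pos_right _ hN
    have h3 : L * m ≤ (L * N) ^ (D2 + 1) := by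
      calc L * m ≤ L * L ^ D2 := Nat.mul_le_mul_left _ (hm.trans hM)
        _ = L ^ (D2 + 1) := by ring
        _ ≤ (L * N) ^ (D2 + 1) := Nat.pow_le_pow_left h2 _
    have h4 : L * N ≤ (L * N) ^ (D2 + 1) := Nat.le_self_pow (by omega) _
    calc L * (N + m) + 2 = (L * N + 2) + L * m := by ring
      _ ≤ 2 * (L * N) ^ (D2 + 1) + (L * N) ^ (D2 + 1) := Nat.add_le_add (by omega) h3
      _ = 3 * (L * N) ^ (D2 + 1) := by ring
  have h1 := reroot_le (M := M) hN c (A := ((L : ℝ≥0∞) ^ D2)⁻¹) hArc hGb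
  have hfin : vm N c ≠ ⊤ := ne_top_of_le_ne_top (ENNReal.mul_ne_top (by norm_num) (Zc_two_ne_top L N))
    (vm_le (by omega) N c)
  have hGfin : G ≠ ⊤ := ENNReal.pow_ne_top (ENNReal.natCast_ne_top _)
  have h2 := ENNReal.toReal_mono (ENNReal.mul_ne_top (ENNReal.mul_ne_top (ENNReal.mul_ne_top
    (ENNReal.natCast_ne_top _) (ENNReal.natCast_ne_top _)) (ENNReal.pow_ne_top hGfin)) hfin) h1
  rw [ENNReal.toReal_mul, ENNReal.toReal_mul, ENNReal.toReal_mul, ENNReal.toReal_mul, ENNReal.toReal_mul,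
    ENNReal.toReal_inv, ENNReal.toReal_pow, ENNReal.toReal_pow, hG, ENNReal.toReal_pow, ENNReal.toReal_natCast,
    ENNReal.toReal_natCast, ENNReal.toReal_natCast] at h2
  have hx : xE.toReal = xc := by
    unfold xE
    exact ENNReal.toReal_ofReal xc_pos.le
  rw [hx] at h2
  set z := (Zc L 2 N).toReal with hz
  set v := (vm N c).toReal with hv
  have hz0 : 0 < z := Zc_real_pos (Or.inr rfl) (by omega) hN
  set B : ℝ := 3 * (L * N) ^ (D2 + 1) with hB
  have hB0 : 0 < B := by positivity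
  have hBe : ((3 * (L * N) ^ (D2 + 1) : ℕ) : ℝ) = B := by rw [hB]; push_cast; ring
  rw [hBe] at h2
  have hv0' : 0 ≤ v := ENNReal.toReal_nonneg
  have hMr : (M : ℝ) ≤ (L : ℝ) ^ D2 := by exact_mod_cast hM
  have h3 : xc * ((L : ℝ) ^ D2)⁻¹ * z ≤ (L : ℝ) ^ D2 * L * (B ^ D) ^ 2 * v := by
    refine h2.trans ?_
    gcongr
  have hlhs : 0 < xc * ((L : ℝ) ^ D2)⁻¹ * z := by
    have := xc_pos
    positivity
  have hv0 : 0 < v := by
    rcases hv0'.eq_or_lt with h | h
    · rw [← h, mul_zero] at h3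
      linarith
    · exact h
  refine ⟨hv0, ?_⟩
  have h4 := Real.log_le_log hlhs h3
  rw [Real.log_mul (by have := xc_pos; positivity) hz0.ne', Real.log_mul xc_pos.ne' (by positivity), Real.log_inv,
    Real.log_pow, Real.log_mul (by positivity) hv0.ne', Real.log_mul (by positivity) (by positivity),
    Real.log_mul (by positivity) hL0.ne', Real.log_pow, Real.log_pow, Real.log_pow] at h4
  have h5 : Real.log B = Real.log 3 + (D2 + 1) * Real.log (L * N) := by
    rw [hB, Real.log_mul (by positivity) (by positivity), Real.log_pow]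
    push_cast
    ring
  rw [h5] at h4
  push_cast at h4
  linarith

/-- **CYL-U** The uniform estimate. -/
theorem final_U (hA : AnUp) {S : Set ℕ} (hArc : ArcLowS S) (lg : ℕ → ℕ → ℝ)
    (hg : ∀ l, l = 1 ∨ l = 2 → ∀ L : ℕ, 3 ≤ L → Grow l L (lg l L)) :
    ∃ C : ℝ, 0 < C ∧ ∀ L ∈ S, 3 ≤ L → ∀ N : ℕ, 1 ≤ N →
      0 < Plane.P L N ∧ |Real.log (Plane.P L N) + (2 * lg 1 L - lg 2 L) * N| ≤ C * Real.log (L * N) := by
  obtain ⟨D, hD⟩ := gm_le hA
  obtain ⟨D2, hArc⟩ := hArc
  -- the constant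
  set X : ℝ := -Real.log xc with hX
  have hX0 : 0 ≤ X := by
    have h1 : xc ≤ 1 := by
      unfold xc
      rw [div_le_one mu_pos]
      exact one_le_mu
    have := Real.log_nonpos xc_pos.le h1
    rw [hX]
    linarith
  set C : ℝ := X + (2 * D2 + 1) + 2 * D * (D2 + 2) + 8 * D + 20 with hC
  refine ⟨C, by positivity, fun L hLS hL N hN => ?_⟩
  obtain ⟨M, -, hM, hArc⟩ := hArc L hLS hL
  have hL3 : (3 : ℝ) ≤ L := by exact_mod_cast hL
  have hN1 : (1 : ℝ) ≤ N := by exact_mod_cast hN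
  set c : Fin L := ⟨0, by omega⟩ with hc
  set E : ℝ := Real.log (L * N) with hE
  have hLN : (3 : ℝ) ≤ L * N := by nlinarith
  have hE1 : 1 ≤ E := by
    rw [hE, Real.le_log_iff_exp_le (by linarith)]
    have := Real.exp_one_lt_d9
    linarith
  have hLE : Real.log L ≤ E := Real.log_le_log (by linarith) (by nlinarith)
  have hL0 : 0 ≤ Real.log L := Real.log_nonneg (by linarith)
  have h2E : Real.log 2 ≤ E := Real.log_le_log (by norm_num) (by linarith)
  have h3E : Real.log 3 ≤ E := Real.log_le_log (by norm_num) (by linarith)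
  have hLN2 : Real.log (L * N + 2) ≤ 2 * E := by
    calc Real.log (L * N + 2) ≤ Real.log ((L * N) ^ 2) := Real.log_le_log (by linarith) (by nlinarith)
      _ = 2 * E := by rw [Real.log_pow]; push_cast; ring
  -- the masses
  have hg1 := hg 1 (Or.inl rfl) L hL
  have hg2 := hg 2 (Or.inr rfl) L hL
  have z1pos : 0 < (Zc L 1 N).toReal := Zc_real_pos (Or.inl rfl) (by omega) hN
  have z2pos : 0 < (Zc L 2 N).toReal := Zc_real_pos (Or.inr rfl) (by omega) hN
  have u1 : Real.log (Zc L 1 N).toReal ≤ 2 * Real.log L + lg 1 L * N := by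
    have h := Real.log_le_log z1pos (Zc_le_rate (Or.inl rfl) hg1.1 hN)
    rw [Real.log_mul (by positivity) (Real.exp_pos _).ne', Real.log_exp, Real.log_pow] at h
    push_cast at h
    linarith
  have u2 : Real.log (Zc L 2 N).toReal ≤ 4 * Real.log L + lg 2 L * N := by
    have h := Real.log_le_log z2pos (Zc_le_rate (Or.inr rfl) hg2.1 hN)
    rw [Real.log_mul (by positivity) (Real.exp_pos _).ne', Real.log_exp, Real.log_pow] at h
    push_cast at h
    linarith
  have l1 := Zc_ge_rate hD (Or.inl rfl) (by omega : 1 ≤ L) hg1.1 hN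
  have l2 := Zc_ge_rate hD (Or.inr rfl) (by omega : 2 ≤ L) hg2.1 hN
  obtain ⟨vpos, v1⟩ := vm_ge hD hL hM hArc hN c
  have hvfin : vm N c ≠ ⊤ := ne_top_of_le_ne_top (ENNReal.mul_ne_top (by norm_num) (Zc_two_ne_top L N))
    (vm_le (by omega) N c)
  have v2 : Real.log (vm N c).toReal ≤ Real.log 3 + Real.log (Zc L 2 N).toReal := by
    have h := ENNReal.toReal_mono (ENNReal.mul_ne_top (by norm_num) (Zc_two_ne_top L N)) (vm_le (by omega) N c)
    rw [ENNReal.toReal_mul, ENNReal.toReal_ofNat] at h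
    have h' := Real.log_le_log vpos h
    rwa [Real.log_mul (by norm_num) z2pos.ne'] at h'
  -- one path
  have hcm : ∑ e : Fin L, cm N (ub N c) (ut e) ≠ ⊤ :=
    ENNReal.sum_ne_top.2 fun e _ => ne_top_of_le_ne_top ENNReal.one_ne_top (cm_cross_le N c e)
  set s : ℝ := (∑ e : Fin L, cm N (ub N c) (ut e)).toReal with hs
  have hz1 : (Zc L 1 N).toReal = L * s := by
    rw [Zc_one_eq N c, ENNReal.toReal_mul, ENNReal.toReal_natCast]
  have spos : 0 < s := by
    rw [hz1] at z1pos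
    exact pos_of_mul_pos_right z1pos (by linarith)
  have s1 : Real.log (Zc L 1 N).toReal = Real.log L + Real.log s := by
    rw [hz1, Real.log_mul (by linarith) spos.ne']
  -- the probability
  have a1 := (Last.tsum_of (fun w : Plane.Cross L N => Last.wt_nonneg w.1)
    (final_cov1 L N (by omega) hN c) hcm).2
  have a2 := (Last.tsum_of (fun q : Plane.Avoid L N => mul_nonneg (Last.wt_nonneg q.1.1) (Last.wt_nonneg q.1.2))
    (final_cov2 L N (by omega) hN c) hvfin).2
  have hP : Plane.P L N = (vm N c).toReal / s ^ 2 := by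
    unfold Plane.P
    rw [a1, a2]
  have hlog : Real.log (Plane.P L N) = Real.log (vm N c).toReal - 2 * Real.log s := by
    rw [hP, Real.log_div vpos.ne' (by positivity), Real.log_pow]
    push_cast
    ring
  refine ⟨by rw [hP]; positivity, ?_⟩
  rw [hlog, abs_le]
  push_cast at l1 l2
  have hD0 : (0 : ℝ) ≤ D := by positivity
  have hD20 : (0 : ℝ) ≤ D2 := by positivity
  have hW : Real.log (L * N + 2) + 2 * Real.log 2 ≤ 4 * E := by linarith
  have k1 : ((D : ℝ) + 1) * (Real.log (L * N + 2) + 2 * Real.log 2) ≤ (D + 1) * (4 * E) :=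
    mul_le_mul_of_nonneg_left hW (by linarith)
  have k2 : (2 * (D2 : ℝ) + 1) * Real.log L ≤ (2 * D2 + 1) * E := mul_le_mul_of_nonneg_left hLE (by linarith)
  have k3 : X * 1 ≤ X * E := mul_le_mul_of_nonneg_left hE1 hX0
  have hE0 : 0 ≤ E := by linarith
  have k5 : 2 * (D : ℝ) * (Real.log 3 + (D2 + 1) * E) ≤ 2 * D * ((D2 + 2) * E) :=
    mul_le_mul_of_nonneg_left (by linarith) (by linarith)
  have p1 : 0 ≤ (D : ℝ) * E := mul_nonneg hD0 hE0
  have p2 : 0 ≤ (2 * (D2 : ℝ) + 1) * E := mul_nonneg (by linarith) hE0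
  have p3 : 0 ≤ X * E := mul_nonneg hX0 hE0
  have p5 : 0 ≤ 2 * (D : ℝ) * ((D2 + 2) * E) := mul_nonneg (by linarith) (mul_nonneg (by linarith) hE0)
  have l1' : lg 1 L * N ≤ Real.log (Zc L 1 N).toReal + (4 * (D * E) + 4 * E) := by linarith
  have l2' : lg 2 L * N ≤ Real.log (Zc L 2 N).toReal + (8 * (D * E) + 8 * E) := by linarith
  have v1' : -X + Real.log (Zc L 2 N).toReal ≤ Real.log (vm N c).toReal + (2 * D2 + 1) * E +
      2 * D * ((D2 + 2) * E) := by
    rw [hX]
    linarith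
  have hCE : C * E = X * E + (2 * D2 + 1) * E + 2 * D * ((D2 + 2) * E) + 8 * (D * E) + 20 * E := by rw [hC]; ring
  rw [hCE]
  constructor <;> linarith

end Pool.Agent.CYL.U
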