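import Pool.Agent.CYL.N.Main
import Pool.Agent.CYL.U.Fin
import Pool.Agent.CYL.U.AnUp
import Pool.Agent.CYL.U.Arc

/-!
# CYL-U, (D): the final uniform theorem, all `L`

`exists_lg`: the growth rates `lg l L` (`l = 1, 2`, `L ≥ 3`) and their asymptotics. `final_of`: the final statement
from the arc bound `ArcLowS Set.univ`; `uniform_all`: the uniform theorem.
-/

namespace Pool.Agent.CYL.U

open Pool.Agent.Hhelper14.SAW Pool.Agent.HHP Pool.Agent.QL Pool.Agent.BEX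
open scoped ENNReal Topology
open Filter

/-- The growth rates for all `L ≥ 3` and their asymptotics. -/
theorem exists_lg : ∃ lg : ℕ → ℕ → ℝ, (∀ l, l = 1 ∨ l = 2 → ∀ L : ℕ, 3 ≤ L → Grow l L (lg l L)) ∧
    ∀ l, l = 1 ∨ l = 2 → Tendsto (fun L : ℕ => (L : ℝ) * lg l L) atTop
      (𝓝 (-(Real.sqrt 3 * Real.pi * (9 * (l : ℝ) ^ 2 - 4) / 48))) := by
  have key : ∀ l L : ℕ, ∃ a : ℝ, l = 1 ∨ l = 2 → l < L → Grow l L a := by
    intro l L
    by_cases h : (l = 1 ∨ l = 2) ∧ l < L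
    · obtain ⟨a, ha⟩ := inN.grow h.1 h.2
      exact ⟨a, fun _ _ => ha⟩
    · exact ⟨0, fun h1 h2 => absurd ⟨h1, h2⟩ h⟩
  choose lg hlg using key
  have hlg' : ∀ l, l = 1 ∨ l = 2 → ∀ L : ℕ, 3 ≤ L → Grow l L (lg l L) := by
    intro l hl L hL
    exact hlg l L hl (by rcases hl with h | h <;> omega)
  refine ⟨lg, hlg', fun l hl => ?_⟩
  obtain ⟨z, hz, hz'⟩ := inN.main hl
  refine hz'.congr' ?_
  filter_upwards [eventually_ge_atTop 3] with L hL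
  rw [tendsto_nhds_unique (hz L (by rcases hl with h | h <;> omega)) (hlg' l hl _ hL).1]

/-- `11 / 24 = x_2 - 2 x_1` -/
theorem lim_kappa {lg : ℕ → ℕ → ℝ}
    (h : ∀ l, l = 1 ∨ l = 2 → Tendsto (fun L : ℕ => (L : ℝ) * lg l L) atTop
      (𝓝 (-(Real.sqrt 3 * Real.pi * (9 * (l : ℝ) ^ 2 - 4) / 48)))) :
    Tendsto (fun L : ℕ => (L : ℝ) * (2 * lg 1 L - lg 2 L)) atTop (𝓝 (11 / 24 * Real.sqrt 3 * Real.pi)) := by
  have h4 := ((h 1 (Or.inl rfl)).const_mul 2).sub (h 2 (Or.inr rfl))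
  refine (h4.congr fun L => ?_).trans_eq ?_
  · ring
  · congr 1
    push_cast
    ring

/-- The constants for contract (C). -/
theorem exists_L0 {lg : ℕ → ℕ → ℝ}
    (h : ∀ l, l = 1 ∨ l = 2 → Tendsto (fun L : ℕ => (L : ℝ) * lg l L) atTop
      (𝓝 (-(Real.sqrt 3 * Real.pi * (9 * (l : ℝ) ^ 2 - 4) / 48)))) :
    ∃ L0 : ℕ, (∀ L, L0 ≤ L → 1 / (L : ℝ) ≤ 2 * lg 1 L - lg 2 L) ∧ ∀ L, L0 ≤ L → -(1 / (L : ℝ)) ≤ lg 1 L := by
  have hs : Real.sqrt 3 < 1.8 := by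
    rw [Real.sqrt_lt' (by norm_num)]
    norm_num
  have hs' : 1.7 < Real.sqrt 3 := by
    rw [Real.lt_sqrt (by norm_num)]
    norm_num
  have hp : Real.pi < 3.15 := Real.pi_lt_d2
  have hp' : 3 < Real.pi := Real.pi_gt_three
  have h1 := (lim_kappa h).eventually (lt_mem_nhds (show (1 : ℝ) < 11 / 24 * Real.sqrt 3 * Real.pi by nlinarith))
  have h2 := (h 1 (Or.inl rfl)).eventually
    (lt_mem_nhds (show (-1 : ℝ) < -(Real.sqrt 3 * Real.pi * (9 * ((1 : ℕ) : ℝ) ^ 2 - 4) / 48) by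
      push_cast
      nlinarith))
  obtain ⟨L0, hL0⟩ := eventually_atTop.1 ((h1.and h2).and (eventually_ge_atTop 1))
  refine ⟨L0, fun L hL => ?_, fun L hL => ?_⟩
  · obtain ⟨⟨a, -⟩, b⟩ := hL0 L hL
    have hL1 : (0 : ℝ) < L := by exact_mod_cast b
    rw [div_le_iff₀ hL1]
    linarith
  · obtain ⟨⟨-, a⟩, b⟩ := hL0 L hL
    have hL1 : (0 : ℝ) < L := by exact_mod_cast b
    rw [← neg_div, div_le_iff₀ hL1]
    linarith

/-- **The uniform theorem** for the honeycomb lattice: one constant `C` for all `L ≥ 3`, `N ≥ 1`. -/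
theorem uniform_all : ∃ κ : ℕ → ℝ,
    Tendsto (fun L : ℕ => (L : ℝ) * κ L) atTop (𝓝 (11 / 24 * Real.sqrt 3 * Real.pi)) ∧
    ∃ C : ℝ, 0 < C ∧ ∀ L N : ℕ, 3 ≤ L → 1 ≤ N →
      0 < Plane.P L N ∧ |Real.log (Plane.P L N) + κ L * N| ≤ C * Real.log (L * N) := by
  obtain ⟨lg, hg, hlim⟩ := exists_lg
  obtain ⟨C, hC, h⟩ := final_U anUp (arcLowS Set.univ) lg hg
  exact ⟨fun L => 2 * lg 1 L - lg 2 L, lim_kappa hlim, C, hC, fun L N hL hN => h L (Set.mem_univ L) hL N hN⟩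

end Pool.Agent.CYL.U
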