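import Pool.Agent.CYL.U.Fin
import Pool.Agent.CYL.U.ArcA

/-!
# CYL-U: the arc bound in the form used by `final_U`
-/

namespace Pool.Agent.CYL.U

open Pool.Agent.Hhelper14.SAW Pool.Agent.HHP Pool.Agent.QL Pool.Agent.BEX
open scoped ENNReal

/-- `ArcLowS` for all circumferences, from the lower bound of the arcs of depth `C L` (`arc_lower` in `CYL/U/Arc.lean`). -/
theorem arcLowS_of (h : ∃ C D : ℕ, ∀ L : ℕ, 3 ≤ L → ∀ c1 c2 : Fin L,
    ((L : ℝ≥0∞) ^ D)⁻¹ ≤ cm (C * L) (ut c1) (ut c2)) : ArcLowS Set.univ := by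
  obtain ⟨C, D, h⟩ := h
  refine ⟨D + C + 2, fun L _ hL => ⟨(C + 1) * L, Nat.mul_pos (by omega) (by omega), ?_, fun a b _ => ?_⟩⟩
  · calc (C + 1) * L ≤ L ^ (C + 1) * L := by
          apply Nat.mul_le_mul_right
          exact (Nat.lt_pow_self (by omega)).le
      _ = L ^ (C + 2) := by ring
      _ ≤ L ^ (D + C + 2) := Nat.pow_le_pow_right (by omega) (by omega)
  · calc ((L : ℝ≥0∞) ^ (D + C + 2))⁻¹ ≤ ((L : ℝ≥0∞) ^ D)⁻¹ := by
          apply ENNReal.inv_le_inv.2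
          have h1 : (1 : ℝ≥0∞) ≤ L := by
            have : 1 ≤ L := by omega
            exact_mod_cast this
          exact pow_le_pow_right₀ h1 (by omega)
      _ ≤ cm (C * L) (ut a) (ut b) := h L hL a b
      _ ≤ cm ((C + 1) * L) (ut a) (ut b) := cm_mono (Nat.mul_le_mul_right _ (by omega)) _ _

end Pool.Agent.CYL.U
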