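import Pool.Agent.CYL.U.Vcut
import Pool.Agent.CYL.U.Fek

/-!
# CYL-U (U2): submultiplicativity up to polynomial factors

`CP_cut2`: a crossing path of `N + M` rows = crossing path of the lower `N` rows (up to its first entrance into the upper
rows) ++ middle piece ++ crossing path of the upper `M` rows (after its last exit from the lower rows). `Zc_sub`:
`Zc L l (N + M) ≤ Zc L l N * (1 + G) ^ l * Zc L l M`. `Zc_ge_rate`: lower bound of `Zc L l N` by its growth rate.
-/

namespace Pool.Agent.CYL.U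

open Pool.Agent.Hhelper14.SAW Pool.Agent.HHP Pool.Agent.QL Pool.Agent.BEX
open scoped ENNReal Topology
open Filter

variable {L l : ℕ}

/-- Sums over finite products. -/
lemma tsum_pi_fin : ∀ (l : ℕ) (X : Fin l → Type) (f : ∀ k, X k → ℝ≥0∞),
    ∑' x : (∀ k, X k), ∏ k, f k (x k) = ∏ k, ∑' y, f k y := by
  intro l
  induction l with
  | zero =>
    intro X f
    simp
  | succ l ih =>
    intro X f
    rw [← (Fin.consEquiv X).tsum_eq, Fin.prod_univ_succ, ← ih (fun k => X k.succ) (fun k => f k.succ)]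
    rw [ENNReal.tsum_prod (f := fun (a : X 0) (b : ∀ i : Fin l, X i.succ) =>
      ∏ k, f k ((Fin.consEquiv X) (a, b) k))]
    rw [← ENNReal.tsum_mul_right]
    refine tsum_congr fun a => ?_
    rw [← ENNReal.tsum_mul_left]
    refine tsum_congr fun b => ?_
    rw [Fin.prod_univ_succ]
    rfl

/-- First entrance and last exit. -/
theorem CP_cut2 {N M : ℕ} (hN : 1 ≤ N) (hM : 1 ≤ M) {c e : Fin L} {g : List (CV L)}
    (h : CP (N + M) (ub (N + M) c) (ut e) g) : ∃ (e' e'' : Fin L) (p m s : List (CV L)),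
      g = p.map (sh M) ++ (m ++ s) ∧ CP N (ub N c) (ut e') p ∧ (m = [] ∨ SP (N + M) (ub M e') m) ∧
      CP M (ub M e'') (ut e) s := by
  obtain ⟨e', p, r, h1, h2, h3, h4⟩ := CP_cut hN hM h
  obtain ⟨a1, a2, a3, a4⟩ := h3
  set S := (r.reverse.takeWhile (fun z => decide (z.1 < (M : ℤ)))) with hS
  set Q := (r.reverse.dropWhile (fun z => decide (z.1 < (M : ℤ)))) with hQ
  have hr' : r.reverse = S ++ Q := (List.takeWhile_append_dropWhile).symm
  have hr : r = Q.reverse ++ S.reverse := by
    rw [← List.reverse_append, ← hr', List.reverse_reverse]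
  have hSr : ∀ z ∈ S, z.1 < (M : ℤ) := by
    intro z hz
    have := List.mem_takeWhile_imp hz
    simpa using this
  have hSne : S ≠ [] := by
    intro hn
    have hhead : r.reverse.head? = some (ut e) := by rw [List.head?_reverse, h4]
    have h5 : r.reverse ≠ [] := by
      intro h6
      rw [h6] at hhead
      simp at hhead
    obtain ⟨x, t, hx⟩ := List.exists_cons_of_ne_nil h5
    have h6 : x = ut e := by
      rw [hx] at hhead
      simpa using hhead
    rw [hS, hx, h6, List.takeWhile_cons_of_pos] at hn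
    · simp at hn
    · simp only [ut, decide_eq_true_eq]
      exact_mod_cast hM
  have hnd := a1
  rw [hr, List.nodup_append] at hnd
  have hch := a2
  rw [hr, List.isChain_append] at hch
  have hsub : ∀ z ∈ S.reverse, z ∈ r := fun z hz => by rw [hr]; exact List.mem_append_right _ hz
  have hlast : S.reverse.getLast? = some (ut e) := by
    rw [hr, List.getLast?_append] at h4
    have : S.reverse.getLast?.isSome := by simpa using hSne
    obtain ⟨w, hw⟩ := Option.isSome_iff_exists.1 this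
    rw [hw] at h4 ⊢
    exact h4
  rcases List.eq_nil_or_concat Q.reverse with hq | ⟨Q', y, hq⟩
  · -- the path stays in the upper rows
    refine ⟨e', e', p, [], S.reverse, ?_, h2, Or.inl rfl, ⟨hnd.2.1, hch.2.1, fun z hz => ?_, ?_, hlast⟩⟩
    · rw [h1, hr, hq]
    · exact ⟨(a3 z (hsub z hz)).1, hSr z (List.mem_reverse.1 hz)⟩
    · rw [← a4, hr, hq]
      simp
  · rw [List.concat_eq_append] at hq
    have hyr : (M : ℤ) ≤ y.1 := by
      have hQne : Q ≠ [] := by
        intro h6
        rw [h6] at hq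
        simp at hq
      have h7 := List.head_dropWhile_not (fun z : CV L => decide (z.1 < (M : ℤ))) (l := r.reverse)
        (by rw [← hQ]; exact hQne)
      have h8 : (List.dropWhile (fun z : CV L => decide (z.1 < (M : ℤ))) r.reverse).head
          (by rw [← hQ]; exact hQne) = y := by
        have h9 : Q.head? = some y := by
          have : Q = (Q' ++ [y]).reverse := by rw [← hq, List.reverse_reverse]
          rw [this]
          simp
        have h10 : Q.head? = some (Q.head hQne) := List.head?_eq_some_head hQne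
        rw [h10, Option.some.injEq] at h9
        exact h9
      rw [h8] at h7
      simpa using h7
    obtain ⟨x, t, hx⟩ := List.exists_cons_of_ne_nil (by simpa using hSne : S.reverse ≠ [])
    have hxr : x.1 < (M : ℤ) := hSr x (by rw [← List.mem_reverse, hx]; simp)
    have hyx : ad y x := hch.2.2 y (by rw [hq]; simp) x (by rw [hx]; rfl)
    obtain ⟨f1, f2⟩ := ad_enter hyx hyr hxr
    refine ⟨e', y.2.1, p, Q.reverse, S.reverse, by rw [h1, ← hr], h2, Or.inr ⟨hnd.1, hch.1, fun z hz => ?_, ?_⟩,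
      ⟨hnd.2.1, hch.2.1, fun z hz => ?_, ?_, hlast⟩⟩
    · exact a3 z (by rw [hr]; exact List.mem_append_left _ hz)
    · rw [hr, hq] at a4
      rw [hq]
      rcases Q' with _ | ⟨x', Q'⟩
      · simpa using a4
      · simpa using a4
    · exact ⟨(a3 z (hsub z hz)).1, hSr z (List.mem_reverse.1 hz)⟩
    · rw [hx, f2]
      rfl

/-- Empty or a path. -/
def MP (L K : ℕ) (u : CV L) : Type := {m : List (CV L) // m = [] ∨ SP K u m}

lemma MP_le {K : ℕ} (u : CV L) {G : ℝ≥0∞} (hG : gm K u ≤ G) : ∑' m : MP L K u, xE ^ m.1.length ≤ 1 + G := by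
  have h1 : ∑' m : MP L K u, xE ^ m.1.length ≤
      ∑' m : (Unit ⊕ {m : List (CV L) // SP K u m}), Sum.elim (fun _ => 1) (fun m => xE ^ m.1.length) m := by
    refine tsum_rel _ _ (fun m s => Sum.elim (fun _ => m.1 = []) (fun q => m.1 = q.1) s) ?_ ?_
    · rintro ⟨m, hm⟩
      rcases hm with rfl | hm
      · exact ⟨Sum.inl (), rfl, by simp⟩
      · exact ⟨Sum.inr ⟨m, hm⟩, rfl, le_refl _⟩
    · rintro ⟨m, hm⟩ ⟨m', hm'⟩ (s | s) h3 h4
      · exact Subtype.ext (h3.trans h4.symm)
      · exact Subtype.ext (h3.trans h4.symm)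
  refine h1.trans ?_
  rw [Summable.tsum_sum ENNReal.summable ENNReal.summable]
  simp only [Sum.elim_inl, Sum.elim_inr]
  gcongr
  · simp
  · exact hG

/-- All families, with their starts and ends. -/
abbrev AF (L l N : ℕ) : Type := Σ c : Fin l → Fin L, Σ e : Fin l → Fin L, {g : Fin l → List (CV L) // Fam N c e g}

lemma Zc_AF (L l N : ℕ) : Zc L l N = ∑' s : AF L l N, xE ^ (∑ k, (s.2.2.1 k).length) := by
  rw [ENNReal.tsum_sigma' (fun s : AF L l N => xE ^ (∑ k, (s.2.2.1 k).length)), tsum_fintype, Zc_eq]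
  refine Finset.sum_congr rfl fun c _ => ?_
  rw [ENNReal.tsum_sigma' (fun q : Σ e : Fin l → Fin L, {g : Fin l → List (CV L) // Fam N c e g} =>
    xE ^ (∑ k, (q.2.1 k).length)), tsum_fintype]
  rfl

/-- **(U2)** Submultiplicativity. -/
theorem Zc_sub {N M : ℕ} (hN : 1 ≤ N) (hM : 1 ≤ M) {G : ℝ≥0∞} (hG : ∀ u : CV L, gm (N + M) u ≤ G) :
    Zc L l (N + M) ≤ Zc L l N * (1 + G) ^ l * Zc L l M := by
  classical
  set T := Σ P : AF L l N, (∀ k, MP L (N + M) (ub M (P.2.1 k))) × AF L l M with hT
  have h1 : Zc L l (N + M) ≤ ∑' s : T, xE ^ (∑ k, (s.1.2.2.1 k).length) *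
      ((∏ k, xE ^ (s.2.1 k).1.length) * xE ^ (∑ k, (s.2.2.2.2.1 k).length)) := by
    rw [Zc_AF]
    refine tsum_rel _ _ (fun q s => ∀ k, q.2.2.1 k = (s.1.2.2.1 k).map (sh M) ++ ((s.2.1 k).1 ++ s.2.2.2.2.1 k)) ?_ ?_
    · rintro ⟨c, e, g, hg⟩
      choose e' e'' p m s h1 h2 h3 h4 using fun k => CP_cut2 hN hM (hg.1 k)
      have hp : Fam N c e' p := by
        refine ⟨h2, fun k k' hk z hz hz' => ?_⟩
        have q1 : sh M z ∈ g k := by
          rw [h1 k]
          exact List.mem_append_left _ (List.mem_map_of_mem hz)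
        have q2 : sh M z ∈ g k' := by
          rw [h1 k']
          exact List.mem_append_left _ (List.mem_map_of_mem hz')
        exact hg.2 k k' hk q1 q2
      have hs : Fam M e'' e s := by
        refine ⟨h4, fun k k' hk z hz hz' => ?_⟩
        have q1 : z ∈ g k := by
          rw [h1 k]
          exact List.mem_append_right _ (List.mem_append_right _ hz)
        have q2 : z ∈ g k' := by
          rw [h1 k']
          exact List.mem_append_right _ (List.mem_append_right _ hz')
        exact hg.2 k k' hk q1 q2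
      refine ⟨⟨⟨c, e', p, hp⟩, ⟨fun k => ⟨m k, h3 k⟩, ⟨e'', e, s, hs⟩⟩⟩, h1, ?_⟩
      simp only
      rw [Finset.prod_pow_eq_pow_sum, ← pow_add, ← pow_add]
      apply le_of_eq
      congr 1
      rw [← Finset.sum_add_distrib, ← Finset.sum_add_distrib]
      refine Finset.sum_congr rfl fun k _ => ?_
      rw [h1 k]
      simp only [List.length_append, List.length_map]
    · rintro ⟨c, e, g, hg⟩ ⟨c', e', g', hg'⟩ s h3 h4
      simp only at h3 h4
      have hgg : g = g' := funext fun k => (h3 k).trans (h4 k).symm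
      subst hgg
      have hcc : c = c' := by
        funext k
        have r1 := (hg.1 k).2.2.2.1
        rw [(hg'.1 k).2.2.2.1, Option.some.injEq] at r1
        simpa [ub] using r1.symm
      subst hcc
      have hee : e = e' := by
        funext k
        have r1 := (hg.1 k).2.2.2.2
        rw [(hg'.1 k).2.2.2.2, Option.some.injEq] at r1
        simpa [ut] using r1.symm
      subst hee
      rfl
  refine h1.trans ?_
  rw [ENNReal.tsum_sigma' (fun s : T => xE ^ (∑ k, (s.1.2.2.1 k).length) *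
      ((∏ k, xE ^ (s.2.1 k).1.length) * xE ^ (∑ k, (s.2.2.2.2.1 k).length)))]
  rw [mul_assoc, Zc_AF L l N, ← ENNReal.tsum_mul_right]
  refine ENNReal.tsum_le_tsum fun P => ?_
  have h0 : ∑' b : (∀ k, MP L (N + M) (ub M (P.2.1 k))) × AF L l M,
      xE ^ (∑ k, (((⟨P, b⟩ : T).1).2.2.1 k).length) *
      ((∏ k, xE ^ (((⟨P, b⟩ : T).2).1 k).1.length) * xE ^ (∑ k, (((⟨P, b⟩ : T).2).2.2.2.1 k).length)) =
      ∑' b : (∀ k, MP L (N + M) (ub M (P.2.1 k))) × AF L l M, xE ^ (∑ k, (P.2.2.1 k).length) *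
      ((∏ k, xE ^ (b.1 k).1.length) * xE ^ (∑ k, (b.2.2.2.1 k).length)) := rfl
  rw [h0, ENNReal.tsum_mul_left]
  gcongr
  rw [ENNReal.tsum_prod (f := fun (a : ∀ k, MP L (N + M) (ub M (P.2.1 k))) (b : AF L l M) =>
    (∏ k, xE ^ (a k).1.length) * xE ^ (∑ k, (b.2.2.1 k).length))]
  simp_rw [ENNReal.tsum_mul_left]
  rw [ENNReal.tsum_mul_right, ← Zc_AF, tsum_pi_fin l (fun k => MP L (N + M) (ub M (P.2.1 k))) (fun k m => xE ^ m.1.length)]
  gcongr
  calc ∏ k, ∑' m : MP L (N + M) (ub M (P.2.1 k)), xE ^ m.1.length ≤ ∏ _k : Fin l, (1 + G) :=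
        Finset.prod_le_prod' fun k _ => MP_le _ (hG _)
    _ = (1 + G) ^ l := by simp

end Pool.Agent.CYL.U
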