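import Pool.Agent.CYL.D.B.Bd

/-!
# CYL-U (U1): concatenation, rotation and reflection of the crossing families

`fm_cat`: `fm N c e' * fm M e' e ≤ fm (N + M) c e`. `fm_rot`: invariance under the rotations of the cylinder. `fm_refl`:
`fm N c e = fm N e (c + N)` (reflection in a vertical axis, with the reversal of the paths). `fm_le_rate`: if
`log (Zc L l N) / N → lg` then `fm N c e ≤ exp (lg N)` for all `N ≥ 1`; `Zc_le_rate`: `Zc L l N ≤ L ^ (2 l) exp (lg N)`.
-/

namespace Pool.Agent.CYL.U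

open Pool.Agent.Hhelper14.SAW Pool.Agent.HHP Pool.Agent.QL Pool.Agent.BEX
open scoped ENNReal Topology
open Filter

variable {L l : ℕ}

/-! ### Shifts of the rows -/

/-- Shift of the rows. -/
def sh (M : ℤ) (z : CV L) : CV L := (z.1 + M, z.2)

lemma sh_inj (M : ℤ) : Function.Injective (sh (L := L) M) := by
  rintro ⟨n, j⟩ ⟨n', j'⟩ h
  simp only [sh, Prod.mk.injEq, add_left_inj] at h
  exact Prod.ext h.1 h.2

lemma ad1_sh {M : ℤ} {u v : CV L} (h : ad1 u v) : ad1 (sh M u) (sh M v) := by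
  obtain ⟨h1, h2, h3⟩ := h
  refine ⟨h1, h2, ?_⟩
  simp only [sh]
  rcases h3 with ⟨h3, h4⟩ | ⟨h3, h4⟩ | ⟨h3, h4⟩
  · left; exact ⟨by rw [h3], h4⟩
  · right; left; exact ⟨by rw [h3], h4⟩
  · right; right; exact ⟨by rw [h3]; ring, h4⟩

lemma ad_sh {M : ℤ} {u v : CV L} (h : ad u v) : ad (sh M u) (sh M v) := h.imp ad1_sh ad1_sh

lemma sh_ub (N M : ℕ) (c : Fin L) : sh M (ub N c) = ub (N + M) c := by
  simp only [sh, ub]
  push_cast
  refine Prod.ext ?_ rfl
  simp only
  ring

/-- The edge between two pieces. -/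
lemma ad_join (M : ℕ) (e : Fin L) : ad (sh M (ut e)) (ub M e) := by
  left
  refine ⟨rfl, rfl, Or.inr (Or.inr ⟨?_, rfl⟩)⟩
  simp [sh, ut, ub]

/-! ### Concatenation -/

/-- Concatenation of crossing paths. -/
theorem CP_cat {N M : ℕ} {c e' e : Fin L} {g1 g2 : List (CV L)} (h1 : CP N (ub N c) (ut e') g1)
    (h2 : CP M (ub M e') (ut e) g2) : CP (N + M) (ub (N + M) c) (ut e) (g1.map (sh M) ++ g2) := by
  obtain ⟨a1, a2, a3, a4, a5⟩ := h1
  obtain ⟨b1, b2, b3, b4, b5⟩ := h2
  have hdis : ∀ z ∈ g1.map (sh (M : ℤ)), z ∉ g2 := by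
    intro z hz hz'
    obtain ⟨w, hw, rfl⟩ := List.mem_map.1 hz
    have h3 := (a3 w hw).1
    have h4 := (b3 _ hz').2
    simp only [sh] at h4
    omega
  refine ⟨?_, ?_, ?_, ?_, ?_⟩
  · rw [List.nodup_append]
    refine ⟨a1.map (sh_inj _), b1, ?_⟩
    rintro z hz w hw rfl
    exact hdis z hz hw
  · rw [List.isChain_append]
    refine ⟨?_, b2, ?_⟩
    · rw [List.isChain_map]
      exact a2.imp fun _ _ h => ad_sh h
    · intro x hx y hy
      rw [List.getLast?_map, a5] at hx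
      rw [b4] at hy
      simp only [Option.map_some, Option.mem_some_iff] at hx hy
      subst hx hy
      exact ad_join M e'
  · intro z hz
    rcases List.mem_append.1 hz with hz | hz
    · obtain ⟨w, hw, rfl⟩ := List.mem_map.1 hz
      have := a3 w hw
      simp only [sh]
      push_cast
      constructor <;> omega
    · have := b3 z hz
      push_cast
      constructor <;> omega
  · rw [List.head?_append, List.head?_map, a4, Option.map_some, sh_ub]
    rfl
  · rw [List.getLast?_append, b5]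
    rfl

/-- The two parts are determined by the concatenation. -/
lemma cat_inj {M : ℕ} {g1 g2 g1' g2' : List (CV L)} (h1 : ∀ z ∈ g1, 0 ≤ z.1) (h1' : ∀ z ∈ g1', 0 ≤ z.1)
    (h2 : ∀ z ∈ g2, z.1 < M) (h2' : ∀ z ∈ g2', z.1 < M) (h : g1.map (sh M) ++ g2 = g1'.map (sh M) ++ g2') :
    g1 = g1' ∧ g2 = g2' := by
  have key : ∀ a b : List (CV L), (∀ z ∈ a, 0 ≤ z.1) → (∀ z ∈ b, z.1 < M) →
      (a.map (sh M) ++ b).filter (fun z => decide ((M : ℤ) ≤ z.1)) = a.map (sh M) ∧
      (a.map (sh M) ++ b).filter (fun z => decide (z.1 < (M : ℤ))) = b := by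
    intro a b ha hb
    constructor
    · rw [List.filter_append, List.filter_eq_self.2, List.filter_eq_nil_iff.2, List.append_nil]
      · intro z hz
        have := hb z hz
        simp only [decide_eq_true_eq, not_le]
        exact this
      · intro z hz
        obtain ⟨w, hw, rfl⟩ := List.mem_map.1 hz
        have := ha w hw
        simp only [sh, decide_eq_true_eq]
        omega
    · rw [List.filter_append, List.filter_eq_nil_iff.2, List.filter_eq_self.2, List.nil_append]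
      · intro z hz
        have := hb z hz
        simpa using this
      · intro z hz
        obtain ⟨w, hw, rfl⟩ := List.mem_map.1 hz
        have := ha w hw
        simp only [sh, decide_eq_true_eq]
        omega
  have k1 := key g1 g2 h1 h2
  have k2 := key g1' g2' h1' h2'
  rw [h] at k1
  refine ⟨?_, k1.2.symm.trans k2.2⟩
  exact List.map_injective_iff.2 (sh_inj _) (k1.1.symm.trans k2.1)

/-- Supermultiplicativity. -/
theorem fm_cat (N M : ℕ) (c e' e : Fin l → Fin L) : fm N c e' * fm M e' e ≤ fm (N + M) c e := by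
  have h1 : fm N c e' * fm M e' e = ∑' p : {g : Fin l → List (CV L) // Fam N c e' g} ×
      {g : Fin l → List (CV L) // Fam M e' e g}, xE ^ (∑ k, (p.1.1 k).length) * xE ^ (∑ k, (p.2.1 k).length) := by
    unfold fm
    rw [ENNReal.tsum_prod (f := fun (a : {g : Fin l → List (CV L) // Fam N c e' g})
      (b : {g : Fin l → List (CV L) // Fam M e' e g}) => xE ^ (∑ k, (a.1 k).length) * xE ^ (∑ k, (b.1 k).length))]
    simp_rw [ENNReal.tsum_mul_left]
    rw [ENNReal.tsum_mul_right]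
  rw [h1]
  unfold fm
  refine tsum_rel _ _ (fun p g => ∀ k, g.1 k = (p.1.1 k).map (sh M) ++ p.2.1 k) ?_ ?_
  · rintro ⟨⟨g1, hg1⟩, ⟨g2, hg2⟩⟩
    refine ⟨⟨fun k => (g1 k).map (sh M) ++ g2 k, fun k => CP_cat (hg1.1 k) (hg2.1 k), ?_⟩, fun k => rfl, ?_⟩
    · intro k k' hk z hz hz'
      rcases List.mem_append.1 hz with hz | hz <;> rcases List.mem_append.1 hz' with hz' | hz'
      · obtain ⟨w, hw, rfl⟩ := List.mem_map.1 hz
        obtain ⟨w', hw', h⟩ := List.mem_map.1 hz'
        rw [sh_inj _ h] at hw'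
        exact hg1.2 k k' hk hw hw'
      · obtain ⟨w, hw, rfl⟩ := List.mem_map.1 hz
        have h3 := ((hg1.1 k).2.2.1 w hw).1
        have h4 := ((hg2.1 k').2.2.1 _ hz').2
        simp only [sh] at h4
        omega
      · obtain ⟨w, hw, rfl⟩ := List.mem_map.1 hz'
        have h3 := ((hg1.1 k').2.2.1 w hw).1
        have h4 := ((hg2.1 k).2.2.1 _ hz).2
        simp only [sh] at h4
        omega
      · exact hg2.2 k k' hk hz hz'
    · simp only [List.length_append, List.length_map, Finset.sum_add_distrib, pow_add, le_refl]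
  · rintro ⟨⟨g1, hg1⟩, ⟨g2, hg2⟩⟩ ⟨⟨g1', hg1'⟩, ⟨g2', hg2'⟩⟩ ⟨g, hg⟩ h3 h4
    simp only at h3 h4
    have h5 : ∀ k, g1 k = g1' k ∧ g2 k = g2' k := fun k =>
      cat_inj (fun z hz => ((hg1.1 k).2.2.1 z hz).1) (fun z hz => ((hg1'.1 k).2.2.1 z hz).1)
        (fun z hz => ((hg2.1 k).2.2.1 z hz).2) (fun z hz => ((hg2'.1 k).2.2.1 z hz).2)
        ((h3 k).symm.trans (h4 k))
    exact Prod.ext (Subtype.ext (funext fun k => (h5 k).1)) (Subtype.ext (funext fun k => (h5 k).2))

/-! ### Rotation -/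

/-- Rotation of the cylinder. -/
def rt (t : ℤ) (z : CV L) : CV L := (z.1, md z.2.1 t, z.2.2)

lemma rt_rt (s t : ℤ) (z : CV L) : rt s (rt t z) = rt (t + s) z := by
  simp only [rt, md_md]

lemma rt_zero (z : CV L) : rt 0 z = z := by
  simp only [rt, md_zero]

lemma rt_inj (t : ℤ) : Function.Injective (rt (L := L) t) := by
  intro u v h
  have := congrArg (rt (-t)) h
  rwa [rt_rt, rt_rt, add_neg_cancel, rt_zero, rt_zero] at this

lemma ad1_rt {t : ℤ} {u v : CV L} (h : ad1 u v) : ad1 (rt t u) (rt t v) := by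
  obtain ⟨h1, h2, h3⟩ := h
  refine ⟨h1, h2, ?_⟩
  simp only [rt]
  rcases h3 with ⟨h3, h4⟩ | ⟨h3, h4⟩ | ⟨h3, h4⟩
  · left; exact ⟨h3, by rw [h4]⟩
  · right; left
    refine ⟨h3, ?_⟩
    rw [← h4, md_md, md_md, add_comm]
  · right; right; exact ⟨h3, by rw [h4]⟩

lemma ad_rt {t : ℤ} {u v : CV L} (h : ad u v) : ad (rt t u) (rt t v) := h.imp ad1_rt ad1_rt

theorem CP_rt {N : ℕ} (t : ℤ) {u v : CV L} {g : List (CV L)} (h : CP N u v g) :
    CP N (rt t u) (rt t v) (g.map (rt t)) := by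
  obtain ⟨a1, a2, a3, a4, a5⟩ := h
  refine ⟨a1.map (rt_inj _), ?_, ?_, ?_, ?_⟩
  · rw [List.isChain_map]
    exact a2.imp fun _ _ h => ad_rt h
  · intro z hz
    obtain ⟨w, hw, rfl⟩ := List.mem_map.1 hz
    exact a3 w hw
  · rw [List.head?_map, a4, Option.map_some]
  · rw [List.getLast?_map, a5, Option.map_some]

/-- The rotated starts. -/
def rc (t : ℤ) (c : Fin l → Fin L) : Fin l → Fin L := fun k => md (c k) t

lemma rc_rc (s t : ℤ) (c : Fin l → Fin L) : rc s (rc t c) = rc (t + s) c := by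
  funext k
  simp only [rc, md_md]

lemma rc_zero (c : Fin l → Fin L) : rc 0 c = c := by
  funext k
  simp only [rc, md_zero]

theorem fm_rot_le (N : ℕ) (t : ℤ) (c e : Fin l → Fin L) : fm N c e ≤ fm N (rc t c) (rc t e) := by
  unfold fm
  refine tsum_rel _ _ (fun p g => ∀ k, g.1 k = (p.1 k).map (rt t)) ?_ ?_
  · rintro ⟨g, hg⟩
    refine ⟨⟨fun k => (g k).map (rt t), fun k => CP_rt t (hg.1 k), ?_⟩, fun k => rfl, by simp⟩
    intro k k' hk z hz hz'
    obtain ⟨w, hw, rfl⟩ := List.mem_map.1 hz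
    obtain ⟨w', hw', h⟩ := List.mem_map.1 hz'
    rw [rt_inj _ h] at hw'
    exact hg.2 k k' hk hw hw'
  · rintro ⟨g, hg⟩ ⟨g', hg'⟩ ⟨f, hf⟩ h3 h4
    simp only at h3 h4
    exact Subtype.ext (funext fun k => List.map_injective_iff.2 (rt_inj t) ((h3 k).symm.trans (h4 k)))

theorem fm_rot (N : ℕ) (t : ℤ) (c e : Fin l → Fin L) : fm N (rc t c) (rc t e) = fm N c e := by
  refine le_antisymm ?_ (fm_rot_le N t c e)
  have := fm_rot_le N (-t) (rc t c) (rc t e)
  rwa [rc_rc, rc_rc, add_neg_cancel, rc_zero, rc_zero] at this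

/-! ### Reflection -/

/-- Reflection of the cylinder of `N` rows in a vertical axis (the two boundary circles are exchanged). -/
def rf (N : ℕ) (z : CV L) : CV L := ((N : ℤ) - 1 - z.1, md z.2.1 (if z.2.2 then z.1 else z.1 + 1), !z.2.2)

lemma rf_inj (N : ℕ) : Function.Injective (rf (L := L) N) := by
  rintro ⟨n, j, b⟩ ⟨n', j', b'⟩ h
  simp only [rf, Prod.mk.injEq] at h
  obtain ⟨h1, h2, h3⟩ := h
  have h1' : n = n' := by omega
  simp only [Bool.not_inj_iff] at h3
  subst h1' h3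
  have h4 := congrArg (fun k => md k (-(if b = true then n else n + 1))) h2
  simp only [md_md, add_neg_cancel, md_zero] at h4
  rw [h4]

lemma ad1_rf {N : ℕ} {u v : CV L} (h : ad1 u v) : ad1 (rf N v) (rf N u) := by
  obtain ⟨n, j, b⟩ := u
  obtain ⟨n', j', b'⟩ := v
  obtain ⟨h1, h2, h3⟩ := h
  simp only at h1 h2 h3
  subst h1 h2
  refine ⟨rfl, rfl, ?_⟩
  simp only [rf, if_true, Bool.false_eq_true, if_false]
  rcases h3 with ⟨rfl, rfl⟩ | ⟨rfl, rfl⟩ | ⟨rfl, rfl⟩
  · right; left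
    refine ⟨rfl, ?_⟩
    rw [md_md]
  · left
    refine ⟨rfl, ?_⟩
    rw [md_md, add_comm]
  · right; right
    refine ⟨by ring, ?_⟩
    congr 1
    ring

lemma ad_rf {N : ℕ} {u v : CV L} (h : ad u v) : ad (rf N u) (rf N v) := (h.imp ad1_rf ad1_rf).symm

lemma rf_ub (N : ℕ) (c : Fin L) : rf N (ub N c) = ut (md c N) := by
  simp [rf, ub, ut]

lemma rf_ut (N : ℕ) (e : Fin L) : rf N (ut e) = ub N e := by
  simp [rf, ub, ut, md_zero]

theorem CP_rf {N : ℕ} {c e : Fin L} {g : List (CV L)} (h : CP N (ub N c) (ut e) g) :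
    CP N (ub N e) (ut (md c N)) ((g.map (rf N)).reverse) := by
  apply CP_rev
  obtain ⟨a1, a2, a3, a4, a5⟩ := h
  refine ⟨a1.map (rf_inj _), ?_, ?_, ?_, ?_⟩
  · rw [List.isChain_map]
    exact a2.imp fun _ _ h => ad_rf h
  · intro z hz
    obtain ⟨w, hw, rfl⟩ := List.mem_map.1 hz
    have := a3 w hw
    simp only [rf]
    constructor <;> omega
  · rw [List.head?_map, a4, Option.map_some, rf_ub]
  · rw [List.getLast?_map, a5, Option.map_some, rf_ut]

theorem fm_refl_le (N : ℕ) (c e : Fin l → Fin L) : fm N c e ≤ fm N e (rc N c) := by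
  unfold fm
  refine tsum_rel _ _ (fun p g => ∀ k, g.1 k = ((p.1 k).map (rf N)).reverse) ?_ ?_
  · rintro ⟨g, hg⟩
    refine ⟨⟨fun k => ((g k).map (rf N)).reverse, fun k => CP_rf (hg.1 k), ?_⟩, fun k => rfl, by simp⟩
    intro k k' hk z hz hz'
    obtain ⟨w, hw, rfl⟩ := List.mem_map.1 (List.mem_reverse.1 hz)
    obtain ⟨w', hw', h⟩ := List.mem_map.1 (List.mem_reverse.1 hz')
    rw [rf_inj _ h] at hw'
    exact hg.2 k k' hk hw hw'
  · rintro ⟨g, hg⟩ ⟨g', hg'⟩ ⟨f, hf⟩ h3 h4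
    simp only at h3 h4
    exact Subtype.ext (funext fun k => List.map_injective_iff.2 (rf_inj N)
      (List.reverse_injective ((h3 k).symm.trans (h4 k))))

/-! ### Upper bounds by the growth rate -/

/-- Powers. -/
theorem fm_pow_le (M : ℕ) (t : ℤ) (c : Fin l → Fin L) (k : ℕ) :
    fm M c (rc t c) ^ (k + 1) ≤ fm ((k + 1) * M) c (rc ((k + 1 : ℕ) * t) c) := by
  induction k with
  | zero => simp
  | succ k ih =>
    calc fm M c (rc t c) ^ (k + 1 + 1) = fm M c (rc t c) ^ (k + 1) * fm M c (rc t c) := pow_succ _ _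
      _ ≤ fm ((k + 1) * M) c (rc ((k + 1 : ℕ) * t) c) *
          fm M (rc ((k + 1 : ℕ) * t) c) (rc ((k + 1 : ℕ) * t) (rc t c)) := by
          gcongr
          exact fm_rot_le M _ c (rc t c)
      _ ≤ fm ((k + 1) * M + M) c (rc ((k + 1 : ℕ) * t) (rc t c)) := fm_cat _ _ _ _ _
      _ = _ := by
          rw [rc_rc]
          congr 2
          · ring
          · push_cast; ring

theorem fm_le_Zc (N : ℕ) (c e : Fin l → Fin L) : fm N c e ≤ Zc L l N :=
  (Finset.single_le_sum (f := fun e : Fin l → Fin L => fm N c e) (fun _ _ => zero_le) (Finset.mem_univ e)).trans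
    (sum_fm_le c)

/-- The mass for fixed ends is at most the power of the growth rate. -/
theorem fm_le_rate (hl : l = 1 ∨ l = 2) {lg : ℝ}
    (hZ : Tendsto (fun N : ℕ => Real.log (Zc L l N).toReal / N) atTop (𝓝 lg)) {N : ℕ} (hN : 1 ≤ N)
    (c e : Fin l → Fin L) : (fm N c e).toReal ≤ Real.exp (lg * N) := by
  rcases (ENNReal.toReal_nonneg (a := fm N c e)).eq_or_lt with h0 | hpos
  · rw [← h0]
    exact (Real.exp_pos _).le
  have hN' : (0 : ℝ) < N := by exact_mod_cast hN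
  set a : ℝ := (fm N c e).toReal with ha
  have h1 : ∀ k : ℕ, a ^ (2 * (k + 1)) ≤ (Zc L l ((k + 1) * (N + N))).toReal := by
    intro k
    have h2 : fm N c e ^ (2 * (k + 1)) ≤ Zc L l ((k + 1) * (N + N)) := by
      calc fm N c e ^ (2 * (k + 1)) = (fm N c e * fm N c e) ^ (k + 1) := by rw [pow_mul, sq]
        _ ≤ (fm N c e * fm N e (rc N c)) ^ (k + 1) := by
            gcongr
            exact fm_refl_le N c e
        _ ≤ (fm (N + N) c (rc N c)) ^ (k + 1) := by
            gcongr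
            exact fm_cat _ _ _ _ _
        _ ≤ fm ((k + 1) * (N + N)) c (rc ((k + 1 : ℕ) * N) c) := fm_pow_le _ _ _ _
        _ ≤ _ := fm_le_Zc _ _ _
    have h3 := ENNReal.toReal_mono (Zc_ne_top hl _) h2
    rwa [ENNReal.toReal_pow] at h3
  have h2 : ∀ k : ℕ, Real.log a / N ≤ Real.log (Zc L l ((k + 1) * (N + N))).toReal / (((k + 1) * (N + N) : ℕ) : ℝ) := by
    intro k
    have h3 := Real.log_le_log (pow_pos hpos _) (h1 k)
    rw [Real.log_pow] at h3
    have h4 : (0 : ℝ) < (((k + 1) * (N + N) : ℕ) : ℝ) := by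
      push_cast
      positivity
    rw [div_le_div_iff₀ hN' h4]
    push_cast at h3 ⊢
    nlinarith
  have h3 : Tendsto (fun k : ℕ => (k + 1) * (N + N)) atTop atTop := by
    refine tendsto_atTop_mono (fun k => ?_) tendsto_id
    simp only [id]
    nlinarith
  have h4 := ge_of_tendsto' (hZ.comp h3) h2
  rw [div_le_iff₀ hN'] at h4
  calc a = Real.exp (Real.log a) := (Real.exp_log hpos).symm
    _ ≤ Real.exp (lg * N) := Real.exp_le_exp.2 h4

/-- **(U1)** The mass of all families is at most `L ^ (2 l)` times the power of the growth rate. -/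
theorem Zc_le_rate (hl : l = 1 ∨ l = 2) {lg : ℝ}
    (hZ : Tendsto (fun N : ℕ => Real.log (Zc L l N).toReal / N) atTop (𝓝 lg)) {N : ℕ} (hN : 1 ≤ N) :
    (Zc L l N).toReal ≤ (L : ℝ) ^ (2 * l) * Real.exp (lg * N) := by
  rw [Zc_eq, ENNReal.toReal_sum fun c _ => sum_fm_ne_top hl N c]
  have h1 : ∀ c : Fin l → Fin L, (∑ e : Fin l → Fin L, fm N c e).toReal ≤ (L : ℝ) ^ l * Real.exp (lg * N) := by
    intro c
    rw [ENNReal.toReal_sum fun e _ => fm_ne_top hl N c e]
    refine (Finset.sum_le_card_nsmul _ _ _ fun e _ => fm_le_rate hl hZ hN c e).trans (le_of_eq ?_)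
    rw [Finset.card_univ, Fintype.card_fun, Fintype.card_fin, Fintype.card_fin, nsmul_eq_mul]
    push_cast
    rfl
  refine (Finset.sum_le_card_nsmul _ _ _ fun c _ => h1 c).trans (le_of_eq ?_)
  rw [Finset.card_univ, Fintype.card_fun, Fintype.card_fin, Fintype.card_fin, nsmul_eq_mul]
  push_cast
  ring

end Pool.Agent.CYL.U
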