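import Pool.Agent.CYL.U.Rer
import Pool.Agent.CYL.U.G

/-!
# CYL-U (b): cutting the pairs from the same vertex

`CP_cut`: a crossing path of `N + M` rows = crossing path of the lower `N` rows ++ a path which starts in the row `M - 1`.
`vm_cut`: `vm (N + M) c ≤ vm N c * G ^ 2`, `G` a bound of the masses `gm (N + M) u`. `vm_rot`: rotation invariance.
`reroot_le`: the conclusion of (a) and (b).
-/

namespace Pool.Agent.CYL.U

open Pool.Agent.Hhelper14.SAW Pool.Agent.HHP Pool.Agent.QL Pool.Agent.BEX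
open scoped ENNReal

variable {L : ℕ}

lemma sh_sh (M K : ℤ) (z : CV L) : sh K (sh M z) = sh (M + K) z := by
  simp only [sh]
  refine Prod.ext ?_ rfl
  simp only
  ring

lemma sh_zero (z : CV L) : sh 0 z = z := by
  simp [sh]

/-- The edge which enters the upper rows. -/
lemma ad_enter {M : ℤ} {x y : CV L} (h : ad y x) (hy : M ≤ y.1) (hx : x.1 < M) :
    y = (M, y.2.1, true) ∧ x = (M - 1, y.2.1, false) := by
  obtain ⟨n, j, b⟩ := y
  obtain ⟨n', j', b'⟩ := x
  simp only at hx hy ⊢
  rcases h with ⟨h1, h2, h3⟩ | ⟨h1, h2, h3⟩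
  · simp only at h1 h2 h3
    rcases h3 with ⟨h3, -⟩ | ⟨h3, -⟩ | ⟨h3, h4⟩
    · omega
    · omega
    · have e : n = M := by omega
      subst h1 h2 h4 e
      exact ⟨rfl, by rw [h3]⟩
  · simp only at h1 h2 h3
    rcases h3 with ⟨h3, -⟩ | ⟨h3, -⟩ | ⟨h3, -⟩ <;> omega

/-- First entrance into the upper `M` rows. -/
theorem CP_cut {N M : ℕ} (hN : 1 ≤ N) (hM : 1 ≤ M) {c e : Fin L} {g : List (CV L)}
    (h : CP (N + M) (ub (N + M) c) (ut e) g) : ∃ (e' : Fin L) (p r : List (CV L)), g = p.map (sh M) ++ r ∧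
      CP N (ub N c) (ut e') p ∧ SP (N + M) (ub M e') r ∧ r.getLast? = some (ut e) := by
  obtain ⟨a1, a2, a3, a4, a5⟩ := h
  set P := g.takeWhile (fun z => decide ((M : ℤ) ≤ z.1)) with hP
  set R := g.dropWhile (fun z => decide ((M : ℤ) ≤ z.1)) with hR
  have hg : g = P ++ R := (List.takeWhile_append_dropWhile).symm
  have hPr : ∀ z ∈ P, (M : ℤ) ≤ z.1 := by
    intro z hz
    have := List.mem_takeWhile_imp hz
    simpa using this
  have hRne : R ≠ [] := by
    intro hn
    rw [hn, List.append_nil] at hg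
    have h1 : ut e ∈ g := List.mem_of_getLast? a5
    have h2 := hPr (ut e) (hg ▸ h1)
    simp only [ut] at h2
    omega
  have hPne : P ≠ [] := by
    intro hn
    rw [hn, List.nil_append] at hg
    obtain ⟨x, r, hx⟩ := List.exists_cons_of_ne_nil hRne
    have h1 : ¬ (M : ℤ) ≤ x.1 := by
      have := List.head_dropWhile_not (fun z : CV L => decide ((M : ℤ) ≤ z.1)) (l := g) (by rw [← hR]; exact hRne)
      have h2 : (List.dropWhile (fun z : CV L => decide ((M : ℤ) ≤ z.1)) g).head (by rw [← hR]; exact hRne) = x := by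
        simp only [← hR, hx, List.head_cons]
      rw [h2] at this
      simpa using this
    rw [hg, hx] at a4
    simp only [List.head?_cons, Option.some.injEq] at a4
    subst a4
    apply h1
    simp only [ub]
    push_cast
    omega
  obtain ⟨x, R', hx⟩ := List.exists_cons_of_ne_nil hRne
  have hxr : x.1 < M := by
    have := List.head_dropWhile_not (fun z : CV L => decide ((M : ℤ) ≤ z.1)) (l := g) (by rw [← hR]; exact hRne)
    have h2 : (List.dropWhile (fun z : CV L => decide ((M : ℤ) ≤ z.1)) g).head (by rw [← hR]; exact hRne) = x := by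
      simp only [← hR, hx, List.head_cons]
    rw [h2] at this
    simpa using this
  obtain ⟨y, hy⟩ : ∃ y, P.getLast? = some y := by
    have : P.getLast?.isSome := by simpa using hPne
    exact Option.isSome_iff_exists.1 this
  have hyP : y ∈ P := List.mem_of_getLast? hy
  have hch := a2
  rw [hg, List.isChain_append] at hch
  have hyx : ad y x := hch.2.2 y (by rw [hy]; rfl) x (by rw [hx]; rfl)
  obtain ⟨e1, e2⟩ := ad_enter hyx (hPr y hyP) hxr
  set j := y.2.1 with hj
  have hPsub : ∀ z ∈ P, z ∈ g := fun z hz => by rw [hg]; exact List.mem_append_left _ hz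
  have hRsub : ∀ z ∈ R, z ∈ g := fun z hz => by rw [hg]; exact List.mem_append_right _ hz
  have hnd := a1
  rw [hg, List.nodup_append] at hnd
  have hback : (P.map (sh (-(M : ℤ)))).map (sh M) = P := by
    rw [List.map_map]
    conv_rhs => rw [← List.map_id P]
    refine List.map_congr_left fun z _ => ?_
    simp only [Function.comp, sh_sh, neg_add_cancel, sh_zero, id]
  refine ⟨j, P.map (sh (-(M : ℤ))), R, ?_, ⟨?_, ?_, ?_, ?_, ?_⟩, ⟨hnd.2.1, hch.2.1, fun z hz => ?_, ?_⟩, ?_⟩
  · rw [hback]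
    exact hg
  · exact hnd.1.map (sh_inj _)
  · rw [List.isChain_map]
    exact hch.1.imp fun _ _ h => ad_sh h
  · intro z hz
    obtain ⟨w, hw, rfl⟩ := List.mem_map.1 hz
    have h1 := hPr w hw
    have h2 := (a3 w (hPsub w hw)).2
    simp only [sh]
    push_cast at h2
    constructor <;> omega
  · obtain ⟨p, P', hp⟩ := List.exists_cons_of_ne_nil hPne
    rw [hg, hp] at a4
    simp only [List.cons_append, List.head?_cons, Option.some.injEq] at a4
    rw [hp, List.map_cons, List.head?_cons, a4]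
    simp only [sh, ub, Option.some.injEq]
    refine Prod.ext ?_ rfl
    push_cast
    ring
  · rw [List.getLast?_map, hy, e1]
    simp [sh, ut]
  · exact a3 z (hRsub z hz)
  · rw [hx, e2]
    rfl
  · rw [hg, List.getLast?_append, hx] at a5
    rw [hx]
    have : (x :: R').getLast?.isSome := by simp
    obtain ⟨w, hw⟩ := Option.isSome_iff_exists.1 this
    rw [hw] at a5 ⊢
    exact a5

/-- The start of the rest after the crossing path `p`. -/
def nx {L : ℕ} (M : ℕ) (c : Fin L) (p : List (CV L)) : CV L := ub M (p.getLast?.getD (ut c)).2.1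

lemma nx_eq {N M : ℕ} {c e' : Fin L} {u : CV L} {p : List (CV L)} (h : CP N u (ut e') p) : nx M c p = ub M e' := by
  unfold nx
  rw [h.2.2.2.2]
  rfl

/-- **(b)** Cutting the pairs from the same vertex. -/
theorem vm_cut {N M : ℕ} (hN : 1 ≤ N) (hM : 1 ≤ M) (c : Fin L) {G : ℝ≥0∞} (hG : ∀ u : CV L, gm (N + M) u ≤ G) :
    vm (N + M) c ≤ vm N c * G ^ 2 := by
  set T := Σ q : VP (L := L) N c, {r : List (CV L) // SP (N + M) (nx M c q.1.1) r} ×
    {r : List (CV L) // SP (N + M) (nx M c q.1.2) r} with hT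
  have h1 : vm (N + M) c ≤ ∑' s : T, xE ^ (s.1.1.1.length + s.1.1.2.length) *
      (xE ^ s.2.1.1.length * xE ^ s.2.2.1.length) := by
    unfold vm
    refine tsum_rel _ _ (fun q s => q.1.1 = s.1.1.1.map (sh M) ++ s.2.1.1 ∧
      q.1.2 = s.1.1.2.map (sh M) ++ s.2.2.1) ?_ ?_
    · rintro ⟨⟨g1, g2⟩, ⟨e1, h1⟩, ⟨e2, h2⟩, h3⟩
      simp only at h1 h2 h3
      obtain ⟨f1, p1, r1, a1, b1, c1, -⟩ := CP_cut hN hM h1
      obtain ⟨f2, p2, r2, a2, b2, c2, -⟩ := CP_cut hN hM h2
      have hVP : (p1, p2) ∈ VP N c := by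
        refine ⟨⟨f1, b1⟩, ⟨f2, b2⟩, ?_⟩
        intro z hz hz'
        refine h3 (sh M z) ?_ ?_
        · rw [a1]
          rcases p1 with _ | ⟨y, p1⟩
          · simp at hz
          · simp only [List.tail_cons] at hz
            simp only [List.map_cons, List.cons_append, List.tail_cons]
            exact List.mem_append_left _ (List.mem_map_of_mem hz)
        · rw [a2]
          exact List.mem_append_left _ (List.mem_map_of_mem hz')
      refine ⟨⟨⟨(p1, p2), hVP⟩, ⟨r1, ?_⟩, ⟨r2, ?_⟩⟩, ⟨a1, a2⟩, ?_⟩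
      · simp only
        rw [nx_eq b1]
        exact c1
      · simp only
        rw [nx_eq b2]
        exact c2
      · simp only
        rw [a1, a2]
        simp only [List.length_append, List.length_map]
        apply le_of_eq
        ring
    · rintro ⟨⟨g1, g2⟩, hg⟩ ⟨⟨g1', g2'⟩, hg'⟩ ⟨q, r⟩ h3 h4
      simp only at h3 h4
      refine Subtype.ext (Prod.ext ?_ ?_)
      · simp only
        rw [h3.1, h4.1]
      · simp only
        rw [h3.2, h4.2]
  refine h1.trans ?_
  rw [ENNReal.tsum_sigma' (fun s : T => xE ^ (s.1.1.1.length + s.1.1.2.length) *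
      (xE ^ s.2.1.1.length * xE ^ s.2.2.1.length))]
  unfold vm
  rw [← ENNReal.tsum_mul_right]
  refine ENNReal.tsum_le_tsum fun q => ?_
  have h0 : ∑' b : {r : List (CV L) // SP (N + M) (nx M c q.1.1) r} × {r : List (CV L) // SP (N + M) (nx M c q.1.2) r},
      xE ^ (((⟨q, b⟩ : T).1).1.1.length + ((⟨q, b⟩ : T).1).1.2.length) *
        (xE ^ ((⟨q, b⟩ : T).2).1.1.length * xE ^ ((⟨q, b⟩ : T).2).2.1.length) =
      ∑' b : {r : List (CV L) // SP (N + M) (nx M c q.1.1) r} × {r : List (CV L) // SP (N + M) (nx M c q.1.2) r},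
        xE ^ (q.1.1.length + q.1.2.length) * (xE ^ b.1.1.length * xE ^ b.2.1.length) := rfl
  rw [h0, ENNReal.tsum_mul_left]
  gcongr
  rw [ENNReal.tsum_prod (f := fun (a : {r : List (CV L) // SP (N + M) (nx M c q.1.1) r})
    (b : {r : List (CV L) // SP (N + M) (nx M c q.1.2) r}) => xE ^ a.1.length * xE ^ b.1.length)]
  simp_rw [ENNReal.tsum_mul_left]
  rw [ENNReal.tsum_mul_right, sq]
  exact mul_le_mul' (hG _) (hG _)

/-! ### Rotation invariance -/

theorem vm_rot_le (N : ℕ) (t : ℤ) (c : Fin L) : vm N c ≤ vm N (md c t) := by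
  unfold vm
  refine tsum_rel _ _ (fun q s => s.1.1 = q.1.1.map (rt t) ∧ s.1.2 = q.1.2.map (rt t)) ?_ ?_
  · rintro ⟨⟨g1, g2⟩, ⟨e1, h1⟩, ⟨e2, h2⟩, h3⟩
    simp only at h1 h2 h3
    refine ⟨⟨(g1.map (rt t), g2.map (rt t)), ⟨md e1 t, CP_rt t h1⟩, ⟨md e2 t, CP_rt t h2⟩, ?_⟩, ⟨rfl, rfl⟩, by simp⟩
    intro z hz hz'
    simp only at hz hz'
    rw [← List.map_tail] at hz
    obtain ⟨w, hw, rfl⟩ := List.mem_map.1 hz
    obtain ⟨w', hw', h⟩ := List.mem_map.1 hz'
    rw [rt_inj _ h] at hw'
    exact h3 w hw hw'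
  · rintro ⟨⟨g1, g2⟩, hg⟩ ⟨⟨g1', g2'⟩, hg'⟩ ⟨q, hq⟩ h3 h4
    simp only at h3 h4
    have k1 := List.map_injective_iff.2 (rt_inj t) (h3.1.symm.trans h4.1)
    have k2 := List.map_injective_iff.2 (rt_inj t) (h3.2.symm.trans h4.2)
    exact Subtype.ext (Prod.ext k1 k2)

theorem vm_rot (N : ℕ) (c c' : Fin L) : vm N c = vm N c' := by
  have key : ∀ c c' : Fin L, vm N c ≤ vm N c' := by
    intro c c'
    have h := vm_rot_le N ((c' : ℤ) - c) c
    have e : md c ((c' : ℤ) - c) = c' := by
      apply md_ext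
      rw [md_val]
      have : (c : ℤ) + (c' - c) = c' := by ring
      rw [this]
      exact Int.emod_eq_of_lt (by positivity) (by exact_mod_cast c'.2)
    rwa [e] at h
  exact le_antisymm (key c c') (key c' c)

/-! ### Conclusion -/

/-- `A` is a lower bound of the masses of the arcs of depth at most `M`, `G` an upper bound of the masses of all paths with
a given start in `N + M` rows. -/
theorem reroot_le {N M : ℕ} (hN : 1 ≤ N) (c : Fin L) {A G : ℝ≥0∞}
    (hA : ∀ a b : Fin L, a ≠ b → A ≤ cm M (ut a) (ut b)) (hG : ∀ m ≤ M, ∀ u : CV L, gm (N + m) u ≤ G) :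
    xE * A * Zc L 2 N ≤ M * L * G ^ 2 * vm N c := by
  classical
  have h1 : xE * A * Zc L 2 N ≤ xE * ∑ c ∈ (Finset.univ : Finset (Fin 2 → Fin L)).filter (fun c => c 0 ≠ c 1),
      (cm M (ut (c 0)) (ut (c 1)) * ∑ e, fm N c e) := by
    rw [mul_assoc]
    gcongr
    rw [Zc_eq, Finset.mul_sum, Finset.sum_filter]
    refine Finset.sum_le_sum fun c _ => ?_
    split_ifs with h
    · gcongr
      exact hA _ _ h
    · have : ∑ e : Fin 2 → Fin L, fm N c e = 0 := by
        refine Finset.sum_eq_zero fun e _ => ?_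
        refine fm_zero_left fun hi => ?_
        rw [not_not] at h
        exact absurd (hi h) (by decide)
      rw [this, mul_zero]
  refine h1.trans ((reroot N M).trans ?_)
  have h2 : ∀ m ∈ Finset.range M, ∑ j : Fin L, vm (N + m + 1) j ≤ L * (vm N c * G ^ 2) := by
    intro m hm
    rw [Finset.mem_range] at hm
    have h3 : ∀ j : Fin L, vm (N + m + 1) j ≤ vm N c * G ^ 2 := by
      intro j
      rw [vm_rot _ j c]
      have := vm_cut (M := m + 1) hN (by omega) c (fun u => hG (m + 1) (by omega) u)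
      rwa [← add_assoc] at this
    refine (Finset.sum_le_card_nsmul _ _ _ fun j _ => h3 j).trans (le_of_eq ?_)
    rw [Finset.card_univ, Fintype.card_fin, nsmul_eq_mul]
  refine (Finset.sum_le_card_nsmul _ _ _ h2).trans (le_of_eq ?_)
  rw [Finset.card_range, nsmul_eq_mul]
  ring

end Pool.Agent.CYL.U
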